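import Mathlib

/-!
# Row CRb: the criterion (Siegel, Cramer)
-/

set_option autoImplicit false

namespace MZG

open Finset Module
open scoped ENNReal Nat Polynomial

/-- choice of a basis inside `S ∪ G` adapted to `e ∈ span S` -/
theorem CRb_basis {V : Type*} [AddCommGroup V] [Module ℚ V] [FiniteDimensional ℚ V]
    (S G : Set V) (e : V) (hG : Submodule.span ℚ G = ⊤) (hS : e ∈ Submodule.span ℚ S) :
    ∃ y : Basis (Fin (finrank ℚ V)) ℚ V, (∀ i, y i ∈ S ∪ G) ∧
      ∀ i, y.repr e i = 0 ∨ y i ∈ S := by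
  obtain ⟨b, hbS, hbspan, hbli⟩ := exists_linearIndependent ℚ S
  obtain ⟨b', hb't, hbb', htb', hb'li⟩ := exists_linearIndepOn_id_extension
    (K := ℚ) (s := b) (t := S ∪ G) hbli (hbS.trans (Set.subset_union_left : S ⊆ S ∪ G))
  have hspan : ⊤ ≤ Submodule.span ℚ (Set.range (Subtype.val : b' → V)) := by
    rw [Subtype.range_coe, ← hG, Submodule.span_le]
    exact (Set.subset_union_right).trans htb'
  let B : Basis b' ℚ V := Basis.mk hb'li hspan
  haveI : Finite b' := Module.Finite.finite_basis B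
  haveI : Fintype b' := Fintype.ofFinite b'
  have hcard : Fintype.card b' = finrank ℚ V := (finrank_eq_card_basis B).symm
  let y : Basis (Fin (finrank ℚ V)) ℚ V := B.reindex (Fintype.equivFinOfCardEq hcard)
  have hy : ∀ i, y i = ((Fintype.equivFinOfCardEq hcard).symm i : V) := by
    intro i
    simp [y, B, Basis.reindex_apply, Basis.mk_apply]
  refine ⟨y, fun i => ?_, fun i => ?_⟩
  · rw [hy i]
    exact hb't ((Fintype.equivFinOfCardEq hcard).symm i).2
  · by_cases h : y i ∈ b
    · exact Or.inr (hbS h)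
    · left
      have hmem : e ∈ Submodule.span ℚ (y '' {i | y i ∈ b}) := by
        have hb : y '' {i | y i ∈ b} = b := by
          ext x
          constructor
          · rintro ⟨k, hk, rfl⟩
            exact hk
          · intro hx
            refine ⟨(Fintype.equivFinOfCardEq hcard) ⟨x, hbb' hx⟩, ?_, ?_⟩
            · simp only [Set.mem_setOf_eq]
              rw [hy]
              simpa using hx
            · rw [hy]
              simp
        rw [hb, hbspan]
        exact hS
      have hsupp := y.repr_support_subset_of_mem_span _ hmem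
      by_contra hne
      have : i ∈ ((y.repr e).support : Set _) := by
        simpa using hne
      exact h (hsupp this)

/-- Pure linear algebra. Let `d = finrank V`, `ph` as in `coords`. Choose a maximal linearly independent
subset of `S`, and extend it by elements of `G` to a basis `y : Fin d → V` of `V` (`S ∪ G` spans `V`);
`1v = ∑ c_i y_i`, with `c_i = 0` unless `y_i ∈ S` (as `1v ∈ span S` = span of the chosen part). Matrix
`M i j = ph j (y i)` of integers, `|M i j| ≤ A`, `det M ≠ 0` (the `ph j` are a basis of the dual, `y` is a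
basis). Cramer: `c_i det M = det (M with row i replaced by (ph j 1v)_j)`
(`Matrix.det_updateRow_sum`/`Matrix.cramer`), `|det| ≤ d! A^d` (`Matrix.det_le`), `|det M| ≥ 1`. So
`|c_i| ≤ d! A^d`. -/
theorem cramer_bound {V : Type*} [AddCommGroup V] [Module ℚ V] [FiniteDimensional ℚ V]
    (ph : Fin (finrank ℚ V) → (V →ₗ[ℚ] ℚ)) (hph : ∀ x : V, (∀ j, ph j x = 0) → x = 0)
    (S G : Set V) (e : V) (A : ℝ) (hG : Submodule.span ℚ G = ⊤)
    (hS : e ∈ Submodule.span ℚ S)
    (hA : ∀ x ∈ insert e (S ∪ G), ∀ j, ∃ z : ℤ, ph j x = z ∧ |(z : ℝ)| ≤ A) :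
    ∃ (y : Fin (finrank ℚ V) → V) (c : Fin (finrank ℚ V) → ℚ), (∀ i, c i = 0 ∨ y i ∈ S) ∧
      e = ∑ i, c i • y i ∧ ∀ i, |(c i : ℝ)| ≤ (finrank ℚ V)! * A ^ (finrank ℚ V) := by
  obtain ⟨y, hyS, hyc⟩ := CRb_basis S G e hG hS
  refine ⟨y, fun i => y.repr e i, hyc, (y.sum_repr e).symm, ?_⟩
  choose z hz1 hz2 using hA
  have hymem : ∀ i, y i ∈ insert e (S ∪ G) := fun i => Set.mem_insert_of_mem _ (hyS i)
  let M : Matrix (Fin (finrank ℚ V)) (Fin (finrank ℚ V)) ℚ := fun i j => ph j (y i)
  let Z : Matrix (Fin (finrank ℚ V)) (Fin (finrank ℚ V)) ℤ := fun i j => z (y i) (hymem i) j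
  have hMZ : M = Z.map (Int.castRingHom ℚ) := by
    ext i j
    exact hz1 (y i) (hymem i) j
  have hdetM : M.det = ((Z.det : ℤ) : ℚ) := by
    rw [hMZ]
    exact (RingHom.map_det (Int.castRingHom ℚ) Z).symm
  have hne : M.det ≠ 0 := by
    intro h0
    obtain ⟨v, hv, hv0⟩ := Matrix.exists_vecMul_eq_zero_iff.mpr h0
    apply hv
    have hx : ∑ i, v i • y i = 0 := by
      apply hph
      intro j
      have := congrFun hv0 j
      simp only [Matrix.vecMul, dotProduct, Pi.zero_apply] at this
      rw [map_sum]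
      simpa [M, smul_eq_mul] using this
    have := Fintype.linearIndependent_iff.mp y.linearIndependent v hx
    ext i
    exact this i
  have hZne : Z.det ≠ 0 := by
    intro h
    apply hne
    rw [hdetM, h]
    simp
  have hone : (1 : ℝ) ≤ |((M.det : ℚ) : ℝ)| := by
    rw [hdetM]
    have h1 : (1 : ℤ) ≤ |Z.det| := Int.one_le_abs hZne
    have h2 : ((1 : ℤ) : ℝ) ≤ ((|Z.det| : ℤ) : ℝ) := by exact_mod_cast h1
    simpa using h2
  intro i
  let Zi : Matrix (Fin (finrank ℚ V)) (Fin (finrank ℚ V)) ℤ :=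
    Z.updateRow i (fun j => z e (Set.mem_insert _ _) j)
  have hrow : (fun j => ph j e) = ∑ k, (y.repr e k) • M k := by
    ext j
    conv_lhs => rw [← y.sum_repr e]
    rw [map_sum]
    simp [M, Finset.sum_apply]
  have hcr : (M.updateRow i (fun j => ph j e)).det = y.repr e i * M.det := by
    rw [hrow, Matrix.det_updateRow_sum, smul_eq_mul]
  have hZi : (M.updateRow i (fun j => ph j e)) = Zi.map (Int.castRingHom ℚ) := by
    ext k j
    by_cases hk : k = i
    · subst hk
      simp only [Zi, Matrix.updateRow_self, Matrix.map_apply]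
      exact hz1 e (Set.mem_insert _ _) j
    · simp only [Zi, Matrix.updateRow_ne hk, Matrix.map_apply]
      exact hz1 (y k) (hymem k) j
  have hdetZi : (M.updateRow i (fun j => ph j e)).det = ((Zi.det : ℤ) : ℚ) := by
    rw [hZi]
    exact (RingHom.map_det (Int.castRingHom ℚ) Zi).symm
  have hbound : |((Zi.det : ℤ) : ℝ)| ≤ (finrank ℚ V)! * A ^ (finrank ℚ V) := by
    have hR : ((Zi.det : ℤ) : ℝ) = (Zi.map (Int.castRingHom ℝ)).det :=
      RingHom.map_det (Int.castRingHom ℝ) Zi
    rw [hR]
    have := Matrix.det_le (A := Zi.map (Int.castRingHom ℝ)) (abv := AbsoluteValue.abs) (x := A) (by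
      intro k j
      by_cases hk : k = i
      · subst hk
        simp only [Zi, Matrix.updateRow_self, Matrix.map_apply]
        exact hz2 e (Set.mem_insert _ _) j
      · simp only [Zi, Matrix.updateRow_ne hk, Matrix.map_apply]
        exact hz2 (y k) (hymem k) j)
    simpa [Fintype.card_fin, nsmul_eq_mul] using this
  have heq : ((y.repr e i : ℚ) : ℝ) * ((M.det : ℚ) : ℝ) = ((Zi.det : ℤ) : ℝ) := by
    have h := hcr.symm.trans hdetZi
    have h2 : (((y.repr e i * M.det : ℚ)) : ℝ) = (((Zi.det : ℤ) : ℚ) : ℝ) := by rw [h]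
    rw [Rat.cast_mul, Rat.cast_intCast] at h2
    exact h2
  calc |((y.repr e i : ℚ) : ℝ)| = |((y.repr e i : ℚ) : ℝ)| * 1 := by ring
    _ ≤ |((y.repr e i : ℚ) : ℝ)| * |((M.det : ℚ) : ℝ)| := by
        exact mul_le_mul_of_nonneg_left hone (abs_nonneg _)
    _ = |((Zi.det : ℤ) : ℝ)| := by rw [← abs_mul, heq]
    _ ≤ _ := hbound

end MZG
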