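import Pool.Agent.Lib.MP_e54452_nt.DG.Defs2

/-!
# Row C1b
-/

set_option autoImplicit false

namespace MZG

open Finset PowerSeries
open scoped ENNReal Nat Polynomial

/-- the lcm is a multiple of each `j` (`Finset.dvd_lcm`) -/
lemma dvd_dd (j k : ℕ) (h1 : 1 ≤ j) (h2 : j ≤ k) : j ∣ dd k :=
  Finset.dvd_lcm (f := id) (Finset.mem_Icc.2 ⟨h1, h2⟩)

/-- no element of `Icc 1 k` is zero: `Finset.lcm_eq_zero_iff` -/
lemma dd_pos (k : ℕ) : 0 < dd k := by
  refine Nat.pos_of_ne_zero fun h => ?_
  rw [dd, Finset.lcm_eq_zero_iff] at h
  obtain ⟨x, hx, h0⟩ := h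
  have h0' : x = 0 := h0
  have h1 : x ∈ Finset.Icc 1 k := hx
  rw [Finset.mem_Icc] at h1
  omega

/-- tails of good words are good (cases on the tail) -/
lemma good_tail (a : Bool) (w : List Bool) (h : good (a :: w) = true) : good w = true := by
  cases w with
  | nil => rfl
  | cons b w => exact h

/-- `good [false]` is `false` -/
lemma good_false_ne (w : List Bool) (h : good (false :: w) = true) : w ≠ [] := by
  rintro rfl
  exact Bool.noConfusion h

lemma good_cons (a : Bool) (w : List Bool) (hw : w ≠ []) (h : good w = true) :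
    good (a :: w) = true := by
  cases w with
  | nil => exact absurd rfl hw
  | cons b w => exact h

lemma good_true (w : List Bool) (h : good w = true) : good (true :: w) = true := by
  cases w with
  | nil => rfl
  | cons b w => exact h

end MZG
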