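import Pool.Agent.Lib.MP_e54452_nt.DG.Defs3
import Pool.Agent.Lib.MP_e54452_nt.DG.C1b

/-!
# Row GWa: good words of bounded length
-/

set_option autoImplicit false

namespace MZG

open Finset
open scoped ENNReal Nat Polynomial

/-- induction on `s`, cases on `w` (`good_tail`, `good_cons`, `good_true`, `good_false_ne`) -/
lemma mem_GW (s : ℕ) (w : List Bool) : w ∈ GW s ↔ good w = true ∧ w.length ≤ s := by
  induction s generalizing w with
  | zero =>
    rw [GW, Finset.mem_singleton]
    constructor
    · rintro rfl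
      exact ⟨rfl, le_refl _⟩
    · rintro ⟨_, h⟩
      exact List.length_eq_zero_iff.mp (Nat.le_zero.mp h)
  | succ s ih =>
    rw [GW, Finset.mem_insert, Finset.mem_union, Finset.mem_image, Finset.mem_image]
    constructor
    · rintro (rfl | ⟨v, hv, rfl⟩ | ⟨v, hv, rfl⟩)
      · exact ⟨rfl, Nat.zero_le _⟩
      · rw [Finset.mem_erase, ih] at hv
        exact ⟨good_cons _ _ hv.1 hv.2.1, by simpa using hv.2.2⟩
      · rw [ih] at hv
        exact ⟨good_true _ hv.1, by simpa using hv.2⟩
    · rintro ⟨hg, hl⟩
      rcases w with _ | ⟨a, v⟩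
      · exact Or.inl rfl
      · have hl' : v.length ≤ s := by simpa using hl
        have hv : v ∈ GW s := (ih v).mpr ⟨good_tail _ _ hg, hl'⟩
        cases a
        · exact Or.inr (Or.inl ⟨v, Finset.mem_erase.mpr ⟨good_false_ne _ hg, hv⟩, rfl⟩)
        · exact Or.inr (Or.inr ⟨v, hv, rfl⟩)

/-- `card (GW (s+1)) = 1 + (2^s - 1) + 2^s` (disjoint images, injective maps, `[]` is in `GW s`) -/
lemma card_GW (s : ℕ) : (GW s).card = 2 ^ s := by
  induction s with
  | zero => rfl
  | succ s ih =>
    have h0 : ([] : List Bool) ∈ GW s := (mem_GW s []).mpr ⟨rfl, Nat.zero_le _⟩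
    have hpos : 0 < 2 ^ s := Nat.pos_of_ne_zero (by positivity)
    rw [GW, Finset.card_insert_of_notMem, Finset.card_union_of_disjoint,
      Finset.card_image_of_injective _ (fun x y h => (List.cons.inj h).2),
      Finset.card_image_of_injective _ (fun x y h => (List.cons.inj h).2),
      Finset.card_erase_of_mem h0, ih, pow_succ]
    · omega
    · rw [Finset.disjoint_left]
      intro x hx hy
      rw [Finset.mem_image] at hx hy
      obtain ⟨v, _, rfl⟩ := hx
      obtain ⟨v', _, h⟩ := hy
      exact absurd (List.cons.inj h).1 (by decide)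
    · intro h
      rw [Finset.mem_union, Finset.mem_image, Finset.mem_image] at h
      rcases h with ⟨v, _, h⟩ | ⟨v, _, h⟩
      · exact absurd h (List.cons_ne_nil _ _)
      · exact absurd h (List.cons_ne_nil _ _)

/-- `2^s (n+1)` -/
lemma card_Idx (s n : ℕ) : Fintype.card (Idx s n) = 2 ^ s * (n + 1) := by
  rw [Fintype.card_prod, Fintype.card_fin, Fintype.card_coe, card_GW]

end MZG
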