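import Pool.Agent.Lib.MP_e54452_nt.DG.SXa
import Pool.Agent.Lib.MP_e54452_nt.DG.GWa

/-!
# Row SZb: the form as a double series
-/

set_option autoImplicit false

namespace MZG

open Finset
open scoped ENNReal Nat Polynomial

lemma SZb_shift (F : ℕ → ℝ≥0∞) (i : ℕ) (h : ∀ k, k < i → F k = 0) :
    ∑' k, F k = ∑' m, F (m + i) := by
  symm
  apply Function.Injective.tsum_eq (g := fun m => m + i) (add_left_injective i)
  intro k hk
  rw [Function.mem_support] at hk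
  have hik : i ≤ k := by
    by_contra hne
    exact hk (h k (by omega))
  exact ⟨k - i, by simp only []; omega⟩

lemma SZb_cc_add (u : List Bool) (i m : ℕ) : cc u i (m + i) = c u m := by
  unfold cc
  rw [if_pos (Nat.le_add_left i m), Nat.add_sub_cancel]

lemma SZb_cc_lt (u : List Bool) (i k : ℕ) (h : k < i) : cc u i k = 0 := by
  unfold cc
  rw [if_neg (by omega)]

lemma SZb_cc_nonneg (u : List Bool) (i k : ℕ) : (0 : ℝ) ≤ ((cc u i k : ℚ) : ℝ) := by
  unfold cc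
  split_ifs
  · exact_mod_cast c_nonneg u (k - i)
  · simp

/-- Re-indexing: `Sx i j u v = ∑' k, ∑' l, ofReal (cc u i k) * ofReal (cc v j l) * bt k l`, since
`∑' k, f k` with `f` supported in `k ≥ i` is `∑' m, f (m + i)` (`cc u i (m + i) = c u m`). -/
lemma Sx_eq (i j : ℕ) (u v : List Bool) : Sx i j u v =
    ∑' k, ∑' l, ENNReal.ofReal ((cc u i k : ℚ) : ℝ) * ENNReal.ofReal ((cc v j l : ℚ) : ℝ) *
      bt k l := by
  rw [SZb_shift (fun k => ∑' l, ENNReal.ofReal ((cc u i k : ℚ) : ℝ) *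
    ENNReal.ofReal ((cc v j l : ℚ) : ℝ) * bt k l) i (by
      intro k hk
      simp [SZb_cc_lt u i k hk])]
  unfold Sx
  refine tsum_congr fun m => ?_
  simp only [SZb_cc_add]
  rw [SZb_shift (fun l => ENNReal.ofReal ((c u m : ℚ) : ℝ) *
    ENNReal.ofReal ((cc v j l : ℚ) : ℝ) * bt (m + i) l) j (by
      intro k hk
      simp [SZb_cc_lt v j k hk])]
  refine tsum_congr fun n => ?_
  simp only [SZb_cc_add]
  rfl

/-- `Sx_eq`, the value is finite (`Sx_ne_top`), all terms are nonnegative: the real family over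
`ℕ × ℕ` is summable with sum `sx i j u v` (`ENNReal.hasSum_toReal`, `ENNReal.tsum_prod`). -/
lemma sx_hasSum (i j : ℕ) (u v : List Bool) (hu : good u = true) (hv : good v = true) :
    HasSum (fun p : ℕ × ℕ => ((cc u i p.1 : ℚ) : ℝ) * ((cc v j p.2 : ℚ) : ℝ) *
      (bt p.1 p.2).toReal) (sx i j u v) := by
  set f : ℕ × ℕ → ℝ≥0∞ := fun p => ENNReal.ofReal ((cc u i p.1 : ℚ) : ℝ) *
    ENNReal.ofReal ((cc v j p.2 : ℚ) : ℝ) * bt p.1 p.2 with hf
  have hsum : ∑' p, f p = Sx i j u v := by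
    rw [Sx_eq]
    exact ENNReal.tsum_prod (f := fun k l => ENNReal.ofReal ((cc u i k : ℚ) : ℝ) *
      ENNReal.ofReal ((cc v j l : ℚ) : ℝ) * bt k l)
  have hne : ∑' p, f p ≠ ∞ := by
    rw [hsum]
    exact Sx_ne_top i j u v hu hv
  have hfp : ∀ p, f p ≠ ∞ := fun p => ENNReal.ne_top_of_tsum_ne_top hne p
  have h1 := ENNReal.hasSum_toReal hne
  rw [← ENNReal.tsum_toReal_eq hfp, hsum] at h1
  have h2 : (fun p : ℕ × ℕ => ((cc u i p.1 : ℚ) : ℝ) * ((cc v j p.2 : ℚ) : ℝ) *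
      (bt p.1 p.2).toReal) = fun p => (f p).toReal := by
    funext p
    rw [hf]
    simp only [ENNReal.toReal_mul]
    rw [ENNReal.toReal_ofReal (SZb_cc_nonneg u i p.1),
      ENNReal.toReal_ofReal (SZb_cc_nonneg v j p.2)]
  rw [h2]
  exact h1

/-- finite linear combination of `sx_hasSum` (`hasSum_sum`, `HasSum.mul_left`), `cu` is the finite sum
of the `cc` -/
theorem BB_hasSum {s n : ℕ} (t t' : Idx s n → ℚ) :
    HasSum (fun p : ℕ × ℕ => ((cu t p.1 : ℚ) : ℝ) * ((cu t' p.2 : ℚ) : ℝ) *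
      (bt p.1 p.2).toReal) (BB t t') := by
  have h : HasSum (fun p : ℕ × ℕ => ∑ x : Idx s n, ∑ y : Idx s n, (t x : ℝ) * (t' y : ℝ) *
      (((cc x.1 x.2 p.1 : ℚ) : ℝ) * ((cc y.1 y.2 p.2 : ℚ) : ℝ) * (bt p.1 p.2).toReal))
      (BB t t') := by
    unfold BB
    refine hasSum_sum fun x _ => hasSum_sum fun y _ => ?_
    exact (sx_hasSum x.2 y.2 x.1 y.1 ((mem_GW s x.1).mp x.1.2).1
      ((mem_GW s y.1).mp y.1.2).1).mul_left _
  have h2 : (fun p : ℕ × ℕ => ((cu t p.1 : ℚ) : ℝ) * ((cu t' p.2 : ℚ) : ℝ) *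
      (bt p.1 p.2).toReal) = fun p : ℕ × ℕ => ∑ x : Idx s n, ∑ y : Idx s n,
      (t x : ℝ) * (t' y : ℝ) *
      (((cc x.1 x.2 p.1 : ℚ) : ℝ) * ((cc y.1 y.2 p.2 : ℚ) : ℝ) * (bt p.1 p.2).toReal) := by
    funext p
    unfold cu
    push_cast
    rw [Finset.sum_mul_sum, Finset.sum_mul]
    refine Finset.sum_congr rfl fun x _ => ?_
    rw [Finset.sum_mul]
    refine Finset.sum_congr rfl fun y _ => ?_
    ring
  rw [h2]
  exact h

end MZG
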