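import Pool.Agent.Lib.MP_e54452_nt.DG.SIa

/-!
# Row FIb: numerics of the last step
-/

set_option autoImplicit false

namespace MZG

open Finset Filter
open scoped ENNReal Nat Polynomial

lemma FIb_dd (r n : ℕ) : (dd (2 * n + 1) : ℝ) ^ (2 * (2 * r) + 1) ≤
    Real.exp ((48 * r + 12) * ((n + 1 : ℕ) : ℝ)) := by
  have h := dd_le (2 * n + 1)
  calc (dd (2 * n + 1) : ℝ) ^ (2 * (2 * r) + 1)
      ≤ (Real.exp (6 * ((2 * n + 1 : ℕ) : ℝ))) ^ (2 * (2 * r) + 1) :=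
        pow_le_pow_left₀ (by positivity) h _
    _ = Real.exp (((2 * (2 * r) + 1 : ℕ) : ℝ) * (6 * ((2 * n + 1 : ℕ) : ℝ))) := by
        rw [← Real.exp_nat_mul]
    _ ≤ Real.exp ((48 * r + 12) * ((n + 1 : ℕ) : ℝ)) := by
        apply Real.exp_le_exp.mpr
        push_cast
        have hr : (0 : ℝ) ≤ r := Nat.cast_nonneg r
        have hn : (0 : ℝ) ≤ n := Nat.cast_nonneg n
        nlinarith

lemma FIb_sq (r n : ℕ) : ((4 ^ r * (n + 1) : ℕ) * Real.exp (100 * r * ((n + 1 : ℕ) : ℝ))) ^ 2 ≤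
    (4 : ℝ) ^ (2 * r) * Real.exp ((200 * r + 2) * ((n + 1 : ℕ) : ℝ)) := by
  have h1 : (((n + 1 : ℕ) : ℝ)) ≤ Real.exp ((n + 1 : ℕ) : ℝ) := by
    have := Real.add_one_le_exp (((n + 1 : ℕ) : ℝ))
    linarith
  have h2 : (((n + 1 : ℕ) : ℝ)) ^ 2 ≤ Real.exp (2 * ((n + 1 : ℕ) : ℝ)) := by
    calc (((n + 1 : ℕ) : ℝ)) ^ 2 ≤ (Real.exp ((n + 1 : ℕ) : ℝ)) ^ 2 :=
          pow_le_pow_left₀ (by positivity) h1 2
      _ = Real.exp (2 * ((n + 1 : ℕ) : ℝ)) := by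
          rw [← Real.exp_nat_mul]
          norm_num
  have e1 : ((4 ^ r * (n + 1) : ℕ) * Real.exp (100 * r * ((n + 1 : ℕ) : ℝ))) ^ 2 =
      (4 : ℝ) ^ (2 * r) * ((((n + 1 : ℕ) : ℝ)) ^ 2 * Real.exp (200 * r * ((n + 1 : ℕ) : ℝ))) := by
    have e2 : Real.exp (200 * r * ((n + 1 : ℕ) : ℝ)) =
        Real.exp (100 * r * ((n + 1 : ℕ) : ℝ)) ^ 2 := by
      rw [← Real.exp_nat_mul]
      congr 1
      push_cast
      ring
    rw [e2]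
    push_cast
    ring
  rw [e1]
  have e3 : Real.exp ((200 * r + 2) * ((n + 1 : ℕ) : ℝ)) =
      Real.exp (2 * ((n + 1 : ℕ) : ℝ)) * Real.exp (200 * r * ((n + 1 : ℕ) : ℝ)) := by
    rw [← Real.exp_add]
    congr 1
    ring
  rw [e3]
  exact mul_le_mul_of_nonneg_left
    (mul_le_mul_of_nonneg_right h2 (Real.exp_nonneg _)) (by positivity)

/-- `card² K0² ≤ 16^r (n+1)² exp (200 r (n+1))`, `2^n ≤ exp (0.7 (n+1))`, `4^(4r) = exp (4r log 4)`,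
`dd (2n+1) ≤ exp (12 (n+1))` (`dd_le`), so with `ν = n + 1`:
`log ≤ (200 r + 0.7 + 12 (4r+1)) ν + 2 log ν + const ≤ 252 r ν + 2 log ν + const ≤ 260 r ν + C'`
(`r ≥ 4`). -/
theorem HH_le (r : ℕ) (hr : 4 ≤ r) : ∃ C' : ℝ, ∀ n : ℕ,
    ((4 ^ r * (n + 1) : ℕ) * Real.exp (100 * r * ((n + 1 : ℕ) : ℝ))) ^ 2 *
      (2 ^ n * (4 ^ (2 * (2 * r)) * (dd (2 * n + 1) : ℝ) ^ (2 * (2 * r) + 1))) ≤
    Real.exp (260 * r * ((n + 1 : ℕ) : ℝ) + C') := by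
  refine ⟨Real.log ((4 : ℝ) ^ (2 * r) * 4 ^ (2 * (2 * r))), fun n => ?_⟩
  have h1 := FIb_sq r n
  have h2 := FIb_dd r n
  have h3 : (2 : ℝ) ^ n ≤ Real.exp ((n + 1 : ℕ) : ℝ) := by
    have h20 : (2 : ℝ) ≤ Real.exp 1 := by
      have := Real.add_one_le_exp (1 : ℝ)
      linarith
    calc (2 : ℝ) ^ n ≤ (Real.exp 1) ^ n := pow_le_pow_left₀ (by norm_num) h20 n
      _ = Real.exp n := by rw [← Real.exp_nat_mul, mul_one]
      _ ≤ Real.exp ((n + 1 : ℕ) : ℝ) := by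
          apply Real.exp_le_exp.mpr
          push_cast
          linarith
  have hrR : (4 : ℝ) ≤ r := by exact_mod_cast hr
  have hn1 : (1 : ℝ) ≤ ((n + 1 : ℕ) : ℝ) := by
    push_cast
    have : (0 : ℝ) ≤ n := Nat.cast_nonneg n
    linarith
  calc ((4 ^ r * (n + 1) : ℕ) * Real.exp (100 * r * ((n + 1 : ℕ) : ℝ))) ^ 2 *
      (2 ^ n * (4 ^ (2 * (2 * r)) * (dd (2 * n + 1) : ℝ) ^ (2 * (2 * r) + 1)))
      ≤ ((4 : ℝ) ^ (2 * r) * Real.exp ((200 * r + 2) * ((n + 1 : ℕ) : ℝ))) *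
        (Real.exp ((n + 1 : ℕ) : ℝ) *
          (4 ^ (2 * (2 * r)) * Real.exp ((48 * r + 12) * ((n + 1 : ℕ) : ℝ)))) := by
        gcongr
    _ = Real.exp ((200 * r + 2) * ((n + 1 : ℕ) : ℝ) + ((n + 1 : ℕ) : ℝ) +
          (48 * r + 12) * ((n + 1 : ℕ) : ℝ)) *
          ((4 : ℝ) ^ (2 * r) * 4 ^ (2 * (2 * r))) := by
        rw [Real.exp_add, Real.exp_add]
        ring
    _ ≤ Real.exp (260 * r * ((n + 1 : ℕ) : ℝ)) * ((4 : ℝ) ^ (2 * r) * 4 ^ (2 * (2 * r))) := by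
        apply mul_le_mul_of_nonneg_right _ (by positivity)
        apply Real.exp_le_exp.mpr
        nlinarith
    _ = Real.exp (260 * r * ((n + 1 : ℕ) : ℝ) +
          Real.log ((4 : ℝ) ^ (2 * r) * 4 ^ (2 * (2 * r)))) := by
        rw [Real.exp_add, Real.exp_log (by positivity)]

/-- the same with `(1/4)^(2^r ν - 1) = 4 exp (-(log 4) 2^r ν)`, `log 4 ≥ 1.38` -/
theorem EE_le (r : ℕ) (hr : 4 ≤ r) : ∃ C' : ℝ, ∀ n : ℕ,
    (dd (2 * n + 1) : ℝ) ^ (2 * (2 * r) + 1) *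
      (((4 ^ r * (n + 1) : ℕ) * Real.exp (100 * r * ((n + 1 : ℕ) : ℝ))) ^ 2 *
        (1 / 4) ^ (2 ^ r * (n + 1) - 1)) ≤
    Real.exp ((260 * r - 1.38 * 2 ^ r) * ((n + 1 : ℕ) : ℝ) + C') := by
  refine ⟨Real.log ((4 : ℝ) ^ (2 * r) * 4), fun n => ?_⟩
  have h1 := FIb_sq r n
  have h2 := FIb_dd r n
  have h14 : (1 / 4 : ℝ) ≤ Real.exp (-1.38) := by
    have hl : (1.38 : ℝ) ≤ Real.log 4 := by
      have : Real.log 4 = 2 * Real.log 2 := by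
        rw [show (4 : ℝ) = 2 ^ 2 by norm_num, Real.log_pow]
        norm_num
      rw [this]
      have := Real.log_two_gt_d9
      linarith
    calc (1 / 4 : ℝ) = Real.exp (-Real.log 4) := by
          rw [Real.exp_neg, Real.exp_log (by norm_num)]
          norm_num
      _ ≤ Real.exp (-1.38) := Real.exp_le_exp.mpr (by linarith)
  have h3 : (1 / 4 : ℝ) ^ (2 ^ r * (n + 1) - 1) ≤
      4 * Real.exp (-1.38 * 2 ^ r * ((n + 1 : ℕ) : ℝ)) := by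
    have hpos : 1 ≤ 2 ^ r * (n + 1) := Nat.mul_pos (by positivity) (by omega)
    have e : (1 / 4 : ℝ) ^ (2 ^ r * (n + 1) - 1) = 4 * (1 / 4 : ℝ) ^ (2 ^ r * (n + 1)) := by
      obtain ⟨k, hk⟩ : ∃ k, 2 ^ r * (n + 1) = k + 1 := ⟨2 ^ r * (n + 1) - 1, by omega⟩
      rw [hk, Nat.add_sub_cancel, pow_succ]
      ring
    rw [e]
    refine mul_le_mul_of_nonneg_left ?_ (by norm_num)
    calc (1 / 4 : ℝ) ^ (2 ^ r * (n + 1)) ≤ (Real.exp (-1.38)) ^ (2 ^ r * (n + 1)) :=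
          pow_le_pow_left₀ (by norm_num) h14 _
      _ = Real.exp (-1.38 * 2 ^ r * ((n + 1 : ℕ) : ℝ)) := by
          rw [← Real.exp_nat_mul]
          congr 1
          push_cast
          ring
  have hrR : (4 : ℝ) ≤ r := by exact_mod_cast hr
  have hn1 : (1 : ℝ) ≤ ((n + 1 : ℕ) : ℝ) := by
    push_cast
    have : (0 : ℝ) ≤ n := Nat.cast_nonneg n
    linarith
  calc (dd (2 * n + 1) : ℝ) ^ (2 * (2 * r) + 1) *
      (((4 ^ r * (n + 1) : ℕ) * Real.exp (100 * r * ((n + 1 : ℕ) : ℝ))) ^ 2 *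
        (1 / 4) ^ (2 ^ r * (n + 1) - 1))
      ≤ Real.exp ((48 * r + 12) * ((n + 1 : ℕ) : ℝ)) *
        (((4 : ℝ) ^ (2 * r) * Real.exp ((200 * r + 2) * ((n + 1 : ℕ) : ℝ))) *
          (4 * Real.exp (-1.38 * 2 ^ r * ((n + 1 : ℕ) : ℝ)))) := by
        gcongr
    _ = Real.exp ((48 * r + 12) * ((n + 1 : ℕ) : ℝ) + (200 * r + 2) * ((n + 1 : ℕ) : ℝ) +
          -1.38 * 2 ^ r * ((n + 1 : ℕ) : ℝ)) * ((4 : ℝ) ^ (2 * r) * 4) := by
        rw [Real.exp_add, Real.exp_add]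
        ring
    _ ≤ Real.exp ((260 * r - 1.38 * 2 ^ r) * ((n + 1 : ℕ) : ℝ)) * ((4 : ℝ) ^ (2 * r) * 4) := by
        apply mul_le_mul_of_nonneg_right _ (by positivity)
        apply Real.exp_le_exp.mpr
        nlinarith
    _ = Real.exp ((260 * r - 1.38 * 2 ^ r) * ((n + 1 : ℕ) : ℝ) +
          Real.log ((4 : ℝ) ^ (2 * r) * 4)) := by
        rw [Real.exp_add, Real.exp_log (by positivity)]

end MZG
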