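import Mathlib

/-!
# Row FId: limit argument
-/

set_option autoImplicit false

namespace MZG

open Finset Filter

/-- If `1 ≤ (C exp (α ν + C1))^d * (C exp ((α - β) ν + C2))` for all large `ν`, then
`0 ≤ d α + α - β` (otherwise the right side tends to `0`). -/
theorem limit_ineq (C α β C1 C2 : ℝ) (hC : 1 ≤ C) (d N0 : ℕ)
    (h : ∀ n : ℕ, N0 ≤ n + 1 → 1 ≤ (C * Real.exp (α * ((n + 1 : ℕ) : ℝ) + C1)) ^ d *
      (C * Real.exp ((α - β) * ((n + 1 : ℕ) : ℝ) + C2))) : β ≤ (d + 1) * α := by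
  by_contra hcon
  push Not at hcon
  have hC0 : 0 < C := by linarith
  set c : ℝ := Real.log C with hc
  have hCe : C = Real.exp c := (Real.exp_log hC0).symm
  set B : ℝ := (d + 1) * c + d * C1 + C2 with hB
  set γ : ℝ := β - (d + 1) * α with hγ
  have hγ0 : 0 < γ := by rw [hγ]; linarith
  obtain ⟨n, hn⟩ := exists_nat_gt (max (N0 : ℝ) (B / γ))
  have hn1 : (N0 : ℝ) < n := (le_max_left _ _).trans_lt hn
  have hn2 : B / γ < n := (le_max_right _ _).trans_lt hn
  have hn1' : N0 ≤ n + 1 := by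
    have : N0 < n := by exact_mod_cast hn1
    omega
  have hBn : B < γ * ((n + 1 : ℕ) : ℝ) := by
    rw [div_lt_iff₀ hγ0] at hn2
    push_cast
    nlinarith
  have h1 := h n hn1'
  have h2 : (C * Real.exp (α * ((n + 1 : ℕ) : ℝ) + C1)) ^ d *
      (C * Real.exp ((α - β) * ((n + 1 : ℕ) : ℝ) + C2)) =
      Real.exp (B - γ * ((n + 1 : ℕ) : ℝ)) := by
    rw [hCe, ← Real.exp_add, ← Real.exp_add, ← Real.exp_nat_mul, ← Real.exp_add]
    congr 1
    rw [hB, hγ]
    ring
  rw [h2] at h1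
  have h3 : Real.exp (B - γ * ((n + 1 : ℕ) : ℝ)) < 1 := by
    rw [Real.exp_lt_one_iff]
    linarith
  linarith

end MZG
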