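import Pool.Agent.Lib.MP_e54452_nt.DG.FIa
import Pool.Agent.Lib.MP_e54452_nt.DG.FIb
import Pool.Agent.Lib.MP_e54452_nt.DG.FId

/-!
# Row FIc: exponential lower bound for `MZ W`
-/

set_option autoImplicit false

namespace MZG

open Finset Module
open scoped ENNReal Nat Polynomial

theorem FIc_HH_nonneg (r n : ℕ) : 0 ≤ HH r n := by
  unfold HH
  positivity

theorem FIc_EE_nonneg (r n : ℕ) : 0 ≤ EE r n := by
  unfold EE
  positivity

/-- `ineq_n`, `HH_le`, `EE_le` (monotone), `limit_ineq` with `α = 260 r`, `β = 1.38 * 2^r`. -/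
theorem main_r (r : ℕ) (hr : 4 ≤ r) :
    1.38 * 2 ^ r ≤ ((finrank ℚ (MZ (4 * r)) : ℝ) + 1) * (260 * r) := by
  obtain ⟨C, hC, h⟩ := ineq_n r hr
  obtain ⟨C1, h1⟩ := HH_le r hr
  obtain ⟨C2, h2⟩ := EE_le r hr
  refine limit_ineq C (260 * r) (1.38 * 2 ^ r) C1 C2 hC (finrank ℚ (MZ (4 * r)))
    (8 * 4 ^ r) ?_
  intro n hn
  have hC0 : 0 ≤ C := by linarith
  have e1 : HH r n ≤ Real.exp (260 * r * ((n + 1 : ℕ) : ℝ) + C1) := h1 n
  have e2 : EE r n ≤ Real.exp ((260 * r - 1.38 * 2 ^ r) * ((n + 1 : ℕ) : ℝ) + C2) := h2 n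
  refine (h n hn).trans ?_
  have a1 : 0 ≤ C * HH r n := mul_nonneg hC0 (FIc_HH_nonneg r n)
  have a2 : 0 ≤ C * EE r n := mul_nonneg hC0 (FIc_EE_nonneg r n)
  apply mul_le_mul
  · exact pow_le_pow_left₀ a1 (mul_le_mul_of_nonneg_left e1 hC0) _
  · exact mul_le_mul_of_nonneg_left e2 hC0
  · exact a2
  · positivity

theorem MZ_mono {W W' : ℕ} (h : W ≤ W') : MZ W ≤ MZ W' := by
  unfold MZ
  apply Submodule.span_mono
  rintro x ⟨z, hz, hl, rfl⟩
  exact ⟨z, hz, hl.trans h, rfl⟩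

theorem FIc_zr_nil : zr [] = 1 := by
  unfold zr ze
  rw [tsum_eq_single 0]
  · simp [ce, c]
  · intro m hm
    simp [ce, c, hm]

/-- `zr [] = 1 ∈ MZ W` -/
theorem one_le_finrank (W : ℕ) : 1 ≤ finrank ℚ (MZ W) := by
  haveI := MZ_finite W
  have h1 : (1 : ℝ) ∈ MZ W := by
    refine Submodule.subset_span ⟨[], rfl, by simp, FIc_zr_nil.symm⟩
  rw [Nat.one_le_iff_ne_zero]
  intro h0
  have hb : MZ W = ⊥ := Submodule.finrank_eq_zero.1 h0
  rw [hb, Submodule.mem_bot] at h1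
  exact one_ne_zero h1

theorem FIc_small (i : ℕ) (hi : i ≤ 3) : (2 : ℝ) ^ ((i : ℝ) / 4) ≤ 1.69 := by
  have h1 : (2 : ℝ) ^ ((i : ℝ) / 4) ≤ (2 : ℝ) ^ ((3 : ℝ) / 4) := by
    apply Real.rpow_le_rpow_of_exponent_le (by norm_num)
    have : (i : ℝ) ≤ 3 := by exact_mod_cast hi
    linarith
  refine h1.trans ?_
  have h2 : ((2 : ℝ) ^ ((3 : ℝ) / 4)) ^ 4 = 8 := by
    rw [← Real.rpow_natCast, ← Real.rpow_mul (by norm_num)]
    norm_num
  by_contra hcon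
  push Not at hcon
  have h3 : (1.69 : ℝ) ^ 4 < ((2 : ℝ) ^ ((3 : ℝ) / 4)) ^ 4 :=
    pow_lt_pow_left₀ hcon (by norm_num) (by norm_num)
  rw [h2] at h3
  norm_num at h3

/-- `d + 1 ≤ 2 d`, so `2^r ≤ 2 * 260/1.38 r d ≤ 380 r d` for `r ≥ 4`; for `r ≤ 3` trivial
(`2^r ≤ 380 r`, `r ≥ 1`). `W = 4r + i`, `i ≤ 3`: `2^(W/4) = 2^r 2^(i/4) ≤ 1.69 * 2^r`,
`380 * 1.69 * r ≤ 643 r ≤ 161 W`. For `1 ≤ W ≤ 3`: `2^(3/4) ≤ 170`. -/
theorem main_W (W : ℕ) (hW : 1 ≤ W) :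
    (2 : ℝ) ^ ((W : ℝ) / 4) ≤ 170 * W * finrank ℚ (MZ W) := by
  have hd : (1 : ℝ) ≤ finrank ℚ (MZ W) := by exact_mod_cast one_le_finrank W
  have hW' : (1 : ℝ) ≤ W := by exact_mod_cast hW
  rcases Nat.lt_or_ge W 16 with h16 | h16
  · have h1 : (2 : ℝ) ^ ((W : ℝ) / 4) ≤ (2 : ℝ) ^ (4 : ℝ) := by
      apply Real.rpow_le_rpow_of_exponent_le (by norm_num)
      have : (W : ℝ) ≤ 16 := by exact_mod_cast h16.le
      linarith
    have h2 : (2 : ℝ) ^ (4 : ℝ) = 16 := by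
      have : (2 : ℝ) ^ (4 : ℝ) = (2 : ℝ) ^ (4 : ℕ) := by
        rw [← Real.rpow_natCast]
        norm_num
      rw [this]
      norm_num
    rw [h2] at h1
    refine h1.trans ?_
    nlinarith
  · obtain ⟨r, i, hi, hri⟩ : ∃ r i : ℕ, i ≤ 3 ∧ W = 4 * r + i :=
      ⟨W / 4, W % 4, by omega, by omega⟩
    have hr : 4 ≤ r := by omega
    have hm := main_r r hr
    haveI := MZ_finite W
    have hmono : (finrank ℚ (MZ (4 * r)) : ℝ) ≤ finrank ℚ (MZ W) := by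
      exact_mod_cast Submodule.finrank_mono (MZ_mono (by omega : 4 * r ≤ W))
    have hi2 := FIc_small i hi
    have e : (2 : ℝ) ^ ((W : ℝ) / 4) = 2 ^ r * (2 : ℝ) ^ ((i : ℝ) / 4) := by
      rw [← Real.rpow_natCast, ← Real.rpow_add (by norm_num)]
      congr 1
      rw [hri]
      push_cast
      ring
    rw [e]
    have hr0 : (0 : ℝ) ≤ r := by positivity
    have hWr : 4 * (r : ℝ) ≤ W := by
      have : 4 * r ≤ W := by omega
      exact_mod_cast this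
    set d : ℝ := ((finrank ℚ (MZ W) : ℕ) : ℝ) with hdd
    have h3 : ((finrank ℚ (MZ (4 * r)) : ℝ) + 1) * (260 * r) ≤ (2 * d) * (260 * r) := by
      apply mul_le_mul_of_nonneg_right _ (by positivity)
      linarith
    have h4 : (1.38 : ℝ) * 2 ^ r ≤ 520 * (d * r) := by linarith
    have h5 : (2 : ℝ) ^ r ≤ 377 * (d * r) := by
      have : 0 ≤ d * r := by positivity
      linarith
    calc (2 : ℝ) ^ r * (2 : ℝ) ^ ((i : ℝ) / 4) ≤ (377 * (d * r)) * 1.69 := by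
          apply mul_le_mul h5 hi2 (by positivity) (by positivity)
      _ ≤ 170 * (4 * r) * d := by
          have : 0 ≤ d * r := by positivity
          linarith
      _ ≤ 170 * W * d := by
          apply mul_le_mul_of_nonneg_right _ (by linarith)
          linarith

end MZG
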