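import Mathlib

/-!
# Growth of the space of multiple zeta values: definitions

Words are lists of booleans: `false` is the form `dt/t`, `true` the form `dt/(1-t)`; the head of
the list is the outermost form. `c w k` is the coefficient of `x ^ k` of the iterated integral
from `0` to `x` (multiple polylogarithm) of a word ending in `true`.
-/

set_option autoImplicit false

namespace MZG

open Finset PowerSeries
open scoped ENNReal Nat Polynomial

/-- coefficients of the multiple polylogarithm of a word -/
def c : List Bool → ℕ → ℚ
  | [], k => if k = 0 then 1 else 0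
  | false :: w, k => c w k / k
  | true :: w, k => (∑ i ∈ range k, c w i) / k

/-- the empty word and the words ending in `true` -/
def good : List Bool → Bool
  | [] => true
  | [a] => a
  | _ :: b :: w => good (b :: w)

/-- admissible words: good and not starting with `true` -/
def adm : List Bool → Bool
  | [] => true
  | a :: w => !a && good (a :: w)

/-- `lcm (1, …, k)` -/
def dd (k : ℕ) : ℕ := (Finset.Icc 1 k).lcm id

/-- coefficients in `[0, ∞]` -/
noncomputable def ce (w : List Bool) (k : ℕ) : ℝ≥0∞ := ENNReal.ofReal ((c w k : ℚ) : ℝ)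

/-- `∫ x^i (1-x)^j` over the unit interval -/
noncomputable def bt (i j : ℕ) : ℝ≥0∞ := ENNReal.ofReal ((i ! * j ! : ℝ) / ((i + j + 1)! : ℝ))

/-- `i! j! / (i+j)!` -/
noncomputable def ct (i j : ℕ) : ℝ≥0∞ := ENNReal.ofReal ((i ! * j ! : ℝ) / ((i + j)! : ℝ))

/-- `∫ x^k L_u(x) L_v(1-x)` -/
noncomputable def Se (k : ℕ) (u v : List Bool) : ℝ≥0∞ :=
  ∑' m, ∑' n, ce u m * ce v n * bt (m + k) n

/-- `∫ x^k L_u(x) L_v(1-x) / (1-x)` (for `v ≠ []`) -/
noncomputable def Ne (k : ℕ) (u v : List Bool) : ℝ≥0∞ :=
  ∑' m, ∑' n, ce u m * ce v (n + 1) * bt (m + k) n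

/-- connected sum of Seki and Yamamoto -/
noncomputable def Ce (u v : List Bool) : ℝ≥0∞ := ∑' m, ∑' n, ce u m * ce v n * ct m n

/-- value at `1` -/
noncomputable def ze (w : List Bool) : ℝ≥0∞ := ∑' m, ce w m

/-- value at `1` as a real number -/
noncomputable def zr (w : List Bool) : ℝ := (ze w).toReal

/-- reverse complement of the first word, put in front of the second one -/
def dual : List Bool → List Bool → List Bool
  | [], w => w
  | a :: v, w => dual v ((!a) :: w)

/-- `x` is an integral combination of values of admissible words of length at most `W`,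
with sum of the absolute values of the coefficients at most `B`. -/
def Rep (W : ℕ) (B x : ℝ) : Prop :=
  ∃ a : List Bool →₀ ℤ, (∀ z ∈ a.support, adm z = true ∧ z.length ≤ W) ∧
    (a.sum fun _ t => |(t : ℝ)|) ≤ B ∧ x = a.sum fun z t => (t : ℝ) * zr z

/-- the rational span of the values of admissible words of length at most `W` -/
noncomputable def MZ (W : ℕ) : Submodule ℚ ℝ :=
  Submodule.span ℚ {x : ℝ | ∃ z : List Bool, adm z = true ∧ z.length ≤ W ∧ x = zr z}

end MZG
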