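import Pool.Agent.Lib.MP_e54452_nt.DG.RkE
import Pool.Agent.Lib.MP_e54452_nt.DG.Defs

/-!
# The rank lemma for words
-/

set_option autoImplicit false

open Polynomial Module

namespace MPe54452.Exp

open MZG

lemma good_of_cons (a : Bool) (w : List Bool) (h : good (a :: w) = true) : good w = true := by
  cases w with
  | nil => rfl
  | cons b w => simpa [good] using h

lemma good_false_cons (w : List Bool) : good (false :: w) = true ↔ (w ≠ [] ∧ good w = true) := by
  cases w with
  | nil => simp [good]
  | cons b w => simp [good]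

lemma good_true_cons (w : List Bool) : good (true :: w) = true ↔ good w = true := by
  cases w with
  | nil => simp [good]
  | cons b w => simp [good]

/-- the good words of length at most `s` -/
def GW : ℕ → Finset (List Bool)
  | 0 => {[]}
  | s + 1 => insert [] ((((GW s).erase []).image (fun w => false :: w)) ∪
      ((GW s).image (fun w => true :: w)))

lemma mem_GW (s : ℕ) (w : List Bool) : w ∈ GW s ↔ (good w = true ∧ w.length ≤ s) := by
  induction s generalizing w with
  | zero =>
    rw [GW, Finset.mem_singleton]
    constructor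
    · rintro rfl
      exact ⟨rfl, by simp⟩
    · rintro ⟨_, h⟩
      exact List.length_eq_zero_iff.mp (by omega)
  | succ s ih =>
    rw [GW, Finset.mem_insert, Finset.mem_union, Finset.mem_image, Finset.mem_image]
    constructor
    · rintro (rfl | ⟨v, hv, rfl⟩ | ⟨v, hv, rfl⟩)
      · exact ⟨rfl, by simp⟩
      · rw [Finset.mem_erase, ih] at hv
        refine ⟨(good_false_cons v).mpr ⟨hv.1, hv.2.1⟩, ?_⟩
        rw [List.length_cons]
        omega
      · rw [ih] at hv
        refine ⟨(good_true_cons v).mpr hv.1, ?_⟩
        rw [List.length_cons]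
        omega
    · rintro ⟨hg, hl⟩
      cases w with
      | nil => left; rfl
      | cons a w =>
        right
        rw [List.length_cons] at hl
        cases a with
        | false =>
          left
          rw [good_false_cons] at hg
          exact ⟨w, Finset.mem_erase.mpr ⟨hg.1, (ih w).mpr ⟨hg.2, by omega⟩⟩, rfl⟩
        | true =>
          right
          rw [good_true_cons] at hg
          exact ⟨w, (ih w).mpr ⟨hg, by omega⟩, rfl⟩

lemma card_GW_le (s : ℕ) : (GW s).card ≤ 2 ^ s := by
  induction s with
  | zero => simp [GW]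
  | succ s ih =>
    rw [GW]
    have h0 : [] ∈ GW s := (mem_GW s []).mpr ⟨rfl, by simp⟩
    have h1 := Finset.card_insert_le ([] : List Bool) ((((GW s).erase []).image (fun w => false :: w)) ∪
      ((GW s).image (fun w => true :: w)))
    have h2 := Finset.card_union_le (((GW s).erase []).image (fun w => false :: w))
      ((GW s).image (fun w => true :: w))
    have h3 : (((GW s).erase []).image (fun w => false :: w)).card ≤ ((GW s).erase []).card :=
      Finset.card_image_le
    have h4 : ((GW s).image (fun w => true :: w)).card ≤ (GW s).card := Finset.card_image_le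
    have h5 : ((GW s).erase []).card = (GW s).card - 1 := Finset.card_erase_of_mem h0
    have h6 : 0 < (GW s).card := Finset.card_pos.mpr ⟨_, h0⟩
    rw [pow_succ]
    omega

/-- type of good words of length at most `s` -/
abbrev WS (s : ℕ) : Type := {w : List Bool // good w = true ∧ w.length ≤ s}

instance (s : ℕ) : Fintype (WS s) := Fintype.subtype (GW s) (mem_GW s)

lemma card_WS_le (s : ℕ) : Fintype.card (WS s) ≤ 2 ^ s := by
  have h : Fintype.card (WS s) = (GW s).card := Fintype.card_of_subtype (GW s) (mem_GW s)
  rw [h]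
  exact card_GW_le s

/-- parent of a word -/
def wpar (s : ℕ) (w : WS s) : Option (Bool × WS s) :=
  match w with
  | ⟨[], _⟩ => none
  | ⟨a :: v, h⟩ => some (a, ⟨v, good_of_cons a v h.1, by
      have := h.2
      rw [List.length_cons] at this
      omega⟩)

/-- the tree of good words -/
def wtree (s : ℕ) : Tree (WS s) where
  par := wpar s
  len := fun w => w.1.length
  root := ⟨[], rfl, by simp⟩
  par_root := rfl
  len_root := rfl
  eq_root := by
    rintro ⟨w, hw⟩ h
    cases w with
    | nil => rfl
    | cons a v => simp [wpar] at h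
  inj := by
    rintro ⟨w, hw⟩ ⟨w', hw'⟩ x h h'
    cases w with
    | nil => simp [wpar] at h
    | cons a v =>
      cases w' with
      | nil => simp [wpar] at h'
      | cons a' v' =>
        simp only [wpar, Option.some.injEq] at h h'
        have e := h.trans h'.symm
        simp only [Prod.mk.injEq, Subtype.mk.injEq] at e
        apply Subtype.ext
        change a :: v = a' :: v'
        rw [e.1, e.2]
  len_par := by
    rintro ⟨w, hw⟩ a ⟨w', hw'⟩ h
    cases w with
    | nil => simp [wpar] at h
    | cons b v =>
      simp only [wpar, Option.some.injEq, Prod.mk.injEq, Subtype.mk.injEq] at h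
      change (b :: v).length = w'.length + 1
      rw [List.length_cons, h.2]

/-- the functional `X ^ j ↦ mu j` -/
noncomputable def fl (m : ℕ → ℚ) : ℚ[X] →ₗ[ℚ] ℚ :=
  Polynomial.lsum (fun j => LinearMap.toSpanSingleton ℚ ℚ (m j))

lemma fl_apply (m : ℕ → ℚ) (p : ℚ[X]) : fl m p = p.sum fun i t => t * m i := by
  simp [fl, Polynomial.lsum_apply, LinearMap.toSpanSingleton_apply]

lemma fl_monomial (m : ℕ → ℚ) (j : ℕ) (t : ℚ) : fl m (monomial j t) = t * m j := by
  rw [fl_apply, Polynomial.sum_monomial_index]
  simp

lemma fl_X_pow (m : ℕ → ℚ) (j : ℕ) : fl m (X ^ j) = m j := by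
  rw [← monomial_one_right_eq_X_pow, fl_monomial, one_mul]

lemma fl_mul_X_pow (m : ℕ → ℚ) (p : ℚ[X]) (j : ℕ) :
    fl m (p * X ^ j) = p.sum fun i t => t * m (i + j) := by
  induction p using Polynomial.induction_on' with
  | add p q hp hq =>
    rw [add_mul, map_add, hp, hq, Polynomial.sum_add_index]
    · intro i; simp
    · intro i a b; ring
  | monomial k t =>
    rw [← Polynomial.C_mul_X_pow_eq_monomial, mul_assoc, ← pow_add,
      Polynomial.C_mul_X_pow_eq_monomial, Polynomial.C_mul_X_pow_eq_monomial, fl_monomial,
      Polynomial.sum_monomial_index]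
    simp

theorem rank_words (s : ℕ) (mu : List Bool → List Bool → ℕ → ℚ) (h0 : mu [] [] 0 ≠ 0)
    (Vp Wp : List Bool → List Bool → ℕ → ℚ)
    (hV0 : ∀ w j, Vp w [] j = 0)
    (hV1 : ∀ w v j, Vp w (false :: v) j = mu w v j - mu w v (j + 1))
    (hV2 : ∀ w v j, Vp w (true :: v) j = mu w v (j + 1))
    (hW0 : ∀ v j, Wp [] v j = 0)
    (hW1 : ∀ w v j, Wp (false :: w) v j = mu w v (j + 1))
    (hW2 : ∀ w v j, Wp (true :: w) v j = mu w v j - mu w v (j + 1))
    (hrec : ∀ w v, good w = true → good v = true → w.length ≤ s → v.length ≤ s → ∀ j : ℕ,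
      ((j : ℚ) + 2) * mu w v (j + 1) - ((j : ℚ) + 1) * mu w v j = Vp w v j - Wp w v j)
    (a n : ℕ) (hn : a + 4 * 2 ^ s ≤ n) (Q : List Bool →₀ ℚ[X])
    (hQ : ∀ w ∈ Q.support, good w = true ∧ w.length ≤ s) (hdeg : ∀ w, (Q w).natDegree ≤ a)
    (h : ∀ v, good v = true → v.length ≤ s → ∀ j ≤ n,
      Q.sum (fun w p => p.sum fun i t => t * mu w v (i + j)) = 0) : Q = 0 := by
  by_contra hQ0
  let l : WS s → WS s → ℚ[X] →ₗ[ℚ] ℚ := fun u v => (mu [] [] 0)⁻¹ • fl (mu u.1 v.1)
  have hl : ∀ u v p, l u v p = (mu [] [] 0)⁻¹ * fl (mu u.1 v.1) p := fun u v p => rfl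
  have hE : RelE (wtree s) l := by
    rintro ⟨u, hu⟩ ⟨v, hv⟩ f
    induction f using Polynomial.induction_on' with
    | add p q hp hq =>
      rw [mul_add, derivative_add, map_add, hp, hq]
      cases (wtree s).par ⟨u, hu⟩ <;> cases (wtree s).par ⟨v, hv⟩ <;>
        simp [mul_add, map_add] <;> ring
    | monomial j t =>
      have e1 : derivative (X * (1 - X) * monomial j t : ℚ[X]) =
          monomial j (t * (j + 1)) - monomial (j + 1) (t * (j + 2)) := by
        have e0 : (X * (1 - X) * monomial j t : ℚ[X]) = monomial (j + 1) t - monomial (j + 2) t := by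
          rw [← Polynomial.C_mul_X_pow_eq_monomial, ← Polynomial.C_mul_X_pow_eq_monomial,
            ← Polynomial.C_mul_X_pow_eq_monomial]
          ring
        rw [e0, derivative_sub, derivative_monomial, derivative_monomial]
        congr 2
        · push_cast; ring
        · push_cast; ring
      have e2 : (X * monomial j t : ℚ[X]) = monomial (j + 1) t := by
        rw [X_mul_monomial]
      have e3 : ((1 - X) * monomial j t : ℚ[X]) = monomial j t - monomial (j + 1) t := by
        rw [sub_mul, one_mul, X_mul_monomial]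
      have hr := hrec u v hu.1 hv.1 hu.2 hv.2 j
      rw [e1, map_sub, hl, hl, fl_monomial, fl_monomial]
      have key : ((mu [] [] 0)⁻¹ * (t * (j + 1) * mu u v j) -
          (mu [] [] 0)⁻¹ * (t * (j + 2) * mu u v (j + 1))) =
          (mu [] [] 0)⁻¹ * t * (Wp u v j - Vp u v j) := by
        linear_combination (-(mu [] [] 0)⁻¹ * t) * hr
      have eW : ((wtree s).par ⟨u, hu⟩).elim 0
          (fun x => (l x.2 ⟨v, hv⟩) (gam x.1 * monomial j t)) = (mu [] [] 0)⁻¹ * t * Wp u v j := by
        cases u with
        | nil => simp [wtree, wpar, hW0]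
        | cons b u =>
          cases b with
          | false =>
            change (mu [] [] 0)⁻¹ * fl (mu u v) (gam false * monomial j t) = _
            rw [show gam false = X from rfl, e2, fl_monomial, hW1]
            ring
          | true =>
            change (mu [] [] 0)⁻¹ * fl (mu u v) (gam true * monomial j t) = _
            rw [show gam true = 1 - X from rfl, e3, map_sub, fl_monomial, fl_monomial, hW2]
            ring
      have eV : ((wtree s).par ⟨v, hv⟩).elim 0
          (fun x => (l ⟨u, hu⟩ x.2) (gb x.1 * monomial j t)) = (mu [] [] 0)⁻¹ * t * Vp u v j := by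
        cases v with
        | nil => simp [wtree, wpar, hV0]
        | cons b v =>
          cases b with
          | false =>
            change (mu [] [] 0)⁻¹ * fl (mu u v) (gb false * monomial j t) = _
            rw [show gb false = 1 - X from rfl, e3, map_sub, fl_monomial, fl_monomial, hV1]
            ring
          | true =>
            change (mu [] [] 0)⁻¹ * fl (mu u v) (gb true * monomial j t) = _
            rw [show gb true = X from rfl, e2, fl_monomial, hV2]
            ring
      rw [eW, eV]
      change ((mu [] [] 0)⁻¹ * (t * (j + 1) * mu u v j) -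
          (mu [] [] 0)⁻¹ * (t * (j + 2) * mu u v (j + 1))) = _
      rw [key]
      ring
  have hN : l (wtree s).root (wtree s).root 1 = 1 := by
    rw [hl]
    have : (1 : ℚ[X]) = X ^ 0 := by simp
    rw [this, fl_X_pow]
    exact inv_mul_cancel₀ h0
  have hP : (fun u : WS s => Q u.1) ≠ 0 := by
    intro hz
    apply hQ0
    ext1 w
    by_cases hw : w ∈ Q.support
    · exact congrFun hz ⟨w, hQ w hw⟩
    · simpa using hw
  obtain ⟨v, j, hj, hne⟩ := rank_lemma (wtree s) l hE hN (fun u => Q u.1) hP a n
    (fun u => hdeg u.1) (le_trans (by have := card_WS_le s; omega) hn)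
  apply hne
  have hv := h v.1 v.2.1 v.2.2 j hj
  simp only [hl, fl_mul_X_pow]
  rw [← Finset.mul_sum]
  have e : ∑ u : WS s, ((Q u.1).sum fun i t => t * mu u.1 v.1 (i + j)) =
      Q.sum (fun w p => p.sum fun i t => t * mu w v.1 (i + j)) := by
    rw [Finsupp.sum]
    have h1 : ∑ u : WS s, ((Q u.1).sum fun i t => t * mu u.1 v.1 (i + j)) =
        ∑ w ∈ GW s, ((Q w).sum fun i t => t * mu w v.1 (i + j)) := by
      refine (Finset.sum_subtype (GW s) (mem_GW s)
        (fun w => (Q w).sum fun i t => t * mu w v.1 (i + j))).symm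
    rw [h1]
    refine (Finset.sum_subset (fun w hw => (mem_GW s w).mpr (hQ w hw)) (fun w _ hw => ?_)).symm
    rw [Finsupp.notMem_support_iff.mp hw]
    simp
  rw [e, hv, mul_zero]

end MPe54452.Exp
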