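import Mathlib

/-!
# Row LAa: linear algebra (a form that vanishes on a large subspace has small rank)
-/

set_option autoImplicit false

namespace MZG

open Finset Module

/-- Suppose `β x y = 0` for all `x, y ∈ L`. On `M = L ⊓ Va` consider the linear map
`M → (V ⧸ L) →ₗ ℚ` (dual), `x ↦ (y + L ↦ β x y)` (well defined since `x ∈ L`; `Submodule.liftQ`). It
is injective by `hVa`. So `finrank M ≤ finrank (V ⧸ L) = finrank V - finrank L < c`
(`Subspace.dual_finrank_eq`), while `finrank M ≥ finrank L + finrank Va - finrank V > finrank Va - c`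
(`Submodule.finrank_sup_add_finrank_inf_eq`, `finrank (L ⊔ Va) ≤ finrank V`). So `finrank Va < 2c`. -/
theorem form_ne_zero {V : Type*} [AddCommGroup V] [Module ℚ V] [FiniteDimensional ℚ V]
    (β : V →ₗ[ℚ] V →ₗ[ℚ] ℚ) (L Va : Submodule ℚ V) (c : ℕ)
    (hL : finrank ℚ V < finrank ℚ L + c) (hVa : ∀ x ∈ Va, (∀ y, β x y = 0) → x = 0)
    (hc : 2 * c ≤ finrank ℚ Va) : ∃ x ∈ L, ∃ y ∈ L, β x y ≠ 0 := by
  by_contra hcon
  have h0 : ∀ x ∈ L, ∀ y ∈ L, β x y = 0 := by
    intro x hx y hy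
    by_contra h
    exact hcon ⟨x, hx, y, hy, h⟩
  let M : Submodule ℚ V := L ⊓ Va
  let Φ : M →ₗ[ℚ] L.dualAnnihilator :=
    LinearMap.codRestrict L.dualAnnihilator (β ∘ₗ M.subtype)
      (fun x => (Submodule.mem_dualAnnihilator _).2 (fun y hy => h0 x.1 x.2.1 y hy))
  have hΦ : Function.Injective Φ := by
    rw [injective_iff_map_eq_zero]
    intro x hx
    have h1 : β x.1 = 0 := congrArg Subtype.val hx
    have h2 : x.1 = 0 := hVa x.1 x.2.2 (fun y => by rw [h1]; rfl)
    exact Subtype.ext h2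
  have h3 : finrank ℚ M ≤ finrank ℚ L.dualAnnihilator := LinearMap.finrank_le_finrank_of_injective hΦ
  have h4 := Subspace.finrank_add_finrank_dualAnnihilator_eq L
  have h5 := Submodule.finrank_sup_add_finrank_inf_eq L Va
  have h6 := Submodule.finrank_le (L ⊔ Va)
  have h7 : finrank ℚ M = finrank ℚ (L ⊓ Va : Submodule ℚ V) := rfl
  omega

/-- if the form vanishes on `T × T` it vanishes on `span T × span T` (`Submodule.span_induction`
twice) -/
theorem form_span {V : Type*} [AddCommGroup V] [Module ℚ V] (β : V →ₗ[ℚ] V →ₗ[ℚ] ℚ) (T : Set V)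
    (h : ∃ x ∈ Submodule.span ℚ T, ∃ y ∈ Submodule.span ℚ T, β x y ≠ 0) :
    ∃ x ∈ T, ∃ y ∈ T, β x y ≠ 0 := by
  by_contra hcon
  have h0 : ∀ x ∈ T, ∀ y ∈ T, β x y = 0 := by
    intro x hx y hy
    by_contra h
    exact hcon ⟨x, hx, y, hy, h⟩
  obtain ⟨x, hx, y, hy, hxy⟩ := h
  have h1 : ∀ x ∈ T, Submodule.span ℚ T ≤ LinearMap.ker (β x) := by
    intro x hx
    rw [Submodule.span_le]
    intro y hy
    exact h0 x hx y hy
  have h2 : Submodule.span ℚ T ≤ LinearMap.ker (β.flip y) := by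
    rw [Submodule.span_le]
    intro x hx
    have := h1 x hx hy
    rw [LinearMap.mem_ker] at this
    show β.flip y x = 0
    rw [LinearMap.flip_apply]
    exact this
  have h3 := h2 hx
  rw [LinearMap.mem_ker, LinearMap.flip_apply] at h3
  exact hxy h3

end MZG
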