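import Pool.Agent.Lib.MP_e54452_nt.DG.Defs3
import Pool.Agent.Lib.MP_e54452_nt.MzvDim

/-!
# Row COa: comparison of the weights
-/

set_option autoImplicit false

namespace MZG

open Finset Module
open scoped ENNReal Nat Polynomial

/-- multiplication by `mzv [a] ≠ 0` (`MPe54452.mzv_single_pos`) is injective and maps `Z k` into
`Z (k + a)` (`MPe54452.Z_mul`, `MPe54452.mzv_mem'`): `LinearMap.finrank_le_finrank_of_injective` for
the restricted map. -/
theorem finrank_Z_add (a k : ℕ) (ha : 2 ≤ a) :
    finrank ℚ (MPe54452.Z k) ≤ finrank ℚ (MPe54452.Z (k + a)) := by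
  have hm : MPe54452.mzv [a] ∈ MPe54452.Z a :=
    MPe54452.mzv_mem' [a] (by simpa [MPe54452.Adm] using ha) (by simp)
  have hpos := MPe54452.mzv_single_pos a ha
  let f : MPe54452.Z k →ₗ[ℚ] MPe54452.Z (k + a) :=
    { toFun := fun x => ⟨x.1 * MPe54452.mzv [a], MPe54452.Z_mul k a _ _ x.2 hm⟩
      map_add' := by
        intro x y
        apply Subtype.ext
        simp [add_mul]
      map_smul' := by
        intro q x
        apply Subtype.ext
        simp [smul_mul_assoc] }
  have hf : Function.Injective f := by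
    intro x y hxy
    have h1 : x.1 * MPe54452.mzv [a] = y.1 * MPe54452.mzv [a] := congrArg Subtype.val hxy
    exact Subtype.ext (mul_right_cancel₀ hpos.ne' h1)
  exact LinearMap.finrank_le_finrank_of_injective hf

theorem COa_zero : ZZ 0 ≤ MPe54452.Z 0 := by
  unfold ZZ
  apply Submodule.span_le.2
  rintro x ⟨s, hs, hsum, rfl⟩
  exact MPe54452.mzv_mem' s hs (by omega)

theorem COa_succ (W : ℕ) : ZZ (W + 1) ≤ ZZ W ⊔ MPe54452.Z (W + 1) := by
  unfold ZZ
  apply Submodule.span_le.2
  rintro x ⟨s, hs, hsum, rfl⟩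
  rcases Nat.lt_or_ge s.sum (W + 1) with h | h
  · exact Submodule.mem_sup_left (Submodule.subset_span ⟨s, hs, by omega, rfl⟩)
  · exact Submodule.mem_sup_right (MPe54452.mzv_mem' s hs (by omega))

/-- `ZZ W ≤ ⨆ k ∈ range (W+1), Z k`; finite-dimensional (`MPe54452.instFiniteZ`) -/
theorem ZZ_finite (W : ℕ) : FiniteDimensional ℚ (ZZ W) := by
  induction W with
  | zero => exact Submodule.finiteDimensional_of_le COa_zero
  | succ W ih =>
    haveI := ih
    exact Submodule.finiteDimensional_of_le (COa_succ W)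

/-- the dimension of a finite sum of subspaces is at most the sum of the dimensions (induction on `W`:
`ZZ (W+1) ≤ ZZ W ⊔ Z (W+1)`, `Submodule.finrank_add_le_finrank_add_finrank`) -/
theorem ZZ_finrank_le (W : ℕ) :
    finrank ℚ (ZZ W) ≤ ∑ k ∈ range (W + 1), finrank ℚ (MPe54452.Z k) := by
  induction W with
  | zero =>
    simpa using Submodule.finrank_mono COa_zero
  | succ W ih =>
    haveI := ZZ_finite W
    rw [Finset.sum_range_succ]
    calc finrank ℚ (ZZ (W + 1)) ≤ finrank ℚ (ZZ W ⊔ MPe54452.Z (W + 1) : Submodule ℚ ℝ) :=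
          Submodule.finrank_mono (COa_succ W)
      _ ≤ finrank ℚ (ZZ W) + finrank ℚ (MPe54452.Z (W + 1)) :=
          Submodule.finrank_add_le_finrank_add_finrank _ _
      _ ≤ _ := Nat.add_le_add_right ih _

/-- for `j ≤ W`, `finrank (Z j) ≤ finrank (Z (W+2))` (`finrank_Z_add` with `a = W + 2 - j ≥ 2`) -/
theorem ZZ_finrank_le' (W : ℕ) :
    finrank ℚ (ZZ W) ≤ (W + 1) * finrank ℚ (MPe54452.Z (W + 2)) := by
  refine (ZZ_finrank_le W).trans ?_
  calc ∑ k ∈ range (W + 1), finrank ℚ (MPe54452.Z k)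
      ≤ ∑ _k ∈ range (W + 1), finrank ℚ (MPe54452.Z (W + 2)) := by
        apply Finset.sum_le_sum
        intro j hj
        have hj' : j ≤ W := by
          have := Finset.mem_range.1 hj
          omega
        have h := finrank_Z_add (W + 2 - j) j (by omega)
        have e : j + (W + 2 - j) = W + 2 := by omega
        rwa [e] at h
    _ = (W + 1) * finrank ℚ (MPe54452.Z (W + 2)) := by simp

end MZG
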