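import Pool.Agent.Lib.MP_e54452_nt.DG.E9a
import Pool.Agent.Lib.MP_e54452_nt.DG.C1b

/-!
# Row E9b
-/

set_option autoImplicit false

namespace MZG

open Finset PowerSeries
open scoped ENNReal Nat Polynomial

/-- `z = []`: the sum is `1`. `z = false :: w`, with `w ≠ []` (good): `c z m = c w m / m ≤
C m^(-3/2)`, summable (`Real.summable_nat_rpow_inv` / `Real.summable_one_div_nat_rpow`). Then
`∑' m, ENNReal.ofReal _ ≠ ∞` (`Summable.tsum_ofReal_ne_top` or `ENNReal.ofReal_tsum_of_nonneg`). -/
lemma ze_ne_top (z : List Bool) (h : adm z = true) : ze z ≠ ∞ := by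
  match z, h with
  | [], _ =>
    unfold ze ce
    rw [tsum_eq_single 0]
    · exact ENNReal.ofReal_ne_top
    · intro m hm
      simp [c, hm]
  | a :: w, h =>
    have h2 : a = false ∧ good (a :: w) = true := by
      simpa [adm] using h
    obtain ⟨rfl, hg⟩ := h2
    have hw : w ≠ [] := good_false_ne w hg
    obtain ⟨C, hC, hb⟩ := c_bound w hw
    have hs : Summable (fun m : ℕ => C * (m : ℝ) ^ (-(3 / 2) : ℝ)) :=
      (Real.summable_nat_rpow.2 (by norm_num)).mul_left C
    have hle : ze (false :: w) ≤ ∑' m : ℕ, ENNReal.ofReal (C * (m : ℝ) ^ (-(3 / 2) : ℝ)) := by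
      unfold ze ce
      refine ENNReal.tsum_le_tsum fun m => ENNReal.ofReal_le_ofReal ?_
      rcases Nat.eq_zero_or_pos m with hm | hm
      · subst hm
        have h0 : ((c (false :: w) 0 : ℚ) : ℝ) = 0 := by simp [c]
        rw [h0, Nat.cast_zero]
        exact mul_nonneg hC (Real.rpow_nonneg le_rfl _)
      · have hm0 : (0 : ℝ) < m := by exact_mod_cast hm
        have h1 : ((c (false :: w) m : ℚ) : ℝ) = ((c w m : ℚ) : ℝ) / m := by
          simp [c]
        rw [h1]
        have h3 : (m : ℝ) ^ (-(3 / 2) : ℝ) = 1 / Real.sqrt m / m := by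
          rw [Real.sqrt_eq_rpow, div_div, one_div]
          have h4 : (m : ℝ) ^ (1 / 2 : ℝ) * m = (m : ℝ) ^ (3 / 2 : ℝ) := by
            nth_rewrite 2 [← Real.rpow_one (m : ℝ)]
            rw [← Real.rpow_add hm0]
            norm_num
          rw [h4, Real.rpow_neg hm0.le]
        rw [h3]
        calc ((c w m : ℚ) : ℝ) / m ≤ (C / Real.sqrt m) / m :=
              div_le_div_of_nonneg_right (hb m hm) hm0.le
          _ = C * (1 / Real.sqrt m / m) := by ring
    exact ne_top_of_le_ne_top hs.tsum_ofReal_ne_top hle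

end MZG
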