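import Pool.Agent.Lib.MP_e54452_nt.DG.BRa
import Pool.Agent.Lib.MP_e54452_nt.DG.E9b

/-!
# Row BRb: `zr z` is a multiple zeta value
-/

set_option autoImplicit false

namespace MZG

open Finset Filter
open scoped ENNReal Nat Polynomial

lemma BRb_good (z : List Bool) (hz : adm z = true) : good z = true := by
  cases z with
  | nil => rfl
  | cons a w =>
    simp only [adm, Bool.and_eq_true] at hz
    exact hz.2

/-- `zr [] = 1 = mzv []`. For `z ≠ []`: `MPe54452.tendsto_hs`: `hs (comp 0 z) N → mzv (comp 0 z)`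
(`comp_adm`), and `zr z = ∑' k, c z k` (the sum is finite: `ze_ne_top`) is the limit of
`∑_{i<N+1} c z i`; `sum_c_eq_hs` with `n = 0`. Unique limits. -/
theorem zr_eq_mzv (z : List Bool) (hz : adm z = true) : zr z = MPe54452.mzv (comp 0 z) := by
  rcases eq_or_ne z [] with rfl | hne
  · have h1 : ze [] = 1 := by
      unfold ze
      rw [tsum_eq_single 0]
      · simp [ce, c]
      · intro m hm
        simp [ce, c, hm]
    simp [zr, h1, comp, MPe54452.mzv]
  · have hg := BRb_good z hz
    have hnn : ∀ k, (0 : ℝ) ≤ ((c z k : ℚ) : ℝ) := fun k => by exact_mod_cast c_nonneg z k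
    have hfin := ze_ne_top z hz
    have hsum : Summable (fun k => ((c z k : ℚ) : ℝ)) := by
      have := ENNReal.summable_toReal (f := fun m => ce z m) hfin
      refine this.congr (fun k => ?_)
      simp only [ce]
      rw [ENNReal.toReal_ofReal (hnn k)]
    have hz1 : zr z = ∑' k, ((c z k : ℚ) : ℝ) := by
      unfold zr ze
      rw [ENNReal.tsum_toReal_eq (fun m => by simp [ce])]
      refine tsum_congr (fun k => ?_)
      simp only [ce]
      rw [ENNReal.toReal_ofReal (hnn k)]
    have ht1 := hsum.hasSum.tendsto_sum_nat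
    have ht2 := (tendsto_add_atTop_iff_nat 1).mpr ht1
    have ht3 := MPe54452.tendsto_hs (comp 0 z) (comp_adm z hz)
    have he : (fun N => ∑ i ∈ range (N + 1), ((c z i : ℚ) : ℝ)) =
        (fun N => MPe54452.hs (comp 0 z) N) := by
      funext N
      rw [← sum_c_eq_hs z hg hne 0 N]
      simp
    rw [hz1]
    rw [he] at ht2
    exact tendsto_nhds_unique ht2 ht3

/-- `zr_eq_mzv`, `comp_adm`, `comp_sum` (for `z = []`: `comp 0 [] = []`) -/
theorem MZ_le_ZZ (W : ℕ) : MZ W ≤ ZZ W := by
  unfold MZ ZZ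
  apply Submodule.span_mono
  rintro x ⟨z, hz, hl, rfl⟩
  refine ⟨comp 0 z, comp_adm z hz, ?_, zr_eq_mzv z hz⟩
  rcases eq_or_ne z [] with rfl | hne
  · simp [comp]
  · rw [comp_sum z (BRb_good z hz) hne 0]
    omega

end MZG
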