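import Pool.Agent.Lib.MP_e54452_nt.DG.BRb
import Pool.Agent.Lib.MP_e54452_nt.DG.COa
import Pool.Agent.Lib.MP_e54452_nt.DG.FIc

/-!
# Row COb: the theorem
-/

set_option autoImplicit false

namespace MZG

open Finset Module
open scoped ENNReal Nat Polynomial

/-- `main_W`, `MZ_le_ZZ`, `Submodule.finrank_mono` (`ZZ_finite`) -/
theorem growth_ZZ (W : ℕ) (hW : 1 ≤ W) :
    (2 : ℝ) ^ ((W : ℝ) / 4) ≤ 170 * W * finrank ℚ (ZZ W) := by
  haveI := ZZ_finite W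
  have h1 := main_W W hW
  have h2 : finrank ℚ (MZ W) ≤ finrank ℚ (ZZ W) := Submodule.finrank_mono (MZ_le_ZZ W)
  have h3 : (finrank ℚ (MZ W) : ℝ) ≤ finrank ℚ (ZZ W) := by exact_mod_cast h2
  refine h1.trans ?_
  exact mul_le_mul_of_nonneg_left h3 (by positivity)

/-- `k ≥ 3`, `W = k - 2`: `2^(k/4) = 2^(1/2) 2^(W/4) ≤ 1.4143 * 170 W (W+1) finrank (Z k)
≤ 250 k² finrank (Z k)` (`growth_ZZ`, `ZZ_finrank_le'`). `k = 2`: `finrank (Z 2) ≥ 1`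
(`mzv [2] ∈ Z 2` is not zero), `2^(1/2) ≤ 1000`. -/
theorem growth_Z (k : ℕ) (hk : 2 ≤ k) :
    (2 : ℝ) ^ ((k : ℝ) / 4) ≤ 250 * k ^ 2 * finrank ℚ (MPe54452.Z k) := by
  have hs : (2 : ℝ) ^ ((2 : ℝ) / 4) ≤ 1.4143 := by
    have e : (2 : ℝ) / 4 = 1 / 2 := by norm_num
    rw [e, ← Real.sqrt_eq_rpow]
    rw [Real.sqrt_le_left (by norm_num)]
    norm_num
  rcases Nat.lt_or_ge 2 k with h | h
  · obtain ⟨W, rfl⟩ : ∃ W, k = W + 2 := ⟨k - 2, by omega⟩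
    have hW : 1 ≤ W := by omega
    have h1 := growth_ZZ W hW
    have h2 := ZZ_finrank_le' W
    have h3 : (finrank ℚ (ZZ W) : ℝ) ≤ (W + 1) * finrank ℚ (MPe54452.Z (W + 2)) := by
      exact_mod_cast h2
    have hd : (0 : ℝ) ≤ finrank ℚ (MPe54452.Z (W + 2)) := Nat.cast_nonneg _
    have hW0 : (1 : ℝ) ≤ W := by exact_mod_cast hW
    have e : (2 : ℝ) ^ (((W + 2 : ℕ) : ℝ) / 4) = 2 ^ ((2 : ℝ) / 4) * 2 ^ ((W : ℝ) / 4) := by
      rw [← Real.rpow_add (by norm_num)]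
      congr 1
      push_cast
      ring
    rw [e]
    have hpos : (0 : ℝ) ≤ 2 ^ ((W : ℝ) / 4) := by positivity
    have h4 : (2 : ℝ) ^ ((W : ℝ) / 4) ≤
        170 * W * ((W + 1) * finrank ℚ (MPe54452.Z (W + 2))) :=
      h1.trans (mul_le_mul_of_nonneg_left h3 (by positivity))
    calc (2 : ℝ) ^ ((2 : ℝ) / 4) * 2 ^ ((W : ℝ) / 4)
        ≤ 1.4143 * (170 * W * ((W + 1) * finrank ℚ (MPe54452.Z (W + 2)))) :=
          mul_le_mul hs h4 hpos (by norm_num)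
      _ = (1.4143 * 170 * (W * (W + 1))) * finrank ℚ (MPe54452.Z (W + 2)) := by ring
      _ ≤ (250 * ((W + 2 : ℕ) : ℝ) ^ 2) * finrank ℚ (MPe54452.Z (W + 2)) := by
          refine mul_le_mul_of_nonneg_right ?_ hd
          push_cast
          nlinarith
  · obtain rfl : k = 2 := le_antisymm h hk
    have hm : MPe54452.mzv [2] ∈ MPe54452.Z 2 :=
      MPe54452.mzv_mem' [2] ⟨le_refl 2, by simp⟩ (by simp)
    have hne : MPe54452.mzv [2] ≠ 0 := (MPe54452.mzv_single_pos 2 le_rfl).ne'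
    haveI : Nontrivial (MPe54452.Z 2) :=
      ⟨⟨⟨MPe54452.mzv [2], hm⟩, 0, fun h => hne (congrArg Subtype.val h)⟩⟩
    have hd : 0 < finrank ℚ (MPe54452.Z 2) := Module.finrank_pos
    have hd' : (1 : ℝ) ≤ finrank ℚ (MPe54452.Z 2) := by exact_mod_cast hd
    push_cast
    nlinarith [hs]

end MZG
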