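import Mathlib

/-!
# Row LAb: coordinate complements
-/

set_option autoImplicit false

namespace MZG

open Finset Module

/-- Complement spanned by coordinate vectors: the images of the coordinate vectors
`Pi.single i 1` span `V ⧸ L`; choose a basis among them (`exists_linearIndependent`), it has
`card ι - finrank L ≥ c` elements; let `J` be `c` of the indices. If `x ∈ L` vanishes outside `J`, then
`x = ∑_{i ∈ J} x i • Pi.single i 1` is zero modulo `L`, so all `x i = 0`. -/
theorem coord_compl {ι : Type*} [Fintype ι] [DecidableEq ι] (L : Submodule ℚ (ι → ℚ)) (c : ℕ)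
    (h : finrank ℚ L + c ≤ Fintype.card ι) :
    ∃ J : Finset ι, J.card = c ∧ ∀ x ∈ L, (∀ i, i ∉ J → x i = 0) → x = 0 := by
  classical
  let v : ι → (ι → ℚ) ⧸ L := fun i => L.mkQ (Pi.single i (1 : ℚ))
  obtain ⟨κ, a, ha, hspan, hli⟩ := exists_linearIndependent' ℚ v
  have hfin : Finite κ := Finite.of_injective a ha
  have : Fintype κ := Fintype.ofFinite κ
  have hv : Submodule.span ℚ (Set.range v) = ⊤ := by
    have h1 : Submodule.span ℚ (Set.range fun i : ι => (Pi.single i (1 : ℚ) : ι → ℚ)) = ⊤ := by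
      have h2 := (Pi.basisFun ℚ ι).span_eq
      rw [← h2]
      congr 1
      ext x
      simp [Pi.basisFun_apply]
    have h3 : Set.range v = L.mkQ '' (Set.range fun i : ι => (Pi.single i (1 : ℚ) : ι → ℚ)) := by
      rw [← Set.range_comp]
      rfl
    rw [h3, ← Submodule.map_span, h1, Submodule.map_top, Submodule.range_mkQ]
  have hcard : Fintype.card κ = finrank ℚ ((ι → ℚ) ⧸ L) := by
    rw [hv] at hspan
    exact (finrank_eq_card_basis (Basis.mk hli (by rw [hspan]))).symm
  have hq := Submodule.finrank_quotient_add_finrank L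
  rw [Module.finrank_pi] at hq
  have hc : c ≤ Fintype.card κ := by omega
  obtain ⟨J', _, hJ'⟩ := Finset.exists_subset_card_eq (s := (Finset.univ : Finset κ)) (n := c)
    (by rw [Finset.card_univ]; exact hc)
  refine ⟨J'.map ⟨a, ha⟩, by rw [Finset.card_map, hJ'], ?_⟩
  intro x hx hout
  have hsum : x = ∑ k ∈ J', x (a k) • (Pi.single (a k) (1 : ℚ) : ι → ℚ) := by
    have h1 : x = ∑ i, x i • (Pi.single i (1 : ℚ) : ι → ℚ) := by
      ext j
      simp [Finset.sum_apply, Pi.single_apply]
    have h2 : ∑ i, x i • (Pi.single i (1 : ℚ) : ι → ℚ) =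
        ∑ i ∈ J'.map ⟨a, ha⟩, x i • (Pi.single i (1 : ℚ) : ι → ℚ) := by
      symm
      apply Finset.sum_subset (Finset.subset_univ _)
      intro i _ hi
      rw [hout i hi, zero_smul]
    rw [Finset.sum_map] at h2
    conv_lhs => rw [h1, h2]
    rfl
  have hzero : ∑ k ∈ J', x (a k) • (v ∘ a) k = 0 := by
    have h1 : L.mkQ x = 0 := (Submodule.Quotient.mk_eq_zero L).2 hx
    rw [hsum, map_sum] at h1
    simpa [map_smul, v] using h1
  have hcoef := linearIndependent_iff'.1 hli J' (fun k => x (a k)) hzero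
  ext i
  by_cases hi : i ∈ J'.map ⟨a, ha⟩
  · obtain ⟨k, hk, rfl⟩ := Finset.mem_map.1 hi
    exact hcoef k hk
  · exact hout i hi

end MZG
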