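import Pool.Agent.Lib.MP_e54452_nt.DG.Defs2

/-!
# Definitions for the second part
-/

set_option autoImplicit false

namespace MZG

open Finset
open scoped ENNReal Nat Polynomial

/-- good words of length at most `s` -/
def GW : ℕ → Finset (List Bool)
  | 0 => {[]}
  | s + 1 => insert [] ((((GW s).erase []).image (fun w => false :: w)) ∪
      ((GW s).image (fun w => true :: w)))

/-- `∫ x^i (1-x)^j L_u(x) L_v(1-x)` in `[0, ∞]` -/
noncomputable def Sx (i j : ℕ) (u v : List Bool) : ℝ≥0∞ :=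
  ∑' m, ∑' n, ce u m * ce v n * bt (m + i) (n + j)

/-- the same as a real number -/
noncomputable def sx (i j : ℕ) (u v : List Bool) : ℝ := (Sx i j u v).toReal

/-- pairs (good word of length at most `s`, exponent at most `n`) -/
abbrev Idx (s n : ℕ) : Type := {w : List Bool // w ∈ GW s} × Fin (n + 1)

/-- coefficient of `x^k` of `x^i L_w(x)` -/
def cc (w : List Bool) (i k : ℕ) : ℚ := if i ≤ k then c w (k - i) else 0

/-- coefficient of `x^k` of `∑ t_{w,i} x^i L_w(x)` -/
def cu {s n : ℕ} (t : Idx s n → ℚ) (k : ℕ) : ℚ := ∑ x : Idx s n, t x * cc x.1 x.2 k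

/-- `∫ U(x) V(1-x)` for `U = ∑ t_{w,i} x^i L_w`, `V = ∑ t'_{w,i} x^i L_w` -/
noncomputable def BB {s n : ℕ} (t t' : Idx s n → ℚ) : ℝ :=
  ∑ x : Idx s n, ∑ y : Idx s n, (t x : ℝ) * (t' y : ℝ) * sx x.2 y.2 x.1 y.1

/-- the small auxiliary functions of level `s = 2r` (as integer vectors) -/
def TT (r n : ℕ) : Set (Idx (2 * r) n → ℚ) :=
  {t | (∀ x, ∃ z : ℤ, t x = z) ∧ (∀ k < 2 ^ r * (n + 1), cu t k = 0) ∧
    ∀ x, |(t x : ℝ)| ≤ Real.exp (100 * r * ((n + 1 : ℕ) : ℝ))}

/-- right hand side of the two-term recurrence, part of the function in `x` -/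
def Vp (mu : List Bool → List Bool → ℕ → ℚ) : List Bool → List Bool → ℕ → ℚ
  | _, [], _ => 0
  | w, false :: v, j => mu w v j - mu w v (j + 1)
  | w, true :: v, j => mu w v (j + 1)

/-- right hand side of the two-term recurrence, part of the function in `1 - x` -/
def Wp (mu : List Bool → List Bool → ℕ → ℚ) : List Bool → List Bool → ℕ → ℚ
  | [], _, _ => 0
  | false :: w, v, j => mu w v (j + 1)
  | true :: w, v, j => mu w v j - mu w v (j + 1)

/-- the array of values of a functional -/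
noncomputable def muL (la : ℝ →ₗ[ℚ] ℚ) (w v : List Bool) (j : ℕ) : ℚ := la ((Se j v w).toReal)

end MZG
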