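import Pool.Agent.Lib.MP_e54452_nt.DG.C1a
import Pool.Agent.Lib.MP_e54452_nt.DG.C1b
import Pool.Agent.Lib.MP_e54452_nt.DG.Defs3

/-!
# Row BRa: words and exponents
`MPe54452.hs`, `MPe54452.mzv`, `MPe54452.Adm`, `MPe54452.Z` are in `Mzv.lean`.
-/

set_option autoImplicit false

namespace MZG

open Finset Filter
open scoped ENNReal Nat Polynomial

/-- induction on `w` for all `n`: for good `w ≠ []`, the sum is `n + |w|` -/
lemma comp_sum (w : List Bool) (hw : good w = true) (hw0 : w ≠ []) (n : ℕ) :
    (comp n w).sum = n + w.length := by
  induction w generalizing n with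
  | nil => exact absurd rfl hw0
  | cons a w ih =>
    have hg := good_tail a w hw
    cases a with
    | false =>
      have hne := good_false_ne w hw
      rw [comp, ih hg hne (n + 1), List.length_cons]
      omega
    | true =>
      rw [comp, List.sum_cons, List.length_cons]
      by_cases h0 : w = []
      · subst h0
        simp [comp]
      · rw [ih hg h0 0]
        omega

/-- all exponents are positive -/
lemma comp_pos (w : List Bool) (n : ℕ) : ∀ b ∈ comp n w, 1 ≤ b := by
  induction w generalizing n with
  | nil => intro b hb; simp [comp] at hb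
  | cons a w ih =>
    cases a with
    | false =>
      rw [comp]
      exact ih (n + 1)
    | true =>
      intro b hb
      rw [comp] at hb
      rcases List.mem_cons.1 hb with h | h
      · omega
      · exact ih 0 b h

lemma BRa_adm (w : List Bool) (hw : good w = true) (hw0 : w ≠ []) (n : ℕ) (hn : 1 ≤ n) :
    MPe54452.Adm (comp n w) := by
  induction w generalizing n with
  | nil => exact absurd rfl hw0
  | cons a w ih =>
    have hg := good_tail a w hw
    cases a with
    | false =>
      rw [comp]
      exact ih hg (good_false_ne w hw) (n + 1) (by omega)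
    | true =>
      rw [comp]
      exact ⟨by omega, comp_pos w 0⟩

/-- the head of `comp n w` is at least `n + 1` -/
lemma comp_adm (z : List Bool) (hz : adm z = true) : MPe54452.Adm (comp 0 z) := by
  cases z with
  | nil => simp [comp, MPe54452.Adm]
  | cons a w =>
    cases a with
    | false =>
      have hg : good (false :: w) = true := by simpa [adm] using hz
      rw [comp]
      exact BRa_adm w (good_tail _ _ hg) (good_false_ne w hg) 1 le_rfl
    | true => simp [adm] at hz

/-- For good `w` and `w ≠ []`: induction on `w`, for all `n`, `N`. `w = true :: w'`: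
`c w i / i^n = (∑_{j<i} c w' j) / i^(n+1)`; for `w' = []` the inner sum is `1 = hs [] (i-1)` for `i ≥ 1`; for
`w' ≠ []` it is `hs (comp 0 w') (i-1)` by induction (with exponent `0`), `hs (a :: l) N =
∑ k < N, (k+1)^(-a) hs l k`, shift `i = k + 1` (the term `i = 0` vanishes: `c w 0 = 0`).
`w = false :: w'`, `w' ≠ []`: `c w i / i^n = c w' i / i^(n+1)`. -/
lemma sum_c_eq_hs (w : List Bool) (hw : good w = true) (hw0 : w ≠ []) (n N : ℕ) :
    ∑ i ∈ range (N + 1), ((c w i : ℚ) : ℝ) / (i : ℝ) ^ n = MPe54452.hs (comp n w) N := by
  induction w generalizing n N with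
  | nil => exact absurd rfl hw0
  | cons a w ih =>
    have hg := good_tail a w hw
    cases a with
    | false =>
      rw [comp, ← ih hg (good_false_ne w hw) (n + 1) N]
      apply Finset.sum_congr rfl
      intro i _
      have : c (false :: w) i = c w i / i := rfl
      rw [this]
      push_cast
      rw [div_div, ← pow_succ']
    | true =>
      rw [comp, MPe54452.hs, Finset.sum_range_succ']
      have h0 : c (true :: w) 0 = 0 := c_zero _ (by simp)
      rw [h0]
      simp only [Rat.cast_zero, zero_div, add_zero]
      apply Finset.sum_congr rfl
      intro k _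
      have h1 : c (true :: w) (k + 1) = (∑ i ∈ range (k + 1), c w i) / ((k + 1 : ℕ) : ℚ) := rfl
      have h2 : ∑ i ∈ range (k + 1), ((c w i : ℚ) : ℝ) = MPe54452.hs (comp 0 w) k := by
        by_cases hw' : w = []
        · subst hw'
          rw [comp, MPe54452.hs, Finset.sum_range_succ']
          simp [c]
        · rw [← ih hg hw' 0 k]
          apply Finset.sum_congr rfl
          intro i _
          rw [pow_zero, div_one]
      rw [h1]
      push_cast
      rw [h2, div_div, ← pow_succ', div_eq_mul_inv, mul_comm]

end MZG
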