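import Pool.Agent.Lib.MP_e54452_nt.DG.Defs2

/-!
# Row C1a
-/

set_option autoImplicit false

namespace MZG

open Finset PowerSeries
open scoped ENNReal Nat Polynomial

/-- `c [] 0 = 1`, all other cases are quotients of nonnegative numbers. Induction on `w`. -/
lemma c_nonneg (w : List Bool) (k : ℕ) : 0 ≤ c w k := by
  induction w generalizing k with
  | nil => 
    simp only [c]
    split_ifs <;> norm_num
  | cons a w ih =>
    cases a with
    | false => 
      simp only [c]
      exact div_nonneg (ih k) (Nat.cast_nonneg k)
    | true =>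
      simp only [c]
      exact div_nonneg (Finset.sum_nonneg fun i _ => ih i) (Nat.cast_nonneg k)

/-- induction on `w`. `c [] k` is `0` or `1`; `c (false :: w) k = c w k / k ≤ 1` (for `k = 0` the
quotient is `0`, for `1 ≤ k` use `c w k ≤ 1 ≤ k`); `c (true :: w) k = (∑ i < k, c w i) / k`,
the sum is at most `k` (`Finset.sum_le_card_nsmul`), `div_le_one_of_le₀`. -/
lemma c_le_one (w : List Bool) (k : ℕ) : c w k ≤ 1 := by
  induction w generalizing k with
  | nil => 
    simp only [c]
    split_ifs <;> norm_num
  | cons a w ih =>
    cases a with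
    | false => 
      simp only [c]
      rcases Nat.eq_zero_or_pos k with rfl | hk
      · simp
      · have hk' : (1 : ℚ) ≤ k := by exact_mod_cast hk
        exact div_le_one_of_le₀ ((ih k).trans hk') (by positivity)
    | true =>
      simp only [c]
      refine div_le_one_of_le₀ ?_ (by positivity)
      calc ∑ i ∈ range k, c w i ≤ ∑ i ∈ range k, (1 : ℚ) := Finset.sum_le_sum fun i _ => ih i
        _ = k := by simp

/-- both cases are a quotient by `((0 : ℕ) : ℚ)`. -/
lemma c_zero (w : List Bool) (h : w ≠ []) : c w 0 = 0 := by
  cases w with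
  | nil => exact absurd rfl h
  | cons a w => cases a <;> simp [c]

/-- induction on `w`, for all `k`. Empty word: `c [] k` is `0` or `1`. For `k = 0` and a
nonempty word use `c_zero`. For `1 ≤ k ≤ K` write `D = k * q`; then
`D ^ (l + 1) * (x / k) = q * (D ^ l * x)`, with `x = c w k` or `x = ∑ i < k, c w i`
(a sum of integers after multiplication by `D ^ l`, all `i < k ≤ K`). -/
lemma c_int (w : List Bool) (K D : ℕ) (hD : ∀ j, 1 ≤ j → j ≤ K → j ∣ D) (k : ℕ) (hk : k ≤ K) :
    ∃ t : ℤ, (D : ℚ) ^ w.length * c w k = t := by
  induction w generalizing k with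
  | nil => 
    simp only [c]
    split_ifs
    · exact ⟨1, by simp⟩
    · exact ⟨0, by simp⟩
  | cons a w ih =>
    rcases Nat.eq_zero_or_pos k with rfl | hk0
    · refine ⟨0, ?_⟩
      rw [c_zero _ (by simp)]
      simp
    · obtain ⟨q, hq⟩ := hD k hk0 hk
      have hk' : (k : ℚ) ≠ 0 := by
        have : k ≠ 0 := by omega
        exact_mod_cast this
      have key : ∀ x : ℚ, (∃ t : ℤ, (D : ℚ) ^ w.length * x = t) →
          ∃ t : ℤ, (D : ℚ) ^ (a :: w).length * (x / k) = t := by
        intro x ⟨t, ht⟩
        refine ⟨q * t, ?_⟩
        rw [List.length_cons, pow_succ]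
        have hD' : (D : ℚ) = k * q := by rw [hq]; push_cast; ring
        calc (D : ℚ) ^ w.length * D * (x / k) = (D : ℚ) ^ w.length * x * (D / k) := by ring
          _ = t * q := by
            rw [ht, hD', mul_div_cancel_left₀ _ hk']
          _ = ((q * t : ℤ) : ℚ) := by push_cast; ring
      cases a with
      | false =>
        simp only [c]
        exact key _ (ih k hk)
      | true =>
        simp only [c]
        refine key _ ?_
        have : ∀ i ∈ range k, ∃ t : ℤ, (D : ℚ) ^ w.length * c w i = t := fun i hi =>
          ih i (by have := Finset.mem_range.1 hi; omega)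
        choose! g hg using this
        refine ⟨∑ i ∈ range k, g i, ?_⟩
        rw [Finset.mul_sum, Finset.sum_congr rfl hg]
        push_cast
        rfl

end MZG
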