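import Pool.Agent.Lib.MP_e54452_nt.DG.R1

/-!
# Row CRa, CRb: the criterion
-/

set_option autoImplicit false

namespace MZG

open Finset Module
open scoped ENNReal Nat Polynomial

theorem CRa_fin (W : ℕ) : {z : List Bool | z.length ≤ W}.Finite :=
  List.finite_length_le Bool W

/-- finitely many words of length at most `W` -/
theorem MZ_finite (W : ℕ) : FiniteDimensional ℚ (MZ W) := by
  unfold MZ
  apply FiniteDimensional.span_of_finite
  apply ((CRa_fin W).image zr).subset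
  rintro x ⟨z, _, hl, rfl⟩
  exact ⟨z, hl, rfl⟩

theorem CRa_mem {W : ℕ} (z : List Bool) (h : adm z = true ∧ z.length ≤ W) : zr z ∈ MZ W :=
  Submodule.subset_span ⟨z, h.1, h.2, rfl⟩

open Classical in
noncomputable def CRa_f (W : ℕ) (z : List Bool) : MZ W :=
  if h : adm z = true ∧ z.length ≤ W then ⟨zr z, CRa_mem z h⟩ else 0

theorem CRa_f_coe {W : ℕ} (z : List Bool) (h : adm z = true ∧ z.length ≤ W) :
    ((CRa_f W z : MZ W) : ℝ) = zr z := by
  unfold CRa_f
  rw [dif_pos h]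

theorem CRa_eq {W : ℕ} (a : List Bool →₀ ℤ)
    (ha : ∀ z ∈ a.support, adm z = true ∧ z.length ≤ W) (x : MZ W)
    (hx : (x : ℝ) = a.sum fun z t => (t : ℝ) * zr z) :
    x = ∑ z ∈ a.support, ((a z : ℤ) : ℚ) • CRa_f W z := by
  apply Subtype.ext
  rw [hx, Submodule.coe_sum, Finsupp.sum]
  apply Finset.sum_congr rfl
  intro z hz
  rw [Submodule.coe_smul, CRa_f_coe z (ha z hz), Rat.smul_def]
  push_cast
  rfl

/-- Let `d = finrank (MZ W)`, `b` a basis of `MZ W` indexed by `Fin d` (`Module.finBasis`), `q > 0` a common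
denominator of all coordinates of the finitely many `zr z` (`adm z`, `|z| ≤ W`), `C ≥ 1` larger than
all the integers `|q * coordinate|`. For `x = ∑ a_z zr z` (`Rep`) the numbers
`q * coordinate_j (x)` are integers of absolute value at most `C * H`. Here `ph j` is the `j`-th
coordinate of `b`, multiplied by `q`; jointly injective on `MZ W`. -/
theorem coords (W : ℕ) : ∃ ph : Fin (finrank ℚ (MZ W)) → (MZ W →ₗ[ℚ] ℚ), ∃ C : ℝ, 1 ≤ C ∧
    (∀ x : MZ W, (∀ j, ph j x = 0) → x = 0) ∧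
    ∀ (H : ℝ) (x : MZ W), Rep W H (x : ℝ) → ∀ j, ∃ z : ℤ, ph j x = z ∧ |(z : ℝ)| ≤ C * H := by
  classical
  have := MZ_finite W
  let b := Module.finBasis ℚ (MZ W)
  let S : Finset (List Bool) := (CRa_fin W).toFinset
  let g : Fin (finrank ℚ (MZ W)) → List Bool → ℚ := fun j z => b.coord j (CRa_f W z)
  let q : ℕ := ∏ z ∈ S, ∏ j, (g j z).den
  have hq : q ≠ 0 := by
    apply Finset.prod_ne_zero_iff.2
    intro z _
    apply Finset.prod_ne_zero_iff.2
    intro j _
    exact (g j z).den_nz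
  have hint : ∀ z ∈ S, ∀ j, ∃ t : ℤ, (q : ℚ) * g j z = t := by
    intro z hz j
    have h1 : (g j z).den ∣ q :=
      (Finset.dvd_prod_of_mem (fun j => (g j z).den) (Finset.mem_univ j)).trans
        (Finset.dvd_prod_of_mem (fun z => ∏ j, (g j z).den) hz)
    obtain ⟨k, hk⟩ := h1
    refine ⟨k * (g j z).num, ?_⟩
    rw [hk]
    push_cast
    have h2 : ((g j z).den : ℚ) * g j z = (g j z).num := Rat.den_mul_eq_num (g j z)
    calc ((g j z).den : ℚ) * k * g j z = k * (((g j z).den : ℚ) * g j z) := by ring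
      _ = k * (g j z).num := by rw [h2]
  let C : ℝ := 1 + ∑ z ∈ S, ∑ j, |(((q : ℚ) * g j z : ℚ) : ℝ)|
  have hC0 : ∀ z ∈ S, ∀ j, |(((q : ℚ) * g j z : ℚ) : ℝ)| ≤ C := by
    intro z hz j
    have h1 : |(((q : ℚ) * g j z : ℚ) : ℝ)| ≤ ∑ j, |(((q : ℚ) * g j z : ℚ) : ℝ)| :=
      Finset.single_le_sum (f := fun j => |(((q : ℚ) * g j z : ℚ) : ℝ)|)
        (fun _ _ => abs_nonneg _) (Finset.mem_univ j)
    have h2 : ∑ j, |(((q : ℚ) * g j z : ℚ) : ℝ)| ≤
        ∑ z ∈ S, ∑ j, |(((q : ℚ) * g j z : ℚ) : ℝ)| :=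
      Finset.single_le_sum (f := fun z => ∑ j, |(((q : ℚ) * g j z : ℚ) : ℝ)|)
        (fun _ _ => Finset.sum_nonneg fun _ _ => abs_nonneg _) hz
    show _ ≤ 1 + ∑ z ∈ S, ∑ j, |(((q : ℚ) * g j z : ℚ) : ℝ)|
    linarith
  have hC1 : 1 ≤ C := by
    have : 0 ≤ ∑ z ∈ S, ∑ j, |(((q : ℚ) * g j z : ℚ) : ℝ)| :=
      Finset.sum_nonneg fun _ _ => Finset.sum_nonneg fun _ _ => abs_nonneg _
    show 1 ≤ 1 + ∑ z ∈ S, ∑ j, |(((q : ℚ) * g j z : ℚ) : ℝ)|
    linarith
  refine ⟨fun j => (q : ℚ) • b.coord j, C, hC1, ?_, ?_⟩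
  · intro x hx
    apply b.ext_elem
    intro j
    have h1 := hx j
    rw [LinearMap.smul_apply, smul_eq_mul, mul_eq_zero] at h1
    rcases h1 with h1 | h1
    · exact absurd (by exact_mod_cast h1) hq
    · rw [Basis.coord_apply] at h1
      rw [h1]
      simp
  · rintro H x ⟨a, ha, hB, hx⟩ j
    have hxe := CRa_eq a ha x hx
    have hS : ∀ z ∈ a.support, z ∈ S := by
      intro z hz
      exact (Set.Finite.mem_toFinset _).2 (ha z hz).2
    have hval : ((q : ℚ) • b.coord j) x = ∑ z ∈ a.support, ((a z : ℤ) : ℚ) * ((q : ℚ) * g j z) := by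
      conv_lhs => rw [hxe]
      rw [map_sum]
      apply Finset.sum_congr rfl
      intro z _
      rw [map_smul, LinearMap.smul_apply, smul_eq_mul, smul_eq_mul]
    choose! t ht using hint
    refine ⟨∑ z ∈ a.support, a z * t z j, ?_, ?_⟩
    · show ((q : ℚ) • b.coord j) x = _
      rw [hval]
      push_cast
      apply Finset.sum_congr rfl
      intro z hz
      rw [ht z (hS z hz) j]
    · push_cast
      calc |∑ z ∈ a.support, ((a z : ℤ) : ℝ) * (t z j : ℝ)|
          ≤ ∑ z ∈ a.support, |((a z : ℤ) : ℝ) * (t z j : ℝ)| := Finset.abs_sum_le_sum_abs _ _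
        _ ≤ ∑ z ∈ a.support, C * |((a z : ℤ) : ℝ)| := by
            apply Finset.sum_le_sum
            intro z hz
            rw [abs_mul, mul_comm]
            apply mul_le_mul_of_nonneg_right _ (abs_nonneg _)
            have h3 := hC0 z (hS z hz) j
            rw [ht z (hS z hz) j] at h3
            exact_mod_cast h3
        _ = C * ∑ z ∈ a.support, |((a z : ℤ) : ℝ)| := by rw [Finset.mul_sum]
        _ ≤ C * H := by
            apply mul_le_mul_of_nonneg_left _ (by linarith)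
            exact hB

/-- members of `MZ W` -/
theorem Rep.mem {W : ℕ} {B x : ℝ} (h : Rep W B x) : x ∈ MZ W := by
  obtain ⟨a, ha, _, hx⟩ := h
  rw [hx, Finsupp.sum]
  apply Submodule.sum_mem
  intro z hz
  have h1 := (MZ W).smul_mem ((a z : ℤ) : ℚ) (CRa_mem z (ha z hz))
  rw [Rat.smul_def] at h1
  simpa using h1

end MZG
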