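import Pool.Agent.Lib.MP_e54452_nt.DG.CRa
import Pool.Agent.Lib.MP_e54452_nt.DG.CRb

/-!
# Row CRc: the criterion
-/

set_option autoImplicit false

namespace MZG

open Finset Module
open scoped ENNReal Nat Polynomial

/-- `coords`, `cramer_bound` for `V = MZ W`, `e = 1` (`Rep W 1 1`, `Rep.int`), `G` = the set of the
`zr z`, `S` = the given set (inside `MZ W` by `Rep.mem`), `A = C0 * H`. Then
`1 = |∑ c_i y_i| ≤ d * d! (C0 H)^d ε`. Take `C = max C0 (d * d!)`. -/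
theorem criterion (W : ℕ) : ∃ C : ℝ, 1 ≤ C ∧ ∀ (S : Set ℝ) (H ε : ℝ), 1 ≤ H → 0 ≤ ε →
    (∀ y ∈ S, Rep W H y) → (∀ y ∈ S, |y| ≤ ε) → (1 : ℝ) ∈ Submodule.span ℚ S →
    1 ≤ (C * H) ^ (finrank ℚ (MZ W)) * (C * ε) := by
  classical
  have hfd := MZ_finite W
  obtain ⟨ph, C0, hC0, hinj, hint⟩ := coords W
  refine ⟨max C0 (((finrank ℚ (MZ W) : ℕ) : ℝ) * (((finrank ℚ (MZ W))! : ℕ) : ℝ)), le_max_of_le_left hC0, ?_⟩
  intro S H ε hH hε hrep hsmall hone
  have hRep1 : Rep W H 1 := by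
    have h := Rep.int W 1
    simp only [Int.cast_one, abs_one] at h
    exact h.mono le_rfl hH
  have hmem1 : (1 : ℝ) ∈ MZ W := hRep1.mem
  obtain ⟨e, he⟩ : ∃ e : MZ W, (e : ℝ) = 1 := ⟨⟨1, hmem1⟩, rfl⟩
  obtain ⟨S', hS'⟩ : ∃ S' : Set (MZ W), S' = {y : MZ W | (y : ℝ) ∈ S} := ⟨_, rfl⟩
  obtain ⟨G, hG⟩ : ∃ G : Set (MZ W), G = {y : MZ W | ∃ z : List Bool, adm z = true ∧ z.length ≤ W ∧
      (y : ℝ) = zr z} := ⟨_, rfl⟩
  have hspanG : Submodule.span ℚ G = ⊤ := by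
    apply Submodule.map_injective_of_injective (MZ W).injective_subtype
    rw [Submodule.map_span, Submodule.map_top, Submodule.range_subtype]
    unfold MZ
    congr 1
    ext x
    constructor
    · rintro ⟨y, hy, rfl⟩
      rw [hG] at hy
      exact hy
    · rintro ⟨z, hz, hz', rfl⟩
      refine ⟨⟨zr z, Submodule.subset_span ⟨z, hz, hz', rfl⟩⟩, ?_, rfl⟩
      rw [hG]
      exact ⟨z, hz, hz', rfl⟩
  have hspanS : e ∈ Submodule.span ℚ S' := by
    have h1 : Submodule.map (MZ W).subtype (Submodule.span ℚ S') = Submodule.span ℚ S := by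
      rw [Submodule.map_span]
      congr 1
      ext x
      constructor
      · rintro ⟨y, hy, rfl⟩
        rw [hS'] at hy
        exact hy
      · intro hx
        refine ⟨⟨x, (hrep x hx).mem⟩, ?_, rfl⟩
        rw [hS']
        exact hx
    rw [← h1] at hone
    obtain ⟨y, hy, hy1⟩ := hone
    have h2 : y = e := by
      apply Subtype.ext
      rw [he]
      exact hy1
    rw [← h2]
    exact hy
  obtain ⟨y, c, hc, hsum, hcb⟩ := cramer_bound ph hinj S' G e (C0 * H) hspanG hspanS (by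
    intro x hx j
    apply hint H x
    rcases hx with hx | hx | hx
    · rw [hx, he]
      exact hRep1
    · rw [hS'] at hx
      exact hrep _ hx
    · rw [hG] at hx
      obtain ⟨z, hz, hz', hz''⟩ := hx
      rw [hz'']
      exact (Rep.zr z hz hz').mono le_rfl hH)
  have hA : 0 ≤ (((finrank ℚ (MZ W))! : ℕ) : ℝ) * (C0 * H) ^ (finrank ℚ (MZ W)) := by positivity
  have h1 : (1 : ℝ) = ∑ i, (c i : ℝ) * (y i : ℝ) := by
    rw [← he, hsum]
    simp only [AddSubmonoidClass.coe_finsetSum, Submodule.coe_smul]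
    refine Finset.sum_congr rfl fun i _ => ?_
    rw [Rat.smul_def]
  have h2 : (1 : ℝ) ≤ ∑ _i : Fin (finrank ℚ (MZ W)), (((finrank ℚ (MZ W))! : ℕ) : ℝ) * (C0 * H) ^ (finrank ℚ (MZ W)) * ε := by
    rw [h1]
    refine Finset.sum_le_sum fun i _ => ?_
    rcases hc i with h0 | hyS
    · rw [h0]
      simp only [Rat.cast_zero, zero_mul]
      exact mul_nonneg hA hε
    · rw [hS'] at hyS
      calc (c i : ℝ) * (y i : ℝ) ≤ |(c i : ℝ) * (y i : ℝ)| := le_abs_self _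
        _ = |(c i : ℝ)| * |(y i : ℝ)| := abs_mul _ _
        _ ≤ (((finrank ℚ (MZ W))! : ℕ) : ℝ) * (C0 * H) ^ (finrank ℚ (MZ W)) * ε :=
          mul_le_mul (hcb i) (hsmall _ hyS) (abs_nonneg _) hA
  rw [Finset.sum_const, Finset.card_univ, Fintype.card_fin, nsmul_eq_mul] at h2
  refine h2.trans ?_
  have hC0' : 0 ≤ C0 := by linarith
  have hH' : 0 ≤ H := by linarith
  calc ((finrank ℚ (MZ W) : ℕ) : ℝ) * ((((finrank ℚ (MZ W))! : ℕ) : ℝ) * (C0 * H) ^ (finrank ℚ (MZ W)) * ε) = (C0 * H) ^ (finrank ℚ (MZ W)) * ((((finrank ℚ (MZ W) : ℕ) : ℝ) * (((finrank ℚ (MZ W))! : ℕ) : ℝ)) * ε) := by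
        ring
    _ ≤ (max C0 (((finrank ℚ (MZ W) : ℕ) : ℝ) * (((finrank ℚ (MZ W))! : ℕ) : ℝ)) * H) ^ (finrank ℚ (MZ W)) * (max C0 (((finrank ℚ (MZ W) : ℕ) : ℝ) * (((finrank ℚ (MZ W))! : ℕ) : ℝ)) * ε) := by
        gcongr
        · exact le_max_left _ _
        · exact le_max_right _ _

end MZG
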