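import Pool.Agent.Lib.MP_e54452_nt.DG.Defs
import Pool.Agent.Lib.MP_e54452_nt.Mzv

/-!
# Further definitions
-/

set_option autoImplicit false

namespace MZG

open Finset MeasureTheory
open scoped ENNReal Nat Polynomial

/-- `∫ x^(k+1) L_u'(x) L_v(1-x)` -/
noncomputable def At (k : ℕ) (u v : List Bool) : ℝ≥0∞ :=
  match u with
  | [] => 0
  | false :: u' => Se k u' v
  | true :: u' => Ne (k + 1) u' v

/-- `∫ x^(k+1) L_u(x) L_v'(1-x)` -/
noncomputable def Bt (k : ℕ) (u v : List Bool) : ℝ≥0∞ :=
  match v with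
  | [] => 0
  | true :: v' => Se k u v'
  | false :: v' => Ne (k + 1) u v'

/-- exponents of a word: `0^(a-1) 1` is read as the exponent `a`; `n` zeros have been read already -/
def comp : ℕ → List Bool → List ℕ
  | _, [] => []
  | n, false :: w => comp (n + 1) w
  | n, true :: w => (n + 1) :: comp 0 w

/-- span of all multiple zeta values of weight at most `W` -/
noncomputable def ZZ (W : ℕ) : Submodule ℚ ℝ :=
  Submodule.span ℚ {x : ℝ | ∃ s : List ℕ, MPe54452.Adm s ∧ s.sum ≤ W ∧ x = MPe54452.mzv s}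

end MZG
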