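import Pool.Agent.Lib.MP_e54452_nt.DG.E1a

/-!
# Row E1b
-/

set_option autoImplicit false

namespace MZG

open Finset PowerSeries
open scoped ENNReal Nat Polynomial

/-- `bt i n ≤ 1 / (i + 1)`: the quotient `bt i n / bt i 0` is `n! (i+1)! / (i+n+1)! ≤ 1`
(`Nat.factorial_mul_factorial_dvd_factorial_add` or induction on `n` by `bt_pascal`, which gives
`bt i (n+1) ≤ bt i n`). -/
lemma bt_le (i n : ℕ) : bt i n ≤ ((i : ℝ≥0∞) + 1)⁻¹ := by
  induction n with
  | zero => exact (bt_zero i).le
  | succ n ih =>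
    refine le_trans ?_ ih
    rw [bt_pascal i n]
    exact le_add_self

lemma E1b_sum (i n T : ℕ) : bt i n = (∑ t ∈ range T, bt (i + t) (n + 1)) + bt (i + T) n := by
  induction T with
  | zero => simp
  | succ T ih =>
    rw [Finset.sum_range_succ, add_assoc, ← Nat.add_assoc i T 1,
      add_comm (bt (i + T) (n + 1)), ← bt_pascal (i + T) n]
    exact ih

/-- Telescoping. By `bt_pascal` and induction on `T`,
`bt i n = ∑ t ∈ range T, bt (i + t) (n + 1) + bt (i + T) n`. Let `T → ∞`: the sums tend to the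
`tsum` (`ENNReal.summable.hasSum.tendsto_sum_nat`), `bt (i + T) n → 0` by `bt_le` (squeeze), and
limits are unique (`tendsto_nhds_unique` with the constant sequence). -/
lemma bt_tele (i n : ℕ) : ∑' t, bt (i + t) (n + 1) = bt i n := by
  have h1 : Filter.Tendsto (fun T => ∑ t ∈ range T, bt (i + t) (n + 1)) Filter.atTop
      (nhds (∑' t, bt (i + t) (n + 1))) := ENNReal.summable.hasSum.tendsto_sum_nat
  have h2 : Filter.Tendsto (fun T => bt (i + T) n) Filter.atTop (nhds 0) := by
    have h3 : Filter.Tendsto (fun T : ℕ => (((T : ℝ≥0∞)))⁻¹) Filter.atTop (nhds 0) :=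
      ENNReal.tendsto_inv_nat_nhds_zero
    refine tendsto_of_tendsto_of_tendsto_of_le_of_le tendsto_const_nhds h3
      (fun T => zero_le) (fun T => ?_)
    refine (bt_le (i + T) n).trans ?_
    refine ENNReal.inv_le_inv.2 ?_
    push_cast
    calc (T : ℝ≥0∞) ≤ (i : ℝ≥0∞) + T := le_add_self
      _ ≤ (i : ℝ≥0∞) + T + 1 := le_self_add
  have h4 := h1.add h2
  rw [add_zero] at h4
  have h5 : (fun T => (∑ t ∈ range T, bt (i + t) (n + 1)) + bt (i + T) n) =
      fun _ => bt i n := by
    funext T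
    exact (E1b_sum i n T).symm
  rw [h5] at h4
  exact (tendsto_nhds_unique h4 tendsto_const_nhds)

/-- from `bt_tele` and `bt_symm` -/
lemma bt_tele' (i j : ℕ) : ∑' t, bt (i + 1) (j + t) = bt i j := by
  rw [bt_symm i j, ← bt_tele j i]
  exact tsum_congr fun t => bt_symm _ _

end MZG
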