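import Pool.Agent.Lib.MP_e54452_nt.DG.Defs2

/-!
# Row E2a
-/

set_option autoImplicit false

namespace MZG

open Finset PowerSeries
open scoped ENNReal Nat Polynomial

/-- The left side is `∑' m, ∑' i, if i < m then f i * g m else 0`
(`tsum_eq_sum` over `range m`, `Finset.sum_mul`); exchange (`ENNReal.tsum_comm`); for fixed `i`:
`∑' m, (if i < m then f i * g m else 0) = f i * ∑' t, g (i + 1 + t)` (`ENNReal.tsum_mul_left`, and
the sum over `m` restricted to `m > i`, e.g. split off the first `i + 1` terms
`ENNReal.sum_add_tsum_compl`-like: `(∑ m ∈ range (i+1), h m) + ∑' t, h (t + (i+1)) = ∑' m, h m`,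
`ENNReal.summable.sum_add_tsum_nat_add`). -/
lemma tsum_swap (f g : ℕ → ℝ≥0∞) :
    ∑' m, (∑ i ∈ range m, f i) * g m = ∑' i, f i * ∑' t, g (i + 1 + t) := by
  have h1 : ∀ m, (∑ i ∈ range m, f i) * g m = ∑' i, if i < m then f i * g m else 0 := by
    intro m
    rw [Finset.sum_mul, tsum_eq_sum (s := range m)]
    · refine Finset.sum_congr rfl fun i hi => ?_
      rw [if_pos (Finset.mem_range.1 hi)]
    · intro i hi
      rw [if_neg (fun h => hi (Finset.mem_range.2 h))]
  rw [tsum_congr h1, ENNReal.tsum_comm]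
  refine tsum_congr fun i => ?_
  have h2 := ENNReal.summable.sum_add_tsum_nat_add' (f := fun m => if i < m then f i * g m else 0)
    (k := i + 1)
  rw [← h2, Finset.sum_eq_zero, zero_add, ← ENNReal.tsum_mul_left]
  · refine tsum_congr fun t => ?_
    have h3 : i < t + (i + 1) := by omega
    rw [if_pos h3, add_comm t (i + 1)]
  · intro m hm
    have := Finset.mem_range.1 hm
    rw [if_neg (by omega)]

end MZG
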