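import Pool.Agent.Lib.MP_e54452_nt.DG.C1a

/-!
# Row E2b
-/

set_option autoImplicit false

namespace MZG

open Finset PowerSeries
open scoped ENNReal Nat Polynomial

lemma ce_ne_top (w : List Bool) (k : ℕ) : ce w k ≠ ∞ := by
  unfold ce
  exact ENNReal.ofReal_ne_top

/-- `c_zero` -/
lemma ce_zero (w : List Bool) (h : w ≠ []) : ce w 0 = 0 := by
  unfold ce
  rw [c_zero w h]
  simp

lemma ce_nil (k : ℕ) : ce [] k = if k = 0 then 1 else 0 := by
  unfold ce
  by_cases hk : k = 0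
  · simp [c, hk]
  · simp [c, hk]

lemma E2b_real_nonneg (w : List Bool) (k : ℕ) : (0 : ℝ) ≤ ((c w k : ℚ) : ℝ) := by
  exact_mod_cast c_nonneg w k

/-- `k = 0`: both sides are `0` (`ce_zero`, `w ≠ []`). `k ≥ 1`: `k * (c w k / k) = c w k`. -/
lemma ce_false (w : List Bool) (hw : w ≠ []) (k : ℕ) :
    (k : ℝ≥0∞) * ce (false :: w) k = ce w k := by
  by_cases hk : k = 0
  · subst hk
    rw [ce_zero w hw]
    simp
  · unfold ce
    rw [← ENNReal.ofReal_natCast k, ← ENNReal.ofReal_mul (Nat.cast_nonneg k)]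
    congr 1
    have hk' : (k : ℝ) ≠ 0 := by exact_mod_cast hk
    simp only [c]
    push_cast
    field_simp

/-- `k = 0`: both sides `0`. `k ≥ 1`: `k * ((∑ i < k, c w i) / k)`, `ENNReal.ofReal_sum_of_nonneg`
with `c_nonneg`. -/
lemma ce_true (w : List Bool) (k : ℕ) :
    (k : ℝ≥0∞) * ce (true :: w) k = ∑ i ∈ range k, ce w i := by
  by_cases hk : k = 0
  · subst hk
    simp
  · unfold ce
    rw [← ENNReal.ofReal_natCast k, ← ENNReal.ofReal_mul (Nat.cast_nonneg k),
      ← ENNReal.ofReal_sum_of_nonneg (fun i _ => E2b_real_nonneg w i)]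
    congr 1
    have hk' : (k : ℝ) ≠ 0 := by exact_mod_cast hk
    simp only [c]
    push_cast
    field_simp

end MZG
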