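import Pool.Agent.Lib.MP_e54452_nt.DG.C1b
import Pool.Agent.Lib.MP_e54452_nt.DG.E1b
import Pool.Agent.Lib.MP_e54452_nt.DG.E2a
import Pool.Agent.Lib.MP_e54452_nt.DG.E2b

/-!
# Row E7b
-/

set_option autoImplicit false

namespace MZG

open Finset PowerSeries
open scoped ENNReal Nat Polynomial

/-- `Bt k u v = ∑' m, ∑' n, ce u m * (((n:ℝ≥0∞) + 1) * ce v (n + 1)) * bt (m + k + 1) n` for `v ≠ []`.
`v = true :: v'`: `ce_true` turns the inner sum into
`∑' n, ce u m * (∑ j < n + 1, ce v' j) * bt (m+k+1) n`; with `g n = bt (m+k+1) (n-1)` this is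
`ce u m * ∑' n, (∑ j < n, ce v' j) * g n` (shift: the term `n = 0` is an empty sum), `tsum_swap`:
`∑' j, ce v' j * ∑' t, bt (m+k+1) (j+t) = ∑' j, ce v' j * bt (m+k) j` (`bt_tele'`): this is
`Se k u v'`. `v = false :: v'` (`v' ≠ []`): `ce_false`, this is `Ne (k+1) u v'`. -/
lemma Bt_eq (k : ℕ) (u v : List Bool) (hv : good v = true) (hv0 : v ≠ []) :
    Bt k u v = ∑' m : ℕ, ∑' n : ℕ, ce u m * (((n : ℝ≥0∞) + 1) * ce v (n + 1)) * bt (m + k + 1) n := by
  match v, hv, hv0 with
  | [], _, h0 => exact absurd rfl h0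
  | true :: v', hv, _ =>
    show Se k u v' = _
    unfold Se
    refine tsum_congr fun m => ?_
    have e1 : ∀ n : ℕ, ce u m * (((n : ℝ≥0∞) + 1) * ce (true :: v') (n + 1)) * bt (m + k + 1) n =
        ce u m * ((∑ i ∈ range (n + 1), ce v' i) * bt (m + k + 1) n) := by
      intro n
      have h1 := ce_true v' (n + 1)
      rw [Nat.cast_add, Nat.cast_one] at h1
      rw [h1, mul_assoc]
    simp only [e1]
    rw [ENNReal.tsum_mul_left]
    have e2 : ∀ n : ℕ, ce u m * ce v' n * bt (m + k) n = ce u m * (ce v' n * bt (m + k) n) :=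
      fun n => mul_assoc _ _ _
    simp only [e2]
    rw [ENNReal.tsum_mul_left]
    congr 1
    have e3 := tsum_swap (ce v') (fun n => bt (m + k + 1) (n - 1))
    have e0 : ∑' n : ℕ, (∑ i ∈ range n, ce v' i) * bt (m + k + 1) (n - 1) =
        (∑ i ∈ range 0, ce v' i) * bt (m + k + 1) (0 - 1) +
          ∑' n : ℕ, (∑ i ∈ range (n + 1), ce v' i) * bt (m + k + 1) (n + 1 - 1) :=
      tsum_eq_zero_add' (f := fun n : ℕ => (∑ i ∈ range n, ce v' i) *
        bt (m + k + 1) (n - 1)) ENNReal.summable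
    rw [e0] at e3
    simp only [range_zero, sum_empty, zero_mul, zero_add, Nat.add_sub_cancel] at e3
    rw [e3]
    have e4 : ∀ i t : ℕ, i + 1 + t - 1 = i + t := by intro i t; omega
    have e5 : ∀ i : ℕ, ∑' t : ℕ, bt (m + k + 1) (i + 1 + t - 1) = bt (m + k) i := by
      intro i
      simp only [e4]
      exact bt_tele' (m + k) i
    simp only [e5]
  | false :: v', hv, _ =>
    have hv' : v' ≠ [] := good_false_ne v' hv
    show Ne (k + 1) u v' = _
    unfold Ne
    refine tsum_congr fun m => tsum_congr fun n => ?_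
    have h1 := ce_false v' hv' (n + 1)
    rw [Nat.cast_add, Nat.cast_one] at h1
    rw [h1]
    rfl

end MZG
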