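import Pool.Agent.Lib.MP_e54452_nt.DG.E7a
import Pool.Agent.Lib.MP_e54452_nt.DG.E7b

/-!
# Row E7c
-/

set_option autoImplicit false

namespace MZG

open Finset PowerSeries
open scoped ENNReal Nat Polynomial

lemma E7c_shift (v : List Bool) (hv0 : v ≠ []) (x : ℝ≥0∞) (B : ℕ → ℝ≥0∞) :
    ∑' n : ℕ, x * ce v n * B n = ∑' n : ℕ, x * ce v (n + 1) * B (n + 1) := by
  have h0 := (ENNReal.summable.sum_add_tsum_nat_add' (f := fun n : ℕ => x * ce v n * B n)
    (k := 1)).symm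
  rw [h0, Finset.sum_range_one, ce_zero v hv0]
  simp

/-- By `At_eq`, `Bt_eq`. Left side is `∑' m, ∑' n, ce u m * ce v n * ((m + k + 1) * bt (m + k) n)`
(`ENNReal.tsum_mul_left`, `ENNReal.tsum_add`); drop the term `n = 0` (`ce_zero`,
`tsum_eq_zero_add'`/`ENNReal.tsum_eq_zero_add`-like shift), and use `bt_step` with `i = m + k`. -/
lemma Se_rec (k : ℕ) (u v : List Bool) (hu : good u = true) (hv : good v = true) (hv0 : v ≠ []) :
    ((k : ℝ≥0∞) + 1) * Se k u v + At k u v = Bt k u v := by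
  rw [At_eq k u v hu hv0, Bt_eq k u v hv hv0]
  unfold Se
  rw [← ENNReal.tsum_mul_left, ← ENNReal.tsum_add]
  refine tsum_congr fun m => ?_
  rw [← ENNReal.tsum_mul_left, ← ENNReal.tsum_add]
  have h1 : ∀ n : ℕ, ((k : ℝ≥0∞) + 1) * (ce u m * ce v n * bt (m + k) n) +
      ((m : ℝ≥0∞) * ce u m) * ce v n * bt (m + k) n =
      ce u m * ce v n * ((((m + k : ℕ) : ℝ≥0∞) + 1) * bt (m + k) n) := by
    intro n
    push_cast
    ring
  rw [tsum_congr h1, E7c_shift v hv0 (ce u m)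
    (fun n => (((m + k : ℕ) : ℝ≥0∞) + 1) * bt (m + k) n)]
  refine tsum_congr fun n => ?_
  show ce u m * ce v (n + 1) * ((((m + k : ℕ) : ℝ≥0∞) + 1) * bt (m + k) (n + 1)) = _
  rw [bt_step]
  ring

/-- `bt_pascal` with `i = m + k`, `j = n`, and the shift of `Se` (its term `n = 0` vanishes). -/
lemma Ne_rec (k : ℕ) (u v : List Bool) (hv0 : v ≠ []) : Ne k u v = Ne (k + 1) u v + Se k u v := by
  unfold Ne Se
  rw [← ENNReal.tsum_add]
  refine tsum_congr fun m => ?_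
  rw [E7c_shift v hv0 (ce u m) (fun n => bt (m + k) n), ← ENNReal.tsum_add]
  refine tsum_congr fun n => ?_
  show _ = ce u m * ce v (n + 1) * bt (m + (k + 1)) n + ce u m * ce v (n + 1) * bt (m + k) (n + 1)
  rw [← mul_add, bt_pascal (m + k) n]
  rfl

end MZG
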