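import Pool.Agent.Lib.MP_e54452_nt.DG.Defs2

/-!
# Row E8b
-/

set_option autoImplicit false

namespace MZG

open Finset PowerSeries
open scoped ENNReal Nat Polynomial

lemma E8b_step (k : ℕ) {a : ℝ} (ha : 0 < a) :
    ∑ j ∈ range (k + 1), (a + j)⁻¹ =
      ((k : ℝ) + 1) * (a⁻¹ * (a + k + 1)⁻¹) + ∑ j ∈ range (k + 1), (a + 1 + j)⁻¹ := by
  have h1 : ∑ j ∈ range (k + 1 + 1), (a + (j : ℝ))⁻¹ =
      ∑ j ∈ range (k + 1), (a + (j : ℝ))⁻¹ + (a + ((k + 1 : ℕ) : ℝ))⁻¹ :=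
    Finset.sum_range_succ _ _
  have h2 : ∑ j ∈ range (k + 1 + 1), (a + (j : ℝ))⁻¹ =
      ∑ j ∈ range (k + 1), (a + ((j + 1 : ℕ) : ℝ))⁻¹ + (a + ((0 : ℕ) : ℝ))⁻¹ :=
    Finset.sum_range_succ' _ _
  have h3 : ∑ j ∈ range (k + 1), (a + ((j + 1 : ℕ) : ℝ))⁻¹ =
      ∑ j ∈ range (k + 1), (a + 1 + (j : ℝ))⁻¹ := by
    refine Finset.sum_congr rfl fun j _ => ?_
    push_cast
    rw [add_assoc, add_comm (1 : ℝ)]
  have h4 : ((k : ℝ) + 1) * (a⁻¹ * (a + k + 1)⁻¹) = a⁻¹ - (a + k + 1)⁻¹ := by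
    have hk : (0 : ℝ) < a + k + 1 := by positivity
    field_simp
    ring
  rw [h3] at h2
  rw [h4]
  push_cast at h1 h2
  rw [add_zero] at h2
  rw [← add_assoc] at h1
  linarith

lemma E8b_part (k i T : ℕ) :
    ∑ t ∈ range T, ((k : ℝ) + 1) * (((i + 1 + t : ℕ) : ℝ)⁻¹ *
      (((i + 1 + t : ℕ) : ℝ) + k + 1)⁻¹) = ∑ j ∈ range (k + 1), ((i : ℝ) + j + 1)⁻¹ -
        ∑ j ∈ range (k + 1), (((i + 1 + T : ℕ) : ℝ) + j)⁻¹ := by
  induction T with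
  | zero =>
    rw [Finset.range_zero, Finset.sum_empty]
    symm
    rw [sub_eq_zero]
    refine Finset.sum_congr rfl fun j _ => ?_
    push_cast
    congr 1
    ring
  | succ T ih =>
    rw [Finset.sum_range_succ, ih]
    have h1 := E8b_step k (a := ((i + 1 + T : ℕ) : ℝ)) (by positivity)
    have h2 : ∑ j ∈ range (k + 1), (((i + 1 + (T + 1) : ℕ) : ℝ) + j)⁻¹ =
        ∑ j ∈ range (k + 1), (((i + 1 + T : ℕ) : ℝ) + 1 + j)⁻¹ := by
      refine Finset.sum_congr rfl fun j _ => ?_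
      push_cast
      congr 1
      ring
    rw [h2]
    linarith

lemma E8b_hasSum (k i : ℕ) :
    HasSum (fun t : ℕ => ((k : ℝ) + 1) * (((i + 1 + t : ℕ) : ℝ)⁻¹ *
      (((i + 1 + t : ℕ) : ℝ) + k + 1)⁻¹)) (∑ j ∈ range (k + 1), ((i : ℝ) + j + 1)⁻¹) := by
  rw [hasSum_iff_tendsto_nat_of_nonneg (fun t => by positivity)]
  have h1 : Filter.Tendsto (fun T : ℕ => ∑ j ∈ range (k + 1), (((i + 1 + T : ℕ) : ℝ) + j)⁻¹)
      Filter.atTop (nhds 0) := by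
    have h2 : Filter.Tendsto (fun T : ℕ => ∑ j ∈ range (k + 1), (((i + 1 + T : ℕ) : ℝ) + j)⁻¹)
        Filter.atTop (nhds (∑ j ∈ range (k + 1), (0 : ℝ))) := by
      refine tendsto_finsetSum _ fun j _ => ?_
      refine Filter.Tendsto.comp tendsto_inv_atTop_zero ?_
      refine Filter.tendsto_atTop_mono (f := fun T : ℕ => (T : ℝ)) (fun T => ?_)
        tendsto_natCast_atTop_atTop
      push_cast
      have : (0 : ℝ) ≤ (i : ℝ) := by positivity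
      have : (0 : ℝ) ≤ (j : ℝ) := by positivity
      linarith
    rwa [Finset.sum_const_zero] at h2
  have h3 : Filter.Tendsto (fun T : ℕ => ∑ j ∈ range (k + 1), ((i : ℝ) + j + 1)⁻¹ -
      ∑ j ∈ range (k + 1), (((i + 1 + T : ℕ) : ℝ) + j)⁻¹) Filter.atTop
      (nhds (∑ j ∈ range (k + 1), ((i : ℝ) + j + 1)⁻¹ - 0)) := tendsto_const_nhds.sub h1
  rw [sub_zero] at h3
  refine h3.congr fun T => ?_
  rw [E8b_part]

/-- `∑' t, (k+1) / ((i+1+t) (i+1+t+k+1)) = ∑ j < k+1, 1 / (i+j+1)`: the partial sums satisfy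
`(∑ t ∈ range T, (k+1)/((i+1+t)(i+1+t+k+1))) + ∑ j ∈ range (k+1), 1/(i+1+T+j) =
∑ j ∈ range (k+1), 1/(i+1+j)` by induction on `T` (the step is
`∑ j < k+1, 1/(a+j) = 1/a - 1/(a+k+1) + ∑ j < k+1, 1/(a+1+j)`, telescoping
`Finset.sum_range_succ`, `Finset.sum_range_succ'`, and `1/a - 1/(a+k+1) = (k+1)/(a(a+k+1))`); let
`T → ∞`. Do it in `ℝ` (`HasSum`) and transport by `ENNReal.ofReal_tsum_of_nonneg`, or directly in
`ℝ≥0∞`. -/
lemma tele_aux (k i : ℕ) :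
    ∑' t : ℕ, ((k : ℝ≥0∞) + 1) * ((((i + 1 + t : ℕ) : ℝ≥0∞))⁻¹ *
      (((i + 1 + t : ℕ) : ℝ≥0∞) + k + 1)⁻¹) = ∑ j ∈ range (k + 1), ((i : ℝ≥0∞) + j + 1)⁻¹ := by
  have h := E8b_hasSum k i
  have h1 := ENNReal.ofReal_tsum_of_nonneg (fun t : ℕ => by positivity) h.summable
  rw [h.tsum_eq] at h1
  have h2 : ENNReal.ofReal (∑ j ∈ range (k + 1), ((i : ℝ) + j + 1)⁻¹) =
      ∑ j ∈ range (k + 1), ((i : ℝ≥0∞) + j + 1)⁻¹ := by
    rw [ENNReal.ofReal_sum_of_nonneg (fun j _ => by positivity)]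
    refine Finset.sum_congr rfl fun j _ => ?_
    rw [ENNReal.ofReal_inv_of_pos (by positivity)]
    congr 1
    have h3 : (i : ℝ) + j + 1 = ((i + j + 1 : ℕ) : ℝ) := by push_cast; ring
    rw [h3, ENNReal.ofReal_natCast]
    push_cast
    ring
  rw [← h2, h1]
  refine tsum_congr fun t => ?_
  rw [ENNReal.ofReal_mul (by positivity), ENNReal.ofReal_mul (by positivity),
    ENNReal.ofReal_inv_of_pos (by positivity), ENNReal.ofReal_inv_of_pos (by positivity)]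
  have h3 : (k : ℝ) + 1 = ((k + 1 : ℕ) : ℝ) := by push_cast; ring
  have h4 : ((i + 1 + t : ℕ) : ℝ) + k + 1 = ((i + 1 + t + k + 1 : ℕ) : ℝ) := by push_cast; ring
  rw [h3, h4, ENNReal.ofReal_natCast, ENNReal.ofReal_natCast, ENNReal.ofReal_natCast]
  push_cast
  rfl

end MZG
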