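import Pool.Agent.Lib.MP_e54452_nt.DG.E8a
import Pool.Agent.Lib.MP_e54452_nt.DG.E8b
import Pool.Agent.Lib.MP_e54452_nt.DG.E2a

/-!
# Row E8c
-/

set_option autoImplicit false

namespace MZG

open Finset PowerSeries
open scoped ENNReal Nat Polynomial

lemma E8c_ce (u : List Bool) (m : ℕ) :
    ce (true :: u) m = (∑ i ∈ range m, ce u i) * (m : ℝ≥0∞)⁻¹ := by
  rcases Nat.eq_zero_or_pos m with rfl | hm
  · rw [ce_zero _ (by simp)]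
    simp
  · have h1 := ce_true u m
    have h2 : (m : ℝ≥0∞) ≠ 0 := by exact_mod_cast hm.ne'
    have h3 : (m : ℝ≥0∞) ≠ ∞ := ENNReal.natCast_ne_top m
    rw [← h1, mul_comm (m : ℝ≥0∞), mul_assoc, ENNReal.mul_inv_cancel h2 h3, mul_one]

/-- By `Se_nil` the left side is `∑' m, (k+1) * ce (true :: u) m * (m+k+1)⁻¹`, with
`ce (true :: u) m = (∑ i < m, ce u i) * m⁻¹` for `m ≥ 1` (and the term `m = 0` vanishes, both
`ce (true :: u) 0 = 0` and the empty sum). `tsum_swap` and `tele_aux` give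
`∑' i, ce u i * ∑ j < k+1, (i+j+1)⁻¹`; exchange the finite sum (`tsum_finsetSum`/`ENNReal`). -/
lemma Se_true_nil (k : ℕ) (u : List Bool) :
    ((k : ℝ≥0∞) + 1) * Se k (true :: u) [] = ∑ j ∈ range (k + 1), Se j u [] := by
  rw [Se_nil, ← ENNReal.tsum_mul_left]
  have h1 : ∀ m : ℕ, ((k : ℝ≥0∞) + 1) * (ce (true :: u) m * ((m : ℝ≥0∞) + k + 1)⁻¹) =
      (∑ i ∈ range m, ce u i) * (((k : ℝ≥0∞) + 1) * ((m : ℝ≥0∞)⁻¹ * ((m : ℝ≥0∞) + k + 1)⁻¹)) := by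
    intro m
    rw [E8c_ce]
    ring
  rw [tsum_congr h1,
    tsum_swap (fun i => ce u i)
      (fun m : ℕ => ((k : ℝ≥0∞) + 1) * ((m : ℝ≥0∞)⁻¹ * ((m : ℝ≥0∞) + k + 1)⁻¹))]
  have h2 : ∀ i : ℕ, ce u i * ∑' t : ℕ, ((k : ℝ≥0∞) + 1) * ((((i + 1 + t : ℕ) : ℝ≥0∞))⁻¹ *
      (((i + 1 + t : ℕ) : ℝ≥0∞) + k + 1)⁻¹) =
      ∑ j ∈ range (k + 1), ce u i * ((i : ℝ≥0∞) + j + 1)⁻¹ := by
    intro i
    rw [tele_aux, Finset.mul_sum]
  rw [tsum_congr h2, Summable.tsum_finsetSum (fun _ _ => ENNReal.summable)]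
  refine Finset.sum_congr rfl fun j _ => ?_
  rw [Se_nil]

end MZG
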