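import Pool.Agent.Lib.MP_e54452_nt.DG.E5
import Pool.Agent.Lib.MP_e54452_nt.DG.E7c
import Pool.Agent.Lib.MP_e54452_nt.DG.E8c
import Pool.Agent.Lib.MP_e54452_nt.DG.E9b

/-!
# Row E10a
-/

set_option autoImplicit false

namespace MZG

open Finset PowerSeries
open scoped ENNReal Nat Polynomial

/-- if `(k+1) * S` is finite, so is `S` -/
lemma E10a_mul (k : ℕ) (S : ℝ≥0∞) (h : ((k : ℝ≥0∞) + 1) * S ≠ ∞) : S ≠ ∞ := by
  rintro rfl
  apply h
  apply ENNReal.mul_top
  have : (0 : ℝ≥0∞) < (k : ℝ≥0∞) + 1 := lt_of_lt_of_le one_pos (le_add_left le_rfl)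
  exact this.ne'

/-- the case of an empty second word -/
lemma E10a_nil (u : List Bool) (hu : good u = true) : ∀ k, Se k u [] ≠ ∞ := by
  induction u with
  | nil =>
    intro k
    rw [Se_nil_nil]
    refine ENNReal.inv_ne_top.2 ?_
    have : (0 : ℝ≥0∞) < (k : ℝ≥0∞) + 1 := lt_of_lt_of_le one_pos (le_add_left le_rfl)
    exact this.ne'
  | cons a u ih =>
    intro k
    cases a with
    | false =>
      have hne := good_false_ne u hu
      have h1 := Se_false_nil k u hne
      have h2 : ze (false :: u) ≠ ∞ := ze_ne_top _ (by simp [adm, hu])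
      refine E10a_mul k _ (ne_top_of_le_ne_top h2 ?_)
      rw [← h1]
      exact le_add_right le_rfl
    | true =>
      have h1 := Se_true_nil k u
      refine E10a_mul k _ ?_
      rw [h1]
      exact ENNReal.sum_ne_top.2 fun j _ => ih (good_tail true u hu) j

/-- `Ne k u v ≤ Ne 0 u v` is finite -/
lemma E10a_Ne (u v : List Bool) (hu : good u = true) (hv : good v = true) (hv0 : v ≠ [])
    (k : ℕ) : Ne k u v ≠ ∞ := by
  induction k with
  | zero =>
    rw [Ne_dual u v hv0 hv]
    exact ze_ne_top _ (dual_adm v (true :: u) hv0 hv (List.cons_ne_nil _ _) (good_true u hu))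
  | succ k ih =>
    refine ne_top_of_le_ne_top ih ?_
    rw [Ne_rec k u v hv0]
    exact le_add_right le_rfl

/-- Induction on `l = |u| + |v|`, for all good `u`, `v` and all `k`.
`u = v = []`: `Se_nil_nil`. `v = []`, `u = false :: u'` (`u' ≠ []`): `Se_false_nil`; the right side
is finite (`ze_ne_top`), `k + 1 ≠ 0`. `v = []`, `u = true :: u'`: `Se_true_nil`, finite sum of
finite terms. `v ≠ []`: `Se_rec`: `(k+1) * Se + At = Bt` and `Bt` is finite: for `v = true :: v'` it is
`Se k u v'`; for `v = false :: v'`, `v' ≠ []` it is `Ne (k+1) u v' ≤ Ne 0 u v'` (`Ne_rec`, induction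
on `k`), and `Ne 0 u v' = ze (dual v' (true :: u))` is finite (`Ne_dual`, `dual_adm`,
`ze_ne_top`). -/
theorem Se_ne_top (u v : List Bool) (hu : good u = true) (hv : good v = true) (k : ℕ) :
    Se k u v ≠ ∞ := by
  by_cases hv0 : v = []
  · subst hv0
    exact E10a_nil u hu k
  · refine ne_top_of_le_ne_top (E10a_Ne u v hu hv hv0 k) ?_
    rw [Ne_rec k u v hv0]
    exact le_add_left le_rfl

/-- `Ne k u v ≤ Ne 0 u v = ze (dual v (true :: u))` -/
theorem Ne_ne_top (u v : List Bool) (hu : good u = true) (hv : good v = true) (hv0 : v ≠ [])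
    (k : ℕ) : Ne k u v ≠ ∞ := E10a_Ne u v hu hv hv0 k

/-- `Ne 0 u v = Ne k u v + ∑ i < k, Se i u v`, with all terms finite -/
theorem Ne_toReal (u v : List Bool) (hu : good u = true) (hv : good v = true) (hv0 : v ≠ [])
    (k : ℕ) : (Ne k u v).toReal = zr (dual v (true :: u)) -
      ∑ i ∈ range k, (Se i u v).toReal := by
  induction k with
  | zero =>
    rw [Ne_dual u v hv0 hv, zr, Finset.range_zero, Finset.sum_empty, sub_zero]
  | succ k ih =>
    have h1 := Ne_rec k u v hv0
    have h2 := congrArg ENNReal.toReal h1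
    rw [ENNReal.toReal_add (Ne_ne_top u v hu hv hv0 _) (Se_ne_top u v hu hv k)] at h2
    rw [Finset.sum_range_succ]
    linarith

end MZG
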