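import Pool.Agent.Lib.MP_e54452_nt.DG.Defs2

/-!
# Row R1
-/

set_option autoImplicit false

namespace MZG

open Finset PowerSeries
open scoped ENNReal Nat Polynomial

lemma Rep.mono {W W' : ℕ} {B B' x : ℝ} (h : Rep W B x) (hW : W ≤ W') (hB : B ≤ B') :
    Rep W' B' x := by
  obtain ⟨a, h1, h2, h3⟩ := h
  exact ⟨a, fun z hz => ⟨(h1 z hz).1, (h1 z hz).2.trans hW⟩, h2.trans hB, h3⟩

lemma Rep.nonneg {W : ℕ} {B x : ℝ} (h : Rep W B x) : 0 ≤ B := by
  obtain ⟨a, h1, h2, h3⟩ := h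
  refine le_trans ?_ h2
  exact Finset.sum_nonneg fun i _ => abs_nonneg _

lemma Rep.zero (W : ℕ) : Rep W 0 0 := by
  refine ⟨0, ?_, ?_, ?_⟩
  · simp
  · simp
  · simp

lemma R1_norm_add (a b : List Bool →₀ ℤ) :
    ((a + b).sum fun _ t => |(t : ℝ)|) ≤ (a.sum fun _ t => |(t : ℝ)|) +
      (b.sum fun _ t => |(t : ℝ)|) := by
  have ha : (a.sum fun _ t => |(t : ℝ)|) = ∑ z ∈ a.support ∪ b.support, |((a z : ℤ) : ℝ)| :=
    Finsupp.sum_of_support_subset a Finset.subset_union_left _ (by simp)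
  have hb : (b.sum fun _ t => |(t : ℝ)|) = ∑ z ∈ a.support ∪ b.support, |((b z : ℤ) : ℝ)| :=
    Finsupp.sum_of_support_subset b Finset.subset_union_right _ (by simp)
  have hab : ((a + b).sum fun _ t => |(t : ℝ)|) =
      ∑ z ∈ a.support ∪ b.support, |(((a + b) z : ℤ) : ℝ)| :=
    Finsupp.sum_of_support_subset (a + b) Finsupp.support_add _ (by simp)
  rw [ha, hb, hab, ← Finset.sum_add_distrib]
  apply Finset.sum_le_sum
  intro z _
  rw [Finsupp.add_apply, Int.cast_add]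
  exact abs_add_le _ _

/-- the sum of two finsupps; `|s + t| ≤ |s| + |t|` -/
lemma Rep.add {W : ℕ} {B B' x y : ℝ} (h : Rep W B x) (h' : Rep W B' y) :
    Rep W (B + B') (x + y) := by
  obtain ⟨a, h1, h2, h3⟩ := h
  obtain ⟨b, h4, h5, h6⟩ := h'
  refine ⟨a + b, ?_, ?_, ?_⟩
  · intro z hz
    rcases Finset.mem_union.mp (Finsupp.support_add hz) with h | h
    · exact h1 z h
    · exact h4 z h
  · exact (R1_norm_add a b).trans (add_le_add h2 h5)
  · rw [h3, h6, Finsupp.sum_add_index']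
    · simp
    · intro z s t
      push_cast
      ring

lemma Rep.zsmul {W : ℕ} {B x : ℝ} (n : ℤ) (h : Rep W B x) : Rep W (|(n : ℝ)| * B) (n * x) := by
  obtain ⟨a, h1, h2, h3⟩ := h
  refine ⟨n • a, ?_, ?_, ?_⟩
  · intro z hz
    exact h1 z (Finsupp.support_smul hz)
  · rw [Finsupp.sum_smul_index' (by simp)]
    have h4 : (a.sum fun _ t => |((n • t : ℤ) : ℝ)|) = |(n : ℝ)| * (a.sum fun _ t => |(t : ℝ)|) := by
      rw [Finsupp.sum, Finsupp.sum, Finset.mul_sum]
      apply Finset.sum_congr rfl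
      intro z _
      rw [smul_eq_mul, Int.cast_mul, abs_mul]
    rw [h4]
    exact mul_le_mul_of_nonneg_left h2 (abs_nonneg _)
  · rw [Finsupp.sum_smul_index' (by simp), h3, Finsupp.sum, Finsupp.sum, Finset.mul_sum]
    apply Finset.sum_congr rfl
    intro z _
    rw [smul_eq_mul, Int.cast_mul, mul_assoc]

lemma Rep.sub {W : ℕ} {B B' x y : ℝ} (h : Rep W B x) (h' : Rep W B' y) :
    Rep W (B + B') (x - y) := by
  have h1 := h.add (h'.zsmul (-1))
  have h2 : |((-1 : ℤ) : ℝ)| * B' = B' := by simp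
  have h3 : x + ((-1 : ℤ) : ℝ) * y = x - y := by push_cast; ring
  rwa [h2, h3] at h1

lemma Rep.sum {ι : Type*} (s : Finset ι) {W : ℕ} (B x : ι → ℝ)
    (h : ∀ i ∈ s, Rep W (B i) (x i)) : Rep W (∑ i ∈ s, B i) (∑ i ∈ s, x i) := by
  classical
  induction s using Finset.induction_on with
  | empty => simpa using Rep.zero W
  | insert i s hi ih =>
    rw [Finset.sum_insert hi, Finset.sum_insert hi]
    exact (h i (Finset.mem_insert_self i s)).add
      (ih fun j hj => h j (Finset.mem_insert_of_mem hj))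

/-- `Finsupp.single z 1` -/
lemma Rep.zr {W : ℕ} (z : List Bool) (h : adm z = true) (hl : z.length ≤ W) :
    Rep W 1 (zr z) := by
  refine ⟨Finsupp.single z 1, ?_, ?_, ?_⟩
  · intro y hy
    have h1 : y = z := by
      have := Finsupp.support_single_subset hy
      simpa using this
    rw [h1]
    exact ⟨h, hl⟩
  · rw [Finsupp.sum_single_index (by simp)]
    simp
  · rw [Finsupp.sum_single_index (by simp)]
    simp

lemma R1_zr_nil : MZG.zr [] = 1 := by
  have h1 : ze [] = 1 := by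
    rw [ze, tsum_eq_single 0]
    · simp [ce, c]
    · intro m hm
      simp [ce, c, hm]
  rw [MZG.zr, h1, ENNReal.toReal_one]

/-- `zr [] = 1` -/
lemma Rep.int (W : ℕ) (n : ℤ) : Rep W |(n : ℝ)| n := by
  have h1 := (Rep.zr (W := W) [] (by simp [adm]) (by simp)).zsmul n
  rwa [R1_zr_nil, mul_one, mul_one] at h1

end MZG
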