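import Pool.Agent.Lib.MP_e54452_nt.DG.E10a
import Pool.Agent.Lib.MP_e54452_nt.DG.R1

/-!
# Row E10b
-/

set_option autoImplicit false

namespace MZG

open Finset PowerSeries
open scoped ENNReal Nat Polynomial

/-- If `(Se k u v)` satisfies the bound of `Se_rep` for all `k ≤ K`, where `l = |u| + |v|`, `v ≠ []`,
then for `k ≤ K`: `D^(l+1) * (Ne (k+1) u v).toReal` has
`Rep (l+1) ((1 + (k+1) * 4^l) * D^(l+1))`: by `Ne_toReal` it is an integer multiple of one admissible
value of length `l + 1` (`dual_length`, `dual_adm`) minus `k + 1` terms. -/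
theorem Ne_rep (K D : ℕ) (hD0 : 0 < D) (u v : List Bool) (hu : good u = true)
    (hv : good v = true) (hv0 : v ≠ [])
    (h : ∀ k ≤ K, Rep (u.length + v.length) (4 ^ (u.length + v.length) *
      (D : ℝ) ^ (u.length + v.length + 1))
      ((D : ℝ) ^ (u.length + v.length + 1) * (Se k u v).toReal)) (k : ℕ) (hk : k ≤ K) :
    Rep (u.length + v.length + 1) ((1 + ((k : ℝ) + 1) * 4 ^ (u.length + v.length)) *
      (D : ℝ) ^ (u.length + v.length + 1))
      ((D : ℝ) ^ (u.length + v.length + 1) * (Ne (k + 1) u v).toReal) := by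
  have hDp : (0 : ℝ) < (D : ℝ) ^ (u.length + v.length + 1) := by
    have : (0 : ℝ) < (D : ℝ) := by exact_mod_cast hD0
    positivity
  have hadm : adm (dual v (true :: u)) = true :=
    dual_adm v (true :: u) hv0 hv (by simp) (good_true u hu)
  have hlen : (dual v (true :: u)).length ≤ u.length + v.length + 1 := by
    rw [dual_length]
    simp only [List.length_cons]
    omega
  have r1 := Rep.zsmul ((D : ℤ) ^ (u.length + v.length + 1))
    (Rep.zr (W := u.length + v.length + 1) (dual v (true :: u)) hadm hlen)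
  push_cast at r1
  rw [abs_of_pos hDp, mul_one] at r1
  have r2 := Rep.sum (W := u.length + v.length) (range (k + 1))
    (fun _ => 4 ^ (u.length + v.length) * (D : ℝ) ^ (u.length + v.length + 1))
    (fun i => (D : ℝ) ^ (u.length + v.length + 1) * (Se i u v).toReal)
    (fun i hi => h i (by rw [Finset.mem_range] at hi; omega))
  have r3 := Rep.sub r1 (Rep.mono r2 (Nat.le_succ _) le_rfl)
  rw [Ne_toReal u v hu hv hv0, mul_sub, Finset.mul_sum]
  refine Rep.mono r3 le_rfl (le_of_eq ?_)
  rw [Finset.sum_const, Finset.card_range, nsmul_eq_mul]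
  push_cast
  ring

end MZG
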