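import Pool.Agent.Lib.MP_e54452_nt.DG.E10b

/-!
# Row E10c
-/

set_option autoImplicit false

namespace MZG

open Finset PowerSeries
open scoped ENNReal Nat Polynomial

theorem E10c_core (D q l k : ℕ) (hq : D = (k + 1) * q) (hD0 : 0 < D) {S a b : ℝ}
    (h : ((k : ℝ) + 1) * S + a = b)
    (ha : Rep (l + 1) ((1 + ((k : ℝ) + 1) * 4 ^ l) * (D : ℝ) ^ (l + 1)) ((D : ℝ) ^ (l + 1) * a))
    (hb : Rep (l + 1) ((1 + ((k : ℝ) + 1) * 4 ^ l) * (D : ℝ) ^ (l + 1)) ((D : ℝ) ^ (l + 1) * b)) :
    Rep (l + 1) (4 ^ (l + 1) * (D : ℝ) ^ (l + 1 + 1)) ((D : ℝ) ^ (l + 1 + 1) * S) := by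
  have h1 := (hb.sub ha).zsmul (q : ℤ)
  have hDr : (D : ℝ) = ((k : ℝ) + 1) * q := by rw [hq]; push_cast; ring
  have e1 : (((q : ℤ) : ℝ)) * ((D : ℝ) ^ (l + 1) * b - (D : ℝ) ^ (l + 1) * a) =
      (D : ℝ) ^ (l + 1 + 1) * S := by
    rw [← h, pow_succ (D : ℝ) (l + 1), Int.cast_natCast]
    generalize (D : ℝ) ^ (l + 1) = X
    rw [hDr]
    ring
  rw [e1] at h1
  refine h1.mono le_rfl ?_
  have hq0 : (0 : ℝ) ≤ q := Nat.cast_nonneg q
  have hk0 : (0 : ℝ) ≤ k := Nat.cast_nonneg k
  have hqD : (q : ℝ) ≤ D := by rw [hDr]; nlinarith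
  have h4 : (1 : ℝ) ≤ 4 ^ l := one_le_pow₀ (by norm_num)
  have hX : (0 : ℝ) ≤ (D : ℝ) ^ (l + 1) := by positivity
  rw [Int.cast_natCast, abs_of_nonneg hq0, pow_succ (D : ℝ) (l + 1), pow_succ (4 : ℝ) l]
  generalize (D : ℝ) ^ (l + 1) = X at hX ⊢
  generalize (4 : ℝ) ^ l = F at h4 ⊢
  have h5 : (q : ℝ) * (1 + ((k : ℝ) + 1) * F) ≤ D * (1 + F) := by
    have : (q : ℝ) * (1 + ((k : ℝ) + 1) * F) = q + D * F := by rw [hDr]; ring
    rw [this]; linarith
  have h6 : 2 * ((D : ℝ) * (1 + F)) ≤ F * 4 * D := by
    have hD1 : (0 : ℝ) ≤ D := Nat.cast_nonneg D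
    nlinarith
  calc (q : ℝ) * ((1 + ((k : ℝ) + 1) * F) * X + (1 + ((k : ℝ) + 1) * F) * X)
      = (2 * ((q : ℝ) * (1 + ((k : ℝ) + 1) * F))) * X := by ring
    _ ≤ (F * 4 * D) * X := by
        apply mul_le_mul_of_nonneg_right _ hX
        linarith
    _ = F * 4 * (X * D) := by ring

theorem E10c_one {l k : ℕ} {D : ℕ} :
    (4 : ℝ) ^ l * (D : ℝ) ^ (l + 1) ≤ (1 + ((k : ℝ) + 1) * 4 ^ l) * (D : ℝ) ^ (l + 1) := by
  have hX : (0 : ℝ) ≤ (D : ℝ) ^ (l + 1) := by positivity
  apply mul_le_mul_of_nonneg_right _ hX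
  have hk0 : (0 : ℝ) ≤ k := Nat.cast_nonneg k
  have h4 : (0 : ℝ) ≤ 4 ^ l := by positivity
  nlinarith

theorem E10c_main (K D : ℕ) (hD0 : 0 < D) (hD : ∀ j, 1 ≤ j → j ≤ K + 1 → j ∣ D) (l : ℕ) :
    ∀ (u v : List Bool), u.length + v.length = l → good u = true → good v = true →
      ∀ k ≤ K, Rep l (4 ^ l * (D : ℝ) ^ (l + 1)) ((D : ℝ) ^ (l + 1) * (Se k u v).toReal) := by
  induction l with
  | zero =>
    intro u v hl hu hv k hk
    have hu0 : u = [] := List.length_eq_zero_iff.mp (by omega)
    have hv0 : v = [] := List.length_eq_zero_iff.mp (by omega)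
    subst hu0 hv0
    obtain ⟨q, hq⟩ := hD (k + 1) (by omega) (by omega)
    have hDr : (D : ℝ) = ((k : ℝ) + 1) * q := by rw [hq]; push_cast; ring
    have h1 := Rep.int 0 (q : ℤ)
    have e1 : (((q : ℤ) : ℝ)) = (D : ℝ) ^ (0 + 1) * (Se k [] []).toReal := by
      rw [Se_nil_nil, ENNReal.toReal_inv, ENNReal.toReal_add (ENNReal.natCast_ne_top k)
        ENNReal.one_ne_top, ENNReal.toReal_natCast, ENNReal.toReal_one, Int.cast_natCast, zero_add,
        pow_one, hDr]
      have : (k : ℝ) + 1 ≠ 0 := by positivity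
      field_simp
    rw [e1] at h1
    refine h1.mono le_rfl ?_
    rw [← e1, Int.cast_natCast, abs_of_nonneg (Nat.cast_nonneg q), pow_zero, one_mul, zero_add,
      pow_one, hDr]
    have hk0 : (0 : ℝ) ≤ k := Nat.cast_nonneg k
    have hq0 : (0 : ℝ) ≤ q := Nat.cast_nonneg q
    nlinarith
  | succ l ih =>
    intro u v hl hu hv k hk
    obtain ⟨q, hq⟩ := hD (k + 1) (by omega) (by omega)
    by_cases hv0 : v = []
    · subst hv0
      match u, hl, hu with
      | [], hl, _ => simp at hl
      | false :: u', hl, hu =>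
        have hu' := good_tail _ _ hu
        have hu0 := good_false_ne _ hu
        have hl' : u'.length + ([] : List Bool).length = l := by
          simp only [List.length_cons] at hl ⊢; omega
        have hrec := Se_false_nil k u' hu0
        have f1 := Se_ne_top (false :: u') [] hu hv k
        have f2 := Se_ne_top u' [] hu' hv k
        have had : adm (false :: u') = true := by
          simp only [adm, Bool.not_false, Bool.true_and]; exact hu
        have f3 := ze_ne_top (false :: u') had
        have hr := congrArg ENNReal.toReal hrec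
        rw [ENNReal.toReal_add (ENNReal.mul_ne_top (by simp) f1) f2, ENNReal.toReal_mul,
          ENNReal.toReal_add (ENNReal.natCast_ne_top k)
          ENNReal.one_ne_top, ENNReal.toReal_natCast, ENNReal.toReal_one] at hr
        refine E10c_core D q l k hq hD0 hr ?_ ?_
        · exact (ih u' [] hl' hu' hv k hk).mono (Nat.le_succ l) E10c_one
        · have hz := (Rep.zr (W := l + 1) (false :: u') had (by
            simp only [List.length_cons, List.length_nil] at hl ⊢; omega)).zsmul
            ((D ^ (l + 1) : ℕ) : ℤ)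
          rw [Int.cast_natCast] at hz
          push_cast at hz
          refine hz.mono le_rfl ?_
          have hX : (0 : ℝ) ≤ (D : ℝ) ^ (l + 1) := by positivity
          rw [abs_of_nonneg hX, mul_one]
          have hk0 : (0 : ℝ) ≤ ((k : ℝ) + 1) * 4 ^ l := by positivity
          nlinarith
      | true :: u', hl, hu =>
        have hu' := good_tail _ _ hu
        have hl' : u'.length + ([] : List Bool).length = l := by
          simp only [List.length_cons] at hl ⊢; omega
        have hrec := Se_true_nil k u'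
        have hr := congrArg ENNReal.toReal hrec
        rw [ENNReal.toReal_mul,
          ENNReal.toReal_add (ENNReal.natCast_ne_top k)
          ENNReal.one_ne_top, ENNReal.toReal_natCast, ENNReal.toReal_one,
          ENNReal.toReal_sum (fun j _ => Se_ne_top u' [] hu' hv j)] at hr
        refine E10c_core D q l k hq hD0 (a := 0) ((add_zero _).trans hr) ?_ ?_
        · rw [mul_zero]
          exact (Rep.zero (l + 1)).mono le_rfl (by positivity)
        · rw [Finset.mul_sum]
          have h1 := Rep.sum (W := l) (range (k + 1)) (fun _ => 4 ^ l * (D : ℝ) ^ (l + 1))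
            (fun j => (D : ℝ) ^ (l + 1) * (Se j u' []).toReal)
            (fun j hj => ih u' [] hl' hu' hv j (by
              have := Finset.mem_range.mp hj; omega))
          refine h1.mono (Nat.le_succ l) ?_
          rw [Finset.sum_const, Finset.card_range, nsmul_eq_mul]
          push_cast
          have hX : (0 : ℝ) ≤ (D : ℝ) ^ (l + 1) := by positivity
          nlinarith
    · have hrec := Se_rec k u v hu hv hv0
      -- the second term
      have hB : Bt k u v ≠ ∞ ∧ Rep (l + 1) ((1 + ((k : ℝ) + 1) * 4 ^ l) * (D : ℝ) ^ (l + 1))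
          ((D : ℝ) ^ (l + 1) * (Bt k u v).toReal) := by
        match v, hl, hv, hv0 with
        | [], _, _, h0 => exact absurd rfl h0
        | true :: v', hl, hv, _ =>
          have hv' := good_tail _ _ hv
          have hl' : u.length + v'.length = l := by
            simp only [List.length_cons] at hl; omega
          exact ⟨Se_ne_top u v' hu hv' k,
            (ih u v' hl' hu hv' k hk).mono (Nat.le_succ l) E10c_one⟩
        | false :: v', hl, hv, _ =>
          have hv' := good_tail _ _ hv
          have hv0' := good_false_ne _ hv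
          have hl' : u.length + v'.length = l := by
            simp only [List.length_cons] at hl; omega
          refine ⟨Ne_ne_top u v' hu hv' hv0' (k + 1), ?_⟩
          have h1 := Ne_rep K D hD0 u v' hu hv' hv0' (by
            intro j hj
            rw [hl']
            exact ih u v' hl' hu hv' j hj) k hk
          rw [hl'] at h1
          exact h1
      have hAr : Rep (l + 1) ((1 + ((k : ℝ) + 1) * 4 ^ l) * (D : ℝ) ^ (l + 1))
          ((D : ℝ) ^ (l + 1) * (At k u v).toReal) := by
        match u, hl, hu with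
        | [], _, _ =>
          have : (At k [] v).toReal = 0 := by simp [At]
          rw [this, mul_zero]
          exact (Rep.zero (l + 1)).mono le_rfl (by positivity)
        | false :: u', hl, hu =>
          have hu' := good_tail _ _ hu
          have hl' : u'.length + v.length = l := by
            simp only [List.length_cons] at hl; omega
          exact (ih u' v hl' hu' hv k hk).mono (Nat.le_succ l) E10c_one
        | true :: u', hl, hu =>
          have hu' := good_tail _ _ hu
          have hl' : u'.length + v.length = l := by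
            simp only [List.length_cons] at hl; omega
          have h1 := Ne_rep K D hD0 u' v hu' hv hv0 (by
            intro j hj
            rw [hl']
            exact ih u' v hl' hu' hv j hj) k hk
          rw [hl'] at h1
          exact h1
      have hAf : At k u v ≠ ∞ := by
        intro h0
        apply hB.1
        rw [← hrec, h0, add_top]
      have hr := congrArg ENNReal.toReal hrec
      rw [ENNReal.toReal_add (ENNReal.mul_ne_top (by simp) (Se_ne_top u v hu hv k)) hAf,
        ENNReal.toReal_mul, ENNReal.toReal_add (ENNReal.natCast_ne_top k)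
        ENNReal.one_ne_top, ENNReal.toReal_natCast, ENNReal.toReal_one] at hr
      exact E10c_core D q l k hq hD0 hr hAr hB.2

/-- Induction on `l = |u| + |v|`, for all `u`, `v`, and all `k ≤ K`. Write `D = (k+1) q`, `q ≤ D`.
`l = 0`: `D * (k+1)⁻¹ = q`, `Rep.int`, `q ≤ D`.
`l ≥ 1`, `v ≠ []`: `D^(l+1) Se = q * (D^l Bt - D^l At)` (`Se_rec`, `toReal`), where `Bt` is
`Se k u v'` or `Ne (k+1) u v'` (`Ne_rep` with the induction hypothesis, `v' ≠ []`), similarly `At`
(`0`, `Se k u' v`, `Ne (k+1) u' v`). Both have `Rep l ((1 + (k+1) 4^(l-1)) D^l)` (in the `Se` case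
`Rep (l-1) (4^(l-1) D^l)` and `Rep.mono`). So `Rep l (q * 2 (1 + (k+1) 4^(l-1)) D^l)`, and
`q * (1 + (k+1) 4^(l-1)) ≤ D + D 4^(l-1)`, `2 (1 + 4^(l-1)) ≤ 4^l`.
`l ≥ 1`, `v = []`: `u = false :: u'`: `D^(l+1) Se = q * (D^l zr (false :: u') - D^l Se k u' [])`;
`u = true :: u'`: `D^(l+1) Se = q * ∑_{j ≤ k} D^l Se j u' []`. -/
theorem Se_rep (K D : ℕ) (hD0 : 0 < D) (hD : ∀ j, 1 ≤ j → j ≤ K + 1 → j ∣ D)
    (u v : List Bool) (hu : good u = true) (hv : good v = true) (k : ℕ) (hk : k ≤ K) :
    Rep (u.length + v.length) (4 ^ (u.length + v.length) * (D : ℝ) ^ (u.length + v.length + 1))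
      ((D : ℝ) ^ (u.length + v.length + 1) * (Se k u v).toReal) := by
  exact E10c_main K D hD0 hD _ u v rfl hu hv k hk

end MZG
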