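import Pool.Agent.Lib.MP_e54452_nt.DG.Defs2

/-!
# Row E1a
-/

set_option autoImplicit false

namespace MZG

open Finset PowerSeries
open scoped ENNReal Nat Polynomial

lemma bt_symm (i j : ℕ) : bt i j = bt j i := by
  unfold bt
  rw [mul_comm ((i ! : ℕ) : ℝ), Nat.add_comm i j]

lemma ct_symm (i j : ℕ) : ct i j = ct j i := by
  unfold ct
  rw [mul_comm ((i ! : ℕ) : ℝ), Nat.add_comm i j]

lemma bt_ne_top (i j : ℕ) : bt i j ≠ ∞ := by
  unfold bt
  exact ENNReal.ofReal_ne_top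

lemma E1a_fact_pos (n : ℕ) : (0 : ℝ) < ((n ! : ℕ) : ℝ) := by
  exact_mod_cast Nat.factorial_pos n

/-- `(i+j+2)! = (i+j+2) (i+j+1)!` and `(i+1) + (j+1) = i+j+2` -/
lemma bt_pascal (i j : ℕ) : bt i j = bt (i + 1) j + bt i (j + 1) := by
  unfold bt
  rw [← ENNReal.ofReal_add (by positivity) (by positivity)]
  congr 1
  have h1 : i + 1 + j + 1 = (i + j + 1) + 1 := by ring
  have h2 : i + (j + 1) + 1 = (i + j + 1) + 1 := by ring
  rw [h1, h2]
  simp only [Nat.factorial_succ]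
  have := E1a_fact_pos (i + j)
  push_cast
  field_simp
  ring

/-- both sides are `(i+1)! (n+1)! / (i+n+2)!` -/
lemma bt_step (i n : ℕ) :
    ((i : ℝ≥0∞) + 1) * bt i (n + 1) = ((n : ℝ≥0∞) + 1) * bt (i + 1) n := by
  unfold bt
  have e1 : ((i : ℝ≥0∞) + 1) = ENNReal.ofReal ((i : ℝ) + 1) := by
    rw [ENNReal.ofReal_add (by positivity) (by positivity)]
    simp
  have e2 : ((n : ℝ≥0∞) + 1) = ENNReal.ofReal ((n : ℝ) + 1) := by
    rw [ENNReal.ofReal_add (by positivity) (by positivity)]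
    simp
  rw [e1, e2, ← ENNReal.ofReal_mul (by positivity), ← ENNReal.ofReal_mul (by positivity)]
  congr 1
  have h1 : i + 1 + n + 1 = (i + n + 1) + 1 := by ring
  have h2 : i + (n + 1) + 1 = (i + n + 1) + 1 := by ring
  rw [h1, h2]
  simp only [Nat.factorial_succ]
  have := E1a_fact_pos (i + n)
  push_cast
  field_simp

/-- `(m+1)! n! / (m+1+n)! = (m+1) * (m! n! / (m+n+1)!)` -/
lemma ct_bt (m n : ℕ) : ct (m + 1) n = ((m : ℝ≥0∞) + 1) * bt m n := by
  unfold bt ct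
  have e1 : ((m : ℝ≥0∞) + 1) = ENNReal.ofReal ((m : ℝ) + 1) := by
    rw [ENNReal.ofReal_add (by positivity) (by positivity)]
    simp
  rw [e1, ← ENNReal.ofReal_mul (by positivity)]
  congr 1
  have h1 : m + 1 + n = (m + n) + 1 := by ring
  rw [h1]
  simp only [Nat.factorial_succ]
  have := E1a_fact_pos (m + n)
  push_cast
  field_simp

lemma ct_zero (m : ℕ) : ct m 0 = 1 := by
  unfold ct
  have := E1a_fact_pos m
  simp only [Nat.factorial_zero, Nat.add_zero, Nat.cast_one, mul_one]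
  rw [div_self this.ne', ENNReal.ofReal_one]

/-- `m! / (m+1)! = 1 / (m+1)` -/
lemma bt_zero (m : ℕ) : bt m 0 = ((m : ℝ≥0∞) + 1)⁻¹ := by
  unfold bt
  have e1 : ((m : ℝ≥0∞) + 1) = ENNReal.ofReal ((m : ℝ) + 1) := by
    rw [ENNReal.ofReal_add (by positivity) (by positivity)]
    simp
  rw [e1, ← ENNReal.ofReal_inv_of_pos (by positivity)]
  congr 1
  have := E1a_fact_pos m
  simp only [Nat.factorial_succ, Nat.factorial_zero, Nat.add_zero]
  push_cast
  field_simp

end MZG
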