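import Pool.Agent.Lib.MP_e54452_nt.DG.E1b
import Pool.Agent.Lib.MP_e54452_nt.DG.E2a
import Pool.Agent.Lib.MP_e54452_nt.DG.E2b

/-!
# Row E4a
-/

set_option autoImplicit false

namespace MZG

open Finset PowerSeries
open scoped ENNReal Nat Polynomial

/-- only `n = 0` contributes (`ce_nil`, `tsum_eq_single 0`), `ct m 0 = 1`. -/
lemma Ce_nil (w : List Bool) : Ce w [] = ze w := by
  unfold Ce ze
  apply tsum_congr
  intro m
  rw [tsum_eq_single 0]
  · rw [ce_nil, ct_zero]
    simp
  · intro n hn
    rw [ce_nil]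
    simp [hn]

/-- Exchange the sums so that `m` is outside (already so). For `m = 0` both inner sums vanish
(`ce w 0 = 0`, `ce (false :: w) 0 = 0`). For `m = m' + 1` and `n ≥ 1`:
`ce (true :: v) n * ct m n = (n * ce (true :: v) n) * bt m' (n... )`; precisely
`ct (m'+1) n = ct n (m'+1)` and for `n = n' + 1`, `ct (n'+1) (m'+1) = (n'+1) * bt n' (m'+1)`. So
`∑' n, ce (true :: v) n * ct m n = ∑' n, (∑ j < n, ce v j) * g n` with
`g n = bt (n - 1) (m' + 1)` (the term `n = 0` vanishes on both sides), `tsum_swap` gives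
`∑' j, ce v j * ∑' t, g (j + 1 + t) = ∑' j, ce v j * ∑' t, bt (j + t) (m' + 1)
= ∑' j, ce v j * bt j m'` (`bt_tele`). And `(m'+1) * ce (false :: w) (m'+1) = ce w (m'+1)`,
`ct (m'+1) j = (m'+1) * bt m' j`: so `ce w m * ∑' j, ce v j * bt j m' =
∑' j, ce (false :: w) m * ce v j * ct m j`. -/
lemma Ce_true (w v : List Bool) (hw : w ≠ []) : Ce w (true :: v) = Ce (false :: w) v := by
  unfold Ce
  apply tsum_congr
  intro m
  obtain rfl | ⟨m', rfl⟩ : m = 0 ∨ ∃ m', m = m' + 1 := by
    rcases m with _ | m'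
    · exact Or.inl rfl
    · exact Or.inr ⟨m', rfl⟩
  · simp [ce_zero w hw, ce_zero (false :: w) (by simp)]
  · have h1 : ∀ n, ce w (m' + 1) * ce (true :: v) n * ct (m' + 1) n =
        ce w (m' + 1) * ((∑ j ∈ range n, ce v j) * bt (n - 1) (m' + 1)) := by
      intro n
      rcases n with _ | n'
      · simp [ce_zero (true :: v) (by simp)]
      · rw [← ce_true, ct_symm (m' + 1) (n' + 1), ct_bt]
        simp only [Nat.add_sub_cancel]
        push_cast
        ring
    rw [tsum_congr h1, ENNReal.tsum_mul_left, tsum_swap]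
    have h2 : ∀ j, ce v j * ∑' t, bt (j + 1 + t - 1) (m' + 1) = ce v j * bt j m' := by
      intro j
      congr 1
      rw [← bt_tele j m']
      apply tsum_congr
      intro t
      congr 1
      omega
    rw [tsum_congr h2, ← ENNReal.tsum_mul_left]
    apply tsum_congr
    intro j
    rw [ct_bt, ← ce_false w hw (m' + 1), bt_symm m' j]
    push_cast
    ring

end MZG
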