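import Pool.Agent.Lib.MP_e54452_nt.DG.E1b
import Pool.Agent.Lib.MP_e54452_nt.DG.E2a
import Pool.Agent.Lib.MP_e54452_nt.DG.E2b

/-!
# Row E4b
-/

set_option autoImplicit false

namespace MZG

open Finset PowerSeries
open scoped ENNReal Nat Polynomial

lemma E4b_key (u : List Bool) (n : ℕ) :
    ∑' m, ce (true :: u) m * ct m (n + 1) = ∑' i, ce u i * bt i n := by
  have h1 : ∀ m, ce (true :: u) m * ct m (n + 1) =
      (∑ i ∈ range m, ce u i) * bt (m - 1) (n + 1) := by
    intro m
    rcases m with _ | m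
    · rw [ce_zero _ (by simp)]
      simp
    · rw [ct_bt, ← ce_true, Nat.add_sub_cancel]
      push_cast
      ring
  rw [tsum_congr h1, tsum_swap (ce u) (fun m => bt (m - 1) (n + 1))]
  refine tsum_congr fun i => ?_
  congr 1
  rw [← bt_tele i n]
  refine tsum_congr fun t => ?_
  have : i + 1 + t - 1 = i + t := by omega
  simp only [this]

lemma E4b_split (f : ℕ → ℝ≥0∞) (h : f 0 = 0) : ∑' n, f n = ∑' n, f (n + 1) := by
  rw [tsum_eq_zero_add' ENNReal.summable, h, zero_add]

lemma E4b_right (w v : List Bool) (hv : v ≠ []) :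
    Ce (true :: w) v = ∑' n, ce v (n + 1) * ∑' m, ce w m * bt m n := by
  unfold Ce
  rw [ENNReal.tsum_comm, E4b_split]
  · refine tsum_congr fun n => ?_
    rw [← E4b_key, ← ENNReal.tsum_mul_left]
    refine tsum_congr fun m => ?_
    ring
  · simp [ce_zero v hv]

/-- Exchange the sums (`ENNReal.tsum_comm`) so that `n` is outside. `n = 0`: both sides vanish
(`ce_zero`, `v ≠ []`). `n = n' + 1`: `(n'+1) * ce (false :: v) n = ce v n`,
`ct m (n'+1) = (n'+1) * bt m n'` (by `ct_symm`, `ct_bt`, `bt_symm`). So the left inner sum is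
`∑' m, ce w m * ce v n * bt m n'`. Right inner sum: `∑' m, ce (true :: w) m * ce v n * ct m n`;
the term `m = 0` vanishes; for `m = m' + 1`: `ct m n = (m'+1) * bt m' n`, so it is
`∑' m, (∑ i < m, ce w i) * (ce v n * bt (m - 1) n) = ∑' i, ce w i * ∑' t, ce v n * bt (i + t) (n'+1)
= ∑' i, ce w i * (ce v n * bt i n')` (`tsum_swap`, `bt_tele`). -/
lemma Ce_false (w v : List Bool) (hv : v ≠ []) : Ce w (false :: v) = Ce (true :: w) v := by
  rw [E4b_right w v hv]
  unfold Ce
  rw [ENNReal.tsum_comm, E4b_split]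
  · refine tsum_congr fun n => ?_
    rw [← ENNReal.tsum_mul_left]
    refine tsum_congr fun m => ?_
    rw [ct_symm, ct_bt, bt_symm n m, ← ce_false v hv (n + 1)]
    push_cast
    ring
  · simp [ce_zero (false :: v) (by simp)]

/-- `Ne 0 u v = ∑' m, ∑' n, ce u m * ce v (n+1) * bt m n`. Exchange the sums in both sides. In
`Ce (true :: u) v` the term `n = 0` vanishes (`v ≠ []`); for `n = n' + 1` the inner sum
`∑' m, ce (true :: u) m * ce v n * ct m n = ∑' i, ce u i * (ce v n * bt i n')` exactly as in the proof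
of `Ce_false`. -/
lemma Ne_zero (u v : List Bool) (hv : v ≠ []) : Ne 0 u v = Ce (true :: u) v := by
  rw [E4b_right u v hv]
  unfold Ne
  rw [ENNReal.tsum_comm]
  refine tsum_congr fun n => ?_
  rw [← ENNReal.tsum_mul_left]
  refine tsum_congr fun m => ?_
  rw [Nat.add_zero]
  ring_nf

end MZG
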