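import Pool.Agent.Lib.MP_e54452_nt.DG.C1b
import Pool.Agent.Lib.MP_e54452_nt.DG.E4a
import Pool.Agent.Lib.MP_e54452_nt.DG.E4b

/-!
# Row E5
-/

set_option autoImplicit false

namespace MZG

open Finset PowerSeries
open scoped ENNReal Nat Polynomial

/-- Induction on `v`, generalizing `w`. `v = []`: `Ce_nil`. `v = true :: v'`: `Ce_true`, `dual`
unfolds to `dual v' (false :: w)`, `good_tail`. `v = false :: v'`: `v' ≠ []` (`good_false_ne`),
`Ce_false`, `dual v' (true :: w)`. -/
lemma Ce_dual (v w : List Bool) (hw : w ≠ []) (hv : good v = true) : Ce w v = ze (dual v w) := by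
  induction v generalizing w with
  | nil => exact Ce_nil w
  | cons a v ih =>
    cases a with
    | true =>
      rw [Ce_true w v hw]
      exact ih (false :: w) (List.cons_ne_nil _ _) (good_tail _ _ hv)
    | false =>
      rw [Ce_false w v (good_false_ne _ hv)]
      exact ih (true :: w) (List.cons_ne_nil _ _) (good_tail _ _ hv)

lemma Ne_dual (u v : List Bool) (hv : v ≠ []) (hv' : good v = true) :
    Ne 0 u v = ze (dual v (true :: u)) := by
  rw [Ne_zero u v hv]
  exact Ce_dual v (true :: u) (List.cons_ne_nil _ _) hv'

lemma dual_length (v w : List Bool) : (dual v w).length = v.length + w.length := by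
  induction v generalizing w with
  | nil => simp [dual]
  | cons a v ih =>
    rw [dual, ih, List.length_cons, List.length_cons]
    omega

/-- Induction on `v`, generalizing `w`. `v = [a]`: good gives `a = true`, `dual [true] w =
false :: w`, admissible since `w` is nonempty and good. `v = a :: b :: v'`: use the induction
hypothesis for `b :: v'` and `(!a) :: w`. -/
lemma dual_adm (v w : List Bool) (hv : v ≠ []) (hv' : good v = true) (hw : w ≠ [])
    (hw' : good w = true) : adm (dual v w) = true := by
  induction v generalizing w with
  | nil => exact absurd rfl hv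
  | cons a v ih =>
    cases v with
    | nil =>
      have ha : a = true := hv'
      subst ha
      have h := good_cons false w hw hw'
      change (!false && good (false :: w)) = true
      rw [h]
      rfl
    | cons b v =>
      exact ih ((!a) :: w) (List.cons_ne_nil _ _) (good_tail _ _ hv') (List.cons_ne_nil _ _)
        (good_cons _ _ hw hw')

end MZG
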