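import Pool.Agent.Lib.MP_e54452_nt.DG.C1b
import Pool.Agent.Lib.MP_e54452_nt.DG.E1b
import Pool.Agent.Lib.MP_e54452_nt.DG.E2a
import Pool.Agent.Lib.MP_e54452_nt.DG.E2b

/-!
# Row E7a
-/

set_option autoImplicit false

namespace MZG

open Finset PowerSeries
open scoped ENNReal Nat Polynomial

/-- `At k u v = ∑' m, ∑' n, (m * ce u m) * ce v n * bt (m + k) n` for `v ≠ []`.
`u = []`: `m * ce [] m = 0`. `u = false :: u'` (`u' ≠ []`): `ce_false`. `u = true :: u'`:
exchange sums; the term `n = 0` vanishes (`ce_zero`); for `n = n' + 1`, by `ce_true`, `tsum_swap`,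
`∑' m, (∑ i < m, ce u' i) * (ce v n * bt (m + k) n) = ∑' i, ce u' i * ∑' t, ce v n * bt (i+1+t+k) n
= ∑' i, ce u' i * (ce v n * bt (i + (k+1)) n')` (`bt_tele` with `i + (k+1)`), and exchange back. -/
lemma At_eq (k : ℕ) (u v : List Bool) (hu : good u = true) (hv0 : v ≠ []) :
    At k u v = ∑' m : ℕ, ∑' n : ℕ, ((m : ℝ≥0∞) * ce u m) * ce v n * bt (m + k) n := by
  cases u with
  | nil =>
    have : ∀ m : ℕ, ∑' n : ℕ, ((m : ℝ≥0∞) * ce [] m) * ce v n * bt (m + k) n = 0 := by
      intro m
      rw [ENNReal.tsum_eq_zero]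
      intro n
      rw [ce_nil]
      rcases Nat.eq_zero_or_pos m with rfl | hm
      · simp
      · rw [if_neg (by omega)]
        simp
    rw [tsum_congr this, tsum_zero]
    rfl
  | cons a u' =>
    cases a with
    | false =>
      have hu' : u' ≠ [] := good_false_ne u' hu
      show Se k u' v = _
      unfold Se
      refine tsum_congr fun m => tsum_congr fun n => ?_
      rw [ce_false u' hu' m]
    | true =>
      show Ne (k + 1) u' v = _
      unfold Ne
      rw [ENNReal.tsum_comm, ENNReal.tsum_comm (f := fun m n : ℕ =>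
        ((m : ℝ≥0∞) * ce (true :: u') m) * ce v n * bt (m + k) n)]
      have h0 := (ENNReal.summable.sum_add_tsum_nat_add' (f := fun n : ℕ => ∑' m : ℕ,
        ((m : ℝ≥0∞) * ce (true :: u') m) * ce v n * bt (m + k) n) (k := 1)).symm
      rw [h0, Finset.sum_range_one]
      have h1 : ∑' m : ℕ, ((m : ℝ≥0∞) * ce (true :: u') m) * ce v 0 * bt (m + k) 0 = 0 := by
        rw [ENNReal.tsum_eq_zero]
        intro m
        rw [ce_zero v hv0]
        simp
      rw [h1, zero_add]
      refine tsum_congr fun n => ?_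
      have h2 : ∀ m : ℕ, ((m : ℝ≥0∞) * ce (true :: u') m) * ce v (n + 1) * bt (m + k) (n + 1) =
          (∑ i ∈ range m, ce u' i) * (ce v (n + 1) * bt (m + k) (n + 1)) := by
        intro m
        rw [ce_true, mul_assoc]
      rw [tsum_congr h2, tsum_swap]
      refine tsum_congr fun i => ?_
      have h3 : ∑' t, ce v (n + 1) * bt (i + 1 + t + k) (n + 1) =
          ce v (n + 1) * bt (i + (k + 1)) n := by
        rw [ENNReal.tsum_mul_left, ← bt_tele (i + (k + 1)) n]
        congr 1
        refine tsum_congr fun t => ?_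
        congr 1
        omega
      rw [h3, mul_assoc]

end MZG
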