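import Pool.Agent.Lib.MP_e54452_nt.DG.E1b
import Pool.Agent.Lib.MP_e54452_nt.DG.E2b

/-!
# Row E8a
-/

set_option autoImplicit false

namespace MZG

open Finset PowerSeries
open scoped ENNReal Nat Polynomial

/-- only `n = 0` contributes -/
lemma Se_nil (k : ℕ) (u : List Bool) :
    Se k u [] = ∑' m, ce u m * ((m : ℝ≥0∞) + k + 1)⁻¹ := by
  unfold Se
  refine tsum_congr fun m => ?_
  rw [tsum_eq_single 0]
  · rw [ce_nil, if_pos rfl, mul_one, bt_zero]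
    push_cast
    rfl
  · intro n hn
    rw [ce_nil, if_neg hn, mul_zero, zero_mul]

lemma Se_nil_nil (k : ℕ) : Se k [] [] = ((k : ℝ≥0∞) + 1)⁻¹ := by
  rw [Se_nil, tsum_eq_single 0]
  · rw [ce_nil, if_pos rfl, one_mul]
    simp
  · intro n hn
    rw [ce_nil, if_neg hn, zero_mul]

/-- `Se_nil`, `ce u m = m * ce (false :: u) m` (`ce_false`), termwise
`(k+1) * x * (m+k+1)⁻¹ + m * x * (m+k+1)⁻¹ = x`. -/
lemma Se_false_nil (k : ℕ) (u : List Bool) (hu : u ≠ []) :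
    ((k : ℝ≥0∞) + 1) * Se k (false :: u) [] + Se k u [] = ze (false :: u) := by
  rw [Se_nil, Se_nil]
  unfold ze
  rw [← ENNReal.tsum_mul_left, ← ENNReal.tsum_add]
  refine tsum_congr fun m => ?_
  rw [← ce_false u hu m]
  have h0 : ((m : ℝ≥0∞) + k + 1) ≠ 0 := by simp
  have h1 : ((m : ℝ≥0∞) + k + 1) ≠ ∞ := by
    simp [ENNReal.add_eq_top]
  have h2 : ((m : ℝ≥0∞) + k + 1) * ((m : ℝ≥0∞) + k + 1)⁻¹ = 1 := ENNReal.mul_inv_cancel h0 h1
  calc ((k : ℝ≥0∞) + 1) * (ce (false :: u) m * ((m : ℝ≥0∞) + k + 1)⁻¹) +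
        (m : ℝ≥0∞) * ce (false :: u) m * ((m : ℝ≥0∞) + k + 1)⁻¹
      = ce (false :: u) m * (((m : ℝ≥0∞) + k + 1) * ((m : ℝ≥0∞) + k + 1)⁻¹) := by ring
    _ = ce (false :: u) m := by rw [h2, mul_one]

end MZG
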