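import Pool.Agent.Lib.MP_e54452_nt.DG.C1a

/-!
# Row E9a
-/

set_option autoImplicit false

namespace MZG

open Finset PowerSeries
open scoped ENNReal Nat Polynomial

lemma E9a_sum (m : ℕ) :
    ∑ i ∈ range m, 1 / Real.sqrt ((i : ℝ) + 1) ≤ 2 * Real.sqrt m := by
  induction m with
  | zero => simp
  | succ m ih =>
    rw [Finset.sum_range_succ]
    push_cast
    have h1 : 0 < Real.sqrt ((m : ℝ) + 1) := Real.sqrt_pos.mpr (by positivity)
    have h0 : 0 ≤ Real.sqrt (m : ℝ) := Real.sqrt_nonneg _
    have e1 : Real.sqrt ((m : ℝ) + 1) ^ 2 = (m : ℝ) + 1 := Real.sq_sqrt (by positivity)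
    have e0 : Real.sqrt (m : ℝ) ^ 2 = (m : ℝ) := Real.sq_sqrt (by positivity)
    have key : 1 / Real.sqrt ((m : ℝ) + 1) ≤ 2 * (Real.sqrt ((m : ℝ) + 1) - Real.sqrt m) := by
      rw [div_le_iff₀ h1]
      nlinarith [sq_nonneg (Real.sqrt ((m : ℝ) + 1) - Real.sqrt m)]
    linarith

/-- `∑_{i<m} 1/√(i+1) ≤ 2 √m` (induction: `1/√(m+1) ≤ 2 (√(m+1) - √m)`). Then induction on `w`:
`w = [true]`: `c [true] m = 1/m ≤ 1/√m` for `m ≥ 1` (the sum `∑ i < m, c [] i = 1`).
`false :: w'`, `w' ≠ []`: `c w' m / m ≤ c w' m`. (`w = [false]`: all coefficients vanish.)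
`true :: w'`, `w' ≠ []`: `(1/m) ∑ i<m, c w' i ≤ (1/m) * C * ∑_{1≤i<m} 1/√i ≤ 2 C /√m`
(the term `i = 0` vanishes by `c_zero`). -/
lemma c_bound (w : List Bool) (hw : w ≠ []) :
    ∃ C : ℝ, 0 ≤ C ∧ ∀ m : ℕ, 1 ≤ m → ((c w m : ℚ) : ℝ) ≤ C / Real.sqrt m := by
  induction w with
  | nil => exact absurd rfl hw
  | cons a w ih =>
    by_cases hw0 : w = []
    · subst hw0
      refine ⟨1, zero_le_one, fun m hm => ?_⟩
      have hm' : (1 : ℝ) ≤ m := by exact_mod_cast hm
      have hs : 0 < Real.sqrt (m : ℝ) := Real.sqrt_pos.mpr (by linarith)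
      cases a with
      | false =>
        have : c [false] m = 0 := by
          have hm0 : m ≠ 0 := by omega
          simp [c, hm0]
        rw [this]
        simp only [Rat.cast_zero]
        positivity
      | true =>
        have : c [true] m = 1 / (m : ℚ) := by
          have h2 : ∑ i ∈ range m, c [] i = 1 := by
            rw [Finset.sum_eq_single 0]
            · simp [c]
            · intro i _ hi
              simp [c, hi]
            · intro h
              exact absurd (Finset.mem_range.mpr (by omega)) h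
          show (∑ i ∈ range m, c [] i) / (m : ℚ) = 1 / (m : ℚ)
          rw [h2]
        rw [this]
        push_cast
        apply one_div_le_one_div_of_le hs
        calc Real.sqrt (m : ℝ) ≤ Real.sqrt ((m : ℝ) ^ 2) := by
              apply Real.sqrt_le_sqrt
              nlinarith
          _ = m := Real.sqrt_sq (by linarith)
    · obtain ⟨C, hC0, hC⟩ := ih hw0
      cases a with
      | false =>
        refine ⟨C, hC0, fun m hm => ?_⟩
        have hm' : (1 : ℝ) ≤ m := by exact_mod_cast hm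
        have h1 : ((c (false :: w) m : ℚ) : ℝ) = ((c w m : ℚ) : ℝ) / m := by
          show (((c w m / (m : ℚ)) : ℚ) : ℝ) = _
          push_cast
          rfl
        rw [h1]
        refine le_trans ?_ (hC m hm)
        have hn : (0 : ℝ) ≤ ((c w m : ℚ) : ℝ) := by exact_mod_cast c_nonneg w m
        exact div_le_self hn hm'
      | true =>
        refine ⟨2 * C, by linarith, fun m hm => ?_⟩
        have hm' : (1 : ℝ) ≤ m := by exact_mod_cast hm
        have hs : 0 < Real.sqrt (m : ℝ) := Real.sqrt_pos.mpr (by linarith)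
        have h1 : ((c (true :: w) m : ℚ) : ℝ) = (∑ i ∈ range m, ((c w i : ℚ) : ℝ)) / m := by
          show ((((∑ i ∈ range m, c w i) / (m : ℚ)) : ℚ) : ℝ) = _
          push_cast
          rfl
        rw [h1]
        obtain ⟨n, rfl⟩ : ∃ n, m = n + 1 := ⟨m - 1, by omega⟩
        rw [Finset.sum_range_succ', c_zero w hw0]
        simp only [Rat.cast_zero, add_zero]
        have h2 : ∑ i ∈ range n, ((c w (i + 1) : ℚ) : ℝ) ≤ C * (2 * Real.sqrt (n : ℝ)) := by
          calc ∑ i ∈ range n, ((c w (i + 1) : ℚ) : ℝ)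
              ≤ ∑ i ∈ range n, C * (1 / Real.sqrt ((i : ℝ) + 1)) := by
                apply Finset.sum_le_sum
                intro i _
                have := hC (i + 1) (by omega)
                push_cast at this
                rw [mul_one_div]
                exact this
            _ = C * ∑ i ∈ range n, (1 / Real.sqrt ((i : ℝ) + 1)) := by rw [Finset.mul_sum]
            _ ≤ C * (2 * Real.sqrt (n : ℝ)) :=
                mul_le_mul_of_nonneg_left (E9a_sum n) hC0
        have h3 : Real.sqrt (n : ℝ) ≤ Real.sqrt ((n + 1 : ℕ) : ℝ) :=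
          Real.sqrt_le_sqrt (by push_cast; linarith)
        have h4 : Real.sqrt ((n + 1 : ℕ) : ℝ) ^ 2 = ((n + 1 : ℕ) : ℝ) :=
          Real.sq_sqrt (by positivity)
        have hpos : (0 : ℝ) < ((n + 1 : ℕ) : ℝ) := by positivity
        rw [div_le_div_iff₀ hpos hs]
        calc (∑ i ∈ range n, ((c w (i + 1) : ℚ) : ℝ)) * Real.sqrt ((n + 1 : ℕ) : ℝ)
            ≤ (C * (2 * Real.sqrt (n : ℝ))) * Real.sqrt ((n + 1 : ℕ) : ℝ) :=
              mul_le_mul_of_nonneg_right h2 hs.le
          _ ≤ (C * (2 * Real.sqrt ((n + 1 : ℕ) : ℝ))) * Real.sqrt ((n + 1 : ℕ) : ℝ) := by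
              apply mul_le_mul_of_nonneg_right _ hs.le
              apply mul_le_mul_of_nonneg_left _ hC0
              linarith
          _ = 2 * C * (Real.sqrt ((n + 1 : ℕ) : ℝ) ^ 2) := by ring
          _ = 2 * C * ((n + 1 : ℕ) : ℝ) := by rw [h4]

end MZG
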