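import Pool.Agent.Lib.MP_e54452_nt.DG.Defs3
import Pool.Agent.Lib.MP_e54452_nt.DG.E10a

/-!
# Row ERa: the two-term recurrence
-/

set_option autoImplicit false

namespace MZG

open Finset
open scoped ENNReal Nat Polynomial

/-- the real number `Se` -/
noncomputable def sr (j : ℕ) (u v : List Bool) : ℝ := (Se j u v).toReal

lemma ERa_At_ne_top (k : ℕ) (u v : List Bool) (hu : good u = true) (hv : good v = true)
    (hv0 : v ≠ []) : At k u v ≠ ∞ := by
  rcases u with _ | ⟨a, u'⟩
  · exact ENNReal.zero_ne_top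
  · rcases a with _ | _
    · exact Se_ne_top u' v (good_tail _ _ hu) hv k
    · exact Ne_ne_top u' v (good_tail _ _ hu) hv hv0 (k + 1)

lemma ERa_k (k : ℕ) : ((k : ℝ≥0∞) + 1).toReal = (k : ℝ) + 1 := by
  rw [ENNReal.toReal_add (ENNReal.natCast_ne_top k) ENNReal.one_ne_top, ENNReal.toReal_natCast,
    ENNReal.toReal_one]

lemma ERa_k_ne_top (k : ℕ) : ((k : ℝ≥0∞) + 1) ≠ ∞ :=
  ENNReal.add_ne_top.2 ⟨ENNReal.natCast_ne_top k, ENNReal.one_ne_top⟩

lemma ERa_rec (k : ℕ) (u v : List Bool) (hu : good u = true) (hv : good v = true)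
    (hv0 : v ≠ []) :
    ((k : ℝ) + 1) * sr k u v + (At k u v).toReal = (Bt k u v).toReal := by
  have h := congrArg ENNReal.toReal (Se_rec k u v hu hv hv0)
  rw [ENNReal.toReal_add (ENNReal.mul_ne_top (ERa_k_ne_top k) (Se_ne_top u v hu hv k))
    (ERa_At_ne_top k u v hu hv hv0), ENNReal.toReal_mul, ERa_k] at h
  exact h

lemma ERa_Ne (k : ℕ) (u v : List Bool) (hu : good u = true) (hv : good v = true)
    (hv0 : v ≠ []) : (Ne k u v).toReal = (Ne (k + 1) u v).toReal + sr k u v := by
  have h := congrArg ENNReal.toReal (Ne_rec k u v hv0)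
  rw [ENNReal.toReal_add (Ne_ne_top u v hu hv hv0 (k + 1)) (Se_ne_top u v hu hv k)] at h
  exact h

/-- left part of the two-term recurrence -/
noncomputable def ERa_fA (k : ℕ) : List Bool → List Bool → ℝ
  | [], _ => 0
  | false :: u', v => sr k u' v - sr (k + 1) u' v
  | true :: u', v => sr (k + 1) u' v

/-- right part of the two-term recurrence -/
noncomputable def ERa_fB (k : ℕ) : List Bool → List Bool → ℝ
  | [], _ => 0
  | false :: v', u => sr (k + 1) u v'
  | true :: v', u => sr k u v' - sr (k + 1) u v'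

lemma ERa_A (k : ℕ) (u v : List Bool) (hu : good u = true) (hv : good v = true)
    (hv0 : v ≠ []) :
    (At k u v).toReal - (At (k + 1) u v).toReal = ERa_fA k u v := by
  rcases u with _ | ⟨a, u'⟩
  · change (0 : ℝ≥0∞).toReal - (0 : ℝ≥0∞).toReal = 0
    rw [sub_self]
  · rcases a with _ | _
    · rfl
    · change (Ne (k + 1) u' v).toReal - (Ne (k + 1 + 1) u' v).toReal = sr (k + 1) u' v
      rw [ERa_Ne (k + 1) u' v (good_tail _ _ hu) hv hv0]
      ring

lemma ERa_B (k : ℕ) (u v : List Bool) (hu : good u = true) (hv : good v = true)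
    (hv0 : v ≠ []) :
    (Bt k u v).toReal - (Bt (k + 1) u v).toReal = ERa_fB k v u := by
  rcases v with _ | ⟨a, v'⟩
  · exact absurd rfl hv0
  · rcases a with _ | _
    · change (Ne (k + 1) u v').toReal - (Ne (k + 1 + 1) u v').toReal = sr (k + 1) u v'
      rw [ERa_Ne (k + 1) u v' hu (good_tail _ _ hv) (good_false_ne _ hv)]
      ring
    · rfl

lemma ERa_two (k : ℕ) (u v : List Bool) (hu : good u = true) (hv : good v = true) :
    ((k : ℝ) + 2) * sr (k + 1) u v - ((k : ℝ) + 1) * sr k u v = ERa_fA k u v - ERa_fB k v u := by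
  rcases eq_or_ne v [] with hv0 | hv0
  · subst hv0
    rcases u with _ | ⟨a, u'⟩
    · have h1 : ∀ j : ℕ, sr j [] [] = ((j : ℝ) + 1)⁻¹ := by
        intro j
        unfold sr
        rw [Se_nil_nil, ENNReal.toReal_inv, ERa_k]
      have e1 : ((k : ℝ) + 1) ≠ 0 := by positivity
      have e2 : ((k : ℝ) + 2) ≠ 0 := by positivity
      change ((k : ℝ) + 2) * sr (k + 1) [] [] - ((k : ℝ) + 1) * sr k [] [] = 0 - 0
      rw [h1, h1]
      have e3 : (((k + 1 : ℕ) : ℝ) + 1) = (k : ℝ) + 2 := by push_cast; ring
      rw [e3, mul_inv_cancel₀ e1, mul_inv_cancel₀ e2, sub_self, sub_self]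
    · rcases a with _ | _
      · have hu' := good_false_ne u' hu
        have hg := good_tail _ _ hu
        have hadm : adm (false :: u') = true := by
          simp [adm, hu]
        have h1 : ∀ j : ℕ, ((j : ℝ) + 1) * sr j (false :: u') [] + sr j u' [] =
            (ze (false :: u')).toReal := by
          intro j
          have h := congrArg ENNReal.toReal (Se_false_nil j u' hu')
          rw [ENNReal.toReal_add (ENNReal.mul_ne_top (ERa_k_ne_top j)
            (Se_ne_top (false :: u') [] hu hv j)) (Se_ne_top u' [] hg hv j),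
            ENNReal.toReal_mul, ERa_k] at h
          exact h
        have h2 := h1 k
        have h3 := h1 (k + 1)
        have e3 : (((k + 1 : ℕ) : ℝ) + 1) = (k : ℝ) + 2 := by push_cast; ring
        rw [e3] at h3
        change ((k : ℝ) + 2) * sr (k + 1) (false :: u') [] -
          ((k : ℝ) + 1) * sr k (false :: u') [] = (sr k u' [] - sr (k + 1) u' []) - 0
        linarith
      · have hg := good_tail _ _ hu
        have h1 : ∀ j : ℕ, ((j : ℝ) + 1) * sr j (true :: u') [] =
            ∑ i ∈ range (j + 1), sr i u' [] := by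
          intro j
          have h := congrArg ENNReal.toReal (Se_true_nil j u')
          rw [ENNReal.toReal_mul, ERa_k, ENNReal.toReal_sum
            (fun i _ => Se_ne_top u' [] hg hv i)] at h
          exact h
        have h2 := h1 k
        have h3 := h1 (k + 1)
        have e3 : (((k + 1 : ℕ) : ℝ) + 1) = (k : ℝ) + 2 := by push_cast; ring
        rw [e3, sum_range_succ] at h3
        change ((k : ℝ) + 2) * sr (k + 1) (true :: u') [] -
          ((k : ℝ) + 1) * sr k (true :: u') [] = sr (k + 1) u' [] - 0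
        linarith
  · have h1 := ERa_rec k u v hu hv hv0
    have h2 := ERa_rec (k + 1) u v hu hv hv0
    have e3 : (((k + 1 : ℕ) : ℝ) + 1) = (k : ℝ) + 2 := by push_cast; ring
    rw [e3] at h2
    rw [← ERa_A k u v hu hv hv0, ← ERa_B k u v hu hv hv0]
    linarith

/-- `v ≠ []` : `Se_rec` at `k` and at `k + 1`, all terms finite (`Se_ne_top`, `Ne_ne_top`), in real
numbers: `(k+1) S(k) + At(k) = Bt(k)`, `(k+2) S(k+1) + At(k+1) = Bt(k+1)`, subtract; for the `Ne` terms
`Ne (k+1) - Ne (k+2) = Se (k+1)` (`Ne_rec`). `v = []`: `Se_nil_nil`, `Se_false_nil`,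
`Se_true_nil` at `k` and `k + 1`. Left part of the right side (function in `x`): -/
theorem two_term (k : ℕ) (u v : List Bool) (hu : good u = true) (hv : good v = true) :
    ((k : ℝ) + 2) * sr (k + 1) u v - ((k : ℝ) + 1) * sr k u v =
      (match u with
        | [] => 0
        | false :: u' => sr k u' v - sr (k + 1) u' v
        | true :: u' => sr (k + 1) u' v) -
      (match v with
        | [] => 0
        | false :: v' => sr (k + 1) u v'
        | true :: v' => sr k u v' - sr (k + 1) u v') := by
  have h := ERa_two k u v hu hv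
  rcases u with _ | ⟨a, u'⟩
  · rcases v with _ | ⟨b, v'⟩
    · exact h
    · rcases b with _ | _
      · exact h
      · exact h
  · rcases a with _ | _
    · rcases v with _ | ⟨b, v'⟩
      · exact h
      · rcases b with _ | _
        · exact h
        · exact h
    · rcases v with _ | ⟨b, v'⟩
      · exact h
      · rcases b with _ | _
        · exact h
        · exact h

/-- apply the functional to `two_term` (with `u := v`, `v := w`); `muL la w v j = la (sr j v w)` -/
theorem muL_rec (la : ℝ →ₗ[ℚ] ℚ) (w v : List Bool) (hw : good w = true) (hv : good v = true)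
    (j : ℕ) : ((j : ℚ) + 2) * muL la w v (j + 1) - ((j : ℚ) + 1) * muL la w v j =
      Vp (muL la) w v j - Wp (muL la) w v j := by
  have h := congrArg la (ERa_two j v w hv hw)
  have hs : ∀ (q : ℚ) (x : ℝ), la ((q : ℝ) * x) = q * la x := by
    intro q x
    have e : (q : ℝ) * x = q • x := by rw [Rat.smul_def]
    rw [e, map_smul, smul_eq_mul]
  have e1 : ((j : ℝ) + 2) = (((j : ℚ) + 2 : ℚ) : ℝ) := by push_cast; ring
  have e2 : ((j : ℝ) + 1) = (((j : ℚ) + 1 : ℚ) : ℝ) := by push_cast; ring
  rw [map_sub, map_sub, e1, e2, hs, hs] at h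
  have hV : la (ERa_fA j v w) = Vp (muL la) w v j := by
    rcases v with _ | ⟨a, v'⟩
    · cases w <;> exact map_zero la
    · rcases a with _ | _
      · cases w <;> exact map_sub la _ _
      · cases w <;> rfl
  have hW : la (ERa_fB j w v) = Wp (muL la) w v j := by
    rcases w with _ | ⟨a, w'⟩
    · exact map_zero la
    · rcases a with _ | _
      · rfl
      · exact map_sub la _ _
  rw [hV, hW] at h
  exact h

/-- `Se 0 [] [] = 1` (`Se_nil_nil`) -/
theorem muL_nil (la : ℝ →ₗ[ℚ] ℚ) : muL la [] [] 0 = la 1 := by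
  unfold muL
  rw [Se_nil_nil]
  simp

end MZG
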