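import Pool.Agent.Lib.MP_e54452_nt.DG.SXa
import Pool.Agent.Lib.MP_e54452_nt.DG.E10c
import Pool.Agent.Lib.MP_e54452_nt.DG.GWa

/-!
# Row SXb: integrality of the numbers `sx i j u v`
-/

set_option autoImplicit false

namespace MZG

open Finset
open scoped ENNReal Nat Polynomial

/-- Induction on `j`, for all `i` with `i + j ≤ K`: `sx i (j+1) = sx i j - sx (i+1) j` (`sx_step`),
`Rep.sub`; `j = 0` is `Se_rep` (`Sx_zero`). -/
lemma sx_rep (K D : ℕ) (hD0 : 0 < D) (hD : ∀ j, 1 ≤ j → j ≤ K + 1 → j ∣ D)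
    (u v : List Bool) (hu : good u = true) (hv : good v = true) (j i : ℕ) (hij : i + j ≤ K) :
    Rep (u.length + v.length)
      (2 ^ j * (4 ^ (u.length + v.length) * (D : ℝ) ^ (u.length + v.length + 1)))
      ((D : ℝ) ^ (u.length + v.length + 1) * sx i j u v) := by
  induction j generalizing i with
  | zero =>
    have h1 := Se_rep K D hD0 hD u v hu hv i (by omega)
    have h2 : sx i 0 u v = (Se i u v).toReal := by
      unfold sx
      rw [Sx_zero]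
    rw [h2, pow_zero, one_mul]
    exact h1
  | succ j ih =>
    have h1 := ih i (by omega)
    have h2 := ih (i + 1) (by omega)
    have h3 : sx i (j + 1) u v = sx i j u v - sx (i + 1) j u v := by
      rw [sx_step i j u v hu hv]
      ring
    have h4 := Rep.sub h1 h2
    rw [h3, mul_sub]
    refine Rep.mono h4 le_rfl (le_of_eq ?_)
    ring

/-- `sx_rep` multiplied by the integer `D ^ (M - |u| - |v|)` (`Rep.zsmul`), and monotonicity
(`Rep.mono`). -/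
lemma sx_rep' (K D : ℕ) (hD0 : 0 < D) (hD : ∀ j, 1 ≤ j → j ≤ K + 1 → j ∣ D)
    (u v : List Bool) (hu : good u = true) (hv : good v = true) (M : ℕ)
    (hM : u.length + v.length ≤ M) (i j n : ℕ) (hij : i + j ≤ K) (hj : j ≤ n) :
    Rep M (2 ^ n * (4 ^ M * (D : ℝ) ^ (M + 1))) ((D : ℝ) ^ (M + 1) * sx i j u v) := by
  have h1 := sx_rep K D hD0 hD u v hu hv j i hij
  generalize u.length + v.length = l at h1 hM
  obtain ⟨d, rfl⟩ := Nat.exists_eq_add_of_le hM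
  have h2 := Rep.zsmul ((D : ℤ) ^ d) h1
  have hDpos : (0 : ℝ) < (D : ℝ) := by exact_mod_cast hD0
  have e1 : (((D : ℤ) ^ d : ℤ) : ℝ) = (D : ℝ) ^ d := by push_cast; rfl
  rw [e1, abs_of_nonneg (by positivity)] at h2
  have e2 : (D : ℝ) ^ d * ((D : ℝ) ^ (l + 1) * sx i j u v) =
      (D : ℝ) ^ (l + d + 1) * sx i j u v := by
    rw [← mul_assoc, ← pow_add]
    congr 2
    omega
  rw [e2] at h2
  refine Rep.mono h2 hM ?_
  have e3 : (D : ℝ) ^ d * (2 ^ j * (4 ^ l * (D : ℝ) ^ (l + 1))) =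
      (2 ^ j * 4 ^ l) * (D : ℝ) ^ (l + d + 1) := by
    have : (D : ℝ) ^ (l + d + 1) = (D : ℝ) ^ d * (D : ℝ) ^ (l + 1) := by
      rw [← pow_add]
      congr 1
      omega
    rw [this]
    ring
  rw [e3, ← mul_assoc]
  refine mul_le_mul_of_nonneg_right ?_ (by positivity)
  exact mul_le_mul (pow_le_pow_right₀ (by norm_num) hj) (pow_le_pow_right₀ (by norm_num) (by omega))
    (by positivity) (by positivity)

/-- With `D = dd (2n+1)` (`dvd_dd`, `dd_pos`), `K = 2n`, `M = 2s`: `t x * t' y` are integers;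
`Rep.sum` twice, `Rep.zsmul`; `∑ ∑ |t x| |t' y| ≤ (card * K0)^2`. -/
theorem BB_rep (s n : ℕ) (t t' : Idx s n → ℚ) (ht : ∀ x, ∃ z : ℤ, t x = z)
    (ht' : ∀ x, ∃ z : ℤ, t' x = z) (K0 : ℝ) (hK : ∀ x, |(t x : ℝ)| ≤ K0)
    (hK' : ∀ x, |(t' x : ℝ)| ≤ K0) (hK0 : 0 ≤ K0) :
    Rep (2 * s) ((Fintype.card (Idx s n) * K0) ^ 2 *
      (2 ^ n * (4 ^ (2 * s) * (dd (2 * n + 1) : ℝ) ^ (2 * s + 1))))
      ((dd (2 * n + 1) : ℝ) ^ (2 * s + 1) * BB t t') := by
  choose z hz using ht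
  choose z' hz' using ht'
  have hX : (0 : ℝ) ≤ 2 ^ n * (4 ^ (2 * s) * (dd (2 * n + 1) : ℝ) ^ (2 * s + 1)) := by positivity
  have hterm : ∀ x y : Idx s n,
      Rep (2 * s) (K0 * K0 * (2 ^ n * (4 ^ (2 * s) * (dd (2 * n + 1) : ℝ) ^ (2 * s + 1))))
        ((dd (2 * n + 1) : ℝ) ^ (2 * s + 1) *
          ((t x : ℝ) * (t' y : ℝ) * sx x.2 y.2 x.1 y.1)) := by
    intro x y
    have hx := (mem_GW s x.1.1).1 x.1.2
    have hy := (mem_GW s y.1.1).1 y.1.2
    have hx2 := x.2.2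
    have hy2 := y.2.2
    have h1 := sx_rep' (2 * n) (dd (2 * n + 1)) (dd_pos _) (fun j h1 h2 => dvd_dd j _ h1 h2)
      x.1.1 y.1.1 hx.1 hy.1 (2 * s) (by omega) x.2 y.2 n (by omega) (by omega)
    have h2 := Rep.zsmul (z x * z' y) h1
    have e1 : (((z x * z' y : ℤ)) : ℝ) = (t x : ℝ) * (t' y : ℝ) := by
      rw [hz x, hz' y]
      push_cast
      rfl
    rw [e1] at h2
    have e2 : (t x : ℝ) * (t' y : ℝ) * ((dd (2 * n + 1) : ℝ) ^ (2 * s + 1) *
        sx x.2 y.2 x.1.1 y.1.1) = (dd (2 * n + 1) : ℝ) ^ (2 * s + 1) *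
          ((t x : ℝ) * (t' y : ℝ) * sx x.2 y.2 x.1.1 y.1.1) := by ring
    rw [e2] at h2
    refine Rep.mono h2 le_rfl (mul_le_mul_of_nonneg_right ?_ hX)
    rw [abs_mul]
    exact mul_le_mul (hK x) (hK' y) (abs_nonneg _) hK0
  have hsum := Rep.sum (Finset.univ : Finset (Idx s n)) _ _
    (fun x _ => Rep.sum (Finset.univ : Finset (Idx s n)) _ _ (fun y _ => hterm x y))
  have e1 : (dd (2 * n + 1) : ℝ) ^ (2 * s + 1) * BB t t' =
      ∑ x : Idx s n, ∑ y : Idx s n, (dd (2 * n + 1) : ℝ) ^ (2 * s + 1) *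
        ((t x : ℝ) * (t' y : ℝ) * sx x.2 y.2 x.1 y.1) := by
    unfold BB
    rw [Finset.mul_sum]
    refine Finset.sum_congr rfl fun x _ => ?_
    rw [Finset.mul_sum]
  rw [e1]
  refine Rep.mono hsum le_rfl (le_of_eq ?_)
  simp only [Finset.sum_const, Finset.card_univ, nsmul_eq_mul]
  ring

end MZG
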