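import Pool.Agent.Lib.MP_e54452_nt.DG.SZa
import Pool.Agent.Lib.MP_e54452_nt.DG.SZb
import Pool.Agent.Lib.MP_e54452_nt.DG.C1a

/-!
# Row SZc: the form is small on the auxiliary functions
-/

set_option autoImplicit false

namespace MZG

open Finset
open scoped ENNReal Nat Polynomial

/-- `0 ≤ cc ≤ 1` (`c_nonneg`, `c_le_one`) -/
lemma cu_le {s n : ℕ} (t : Idx s n → ℚ) (K0 : ℝ) (hK : ∀ x, |(t x : ℝ)| ≤ K0) (k : ℕ) :
    |((cu t k : ℚ) : ℝ)| ≤ Fintype.card (Idx s n) * K0 := by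
  have hcc : ∀ (w : List Bool) (i : ℕ), |((cc w i k : ℚ) : ℝ)| ≤ 1 := by
    intro w i
    have h0 : (0 : ℚ) ≤ cc w i k := by
      unfold cc
      split_ifs
      · exact c_nonneg _ _
      · exact le_refl _
    have h1 : cc w i k ≤ 1 := by
      unfold cc
      split_ifs
      · exact c_le_one _ _
      · exact zero_le_one
    rw [abs_of_nonneg (by exact_mod_cast h0)]
    exact_mod_cast h1
  unfold cu
  push_cast
  refine (Finset.abs_sum_le_sum_abs _ _).trans ?_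
  have hb : ∀ x ∈ (Finset.univ : Finset (Idx s n)),
      |(t x : ℝ) * ((cc x.1 x.2 k : ℚ) : ℝ)| ≤ K0 := by
    intro x _
    rw [abs_mul]
    have h1 := hK x
    have h2 := hcc x.1 x.2
    have h3 := abs_nonneg (t x : ℝ)
    have h4 := abs_nonneg ((cc x.1 x.2 k : ℚ) : ℝ)
    calc |(t x : ℝ)| * |((cc x.1 x.2 k : ℚ) : ℝ)| ≤ |(t x : ℝ)| * 1 :=
          mul_le_mul_of_nonneg_left h2 h3
      _ ≤ K0 := by linarith
  refine (Finset.sum_le_card_nsmul _ _ _ hb).trans ?_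
  rw [nsmul_eq_mul, Finset.card_univ]

/-- `BB_hasSum`; only the terms with `k, l ≥ m` are nonzero; each is at most `(card K0)² bt k l` in
absolute value; `∑_{k,l ≥ m} bt k l = bt (m-1) (m-1) ≤ (1/4)^(m-1)` (`tsum_bt_tail`, `bt_diag`,
in real numbers). -/
theorem BB_small {s n : ℕ} (t t' : Idx s n → ℚ) (K0 : ℝ) (hK : ∀ x, |(t x : ℝ)| ≤ K0)
    (hK' : ∀ x, |(t' x : ℝ)| ≤ K0) (hK0 : 0 ≤ K0) (m : ℕ) (hm : 1 ≤ m)
    (h : ∀ k < m, cu t k = 0) (h' : ∀ k < m, cu t' k = 0) :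
    |BB t t'| ≤ (Fintype.card (Idx s n) * K0) ^ 2 * (1 / 4) ^ (m - 1) := by
  obtain ⟨p, rfl⟩ : ∃ p, m = p + 1 := ⟨m - 1, by omega⟩
  rw [Nat.add_sub_cancel]
  have hS := BB_hasSum t t'
  set e : ℕ × ℕ → ℕ × ℕ := fun q => (p + 1 + q.1, p + 1 + q.2) with he
  have hinj : Function.Injective e := by
    intro a b hab
    simp only [he, Prod.mk.injEq, Nat.add_left_cancel_iff] at hab
    exact Prod.ext hab.1 hab.2
  have hS' := (hinj.hasSum_iff (f := fun p : ℕ × ℕ => ((cu t p.1 : ℚ) : ℝ) * ((cu t' p.2 : ℚ) : ℝ) *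
      (bt p.1 p.2).toReal) (a := BB t t') (by
    intro x hx
    by_cases h1 : x.1 < p + 1
    · rw [h _ h1]
      simp
    · by_cases h2 : x.2 < p + 1
      · rw [h' _ h2]
        simp
      · exfalso
        apply hx
        refine ⟨(x.1 - (p + 1), x.2 - (p + 1)), ?_⟩
        simp only [he]
        exact Prod.ext (by simp only; omega) (by simp only; omega))).2 hS
  have hT : ∑' q : ℕ × ℕ, bt (p + 1 + q.1) (p + 1 + q.2) = bt p p := by
    rw [← tsum_bt_tail p]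
    exact ENNReal.tsum_prod (f := fun k l => bt (p + 1 + k) (p + 1 + l))
  have hfin : bt p p ≠ ∞ := ((bt_diag p).trans_lt ENNReal.ofReal_lt_top).ne
  have hT' : HasSum (fun q : ℕ × ℕ => (bt (p + 1 + q.1) (p + 1 + q.2)).toReal) (bt p p).toReal := by
    have hne : ∑' q : ℕ × ℕ, bt (p + 1 + q.1) (p + 1 + q.2) ≠ ∞ := by rw [hT]; exact hfin
    have h1 := ENNReal.hasSum_toReal hne
    have h2 : ∑' q : ℕ × ℕ, (bt (p + 1 + q.1) (p + 1 + q.2)).toReal = (bt p p).toReal := by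
      rw [← hT]
      exact (ENNReal.tsum_toReal_eq (fun q => ENNReal.ne_top_of_tsum_ne_top hne q)).symm
    rw [h2] at h1
    exact h1
  have hT2 := hT'.mul_left ((Fintype.card (Idx s n) * K0 : ℝ) ^ 2)
  have hle := hS'.norm_le_of_bounded hT2 (fun q => by
    simp only [Function.comp_apply, Real.norm_eq_abs, abs_mul, he]
    have hb : 0 ≤ (bt (p + 1 + q.1) (p + 1 + q.2)).toReal := ENNReal.toReal_nonneg
    rw [abs_of_nonneg hb, pow_two]
    refine mul_le_mul_of_nonneg_right ?_ hb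
    exact mul_le_mul (cu_le t K0 hK _) (cu_le t' K0 hK' _) (abs_nonneg _) (by positivity))
  rw [Real.norm_eq_abs] at hle
  refine hle.trans ?_
  refine mul_le_mul_of_nonneg_left ?_ (by positivity)
  have := ENNReal.toReal_mono ENNReal.ofReal_ne_top (bt_diag p)
  rwa [ENNReal.toReal_ofReal (by positivity)] at this

end MZG
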