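import Pool.Agent.Lib.MP_e54452_nt.DG.KEYb
import Pool.Agent.Lib.MP_e54452_nt.DG.SXb
import Pool.Agent.Lib.MP_e54452_nt.DG.SZc
import Pool.Agent.Lib.MP_e54452_nt.DG.CRc

/-!
# Row FIa: the inequality for each `n`
-/

set_option autoImplicit false

namespace MZG

open Finset Module
open scoped ENNReal Nat Polynomial

/-- the height: `(card K0)^2 2^n 4^(4r) D^(4r+1)`, `card = 4^r (n+1)`, `K0 = exp (100 r (n+1))` -/
noncomputable def HH (r n : ℕ) : ℝ :=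
  ((4 ^ r * (n + 1) : ℕ) * Real.exp (100 * r * ((n + 1 : ℕ) : ℝ))) ^ 2 *
    (2 ^ n * (4 ^ (2 * (2 * r)) * (dd (2 * n + 1) : ℝ) ^ (2 * (2 * r) + 1)))

/-- the size: `D^(4r+1) (card K0)^2 (1/4)^(m-1)`, `m = 2^r (n+1)` -/
noncomputable def EE (r n : ℕ) : ℝ :=
  (dd (2 * n + 1) : ℝ) ^ (2 * (2 * r) + 1) *
    (((4 ^ r * (n + 1) : ℕ) * Real.exp (100 * r * ((n + 1 : ℕ) : ℝ))) ^ 2 *
      (1 / 4) ^ (2 ^ r * (n + 1) - 1))

/-- `criterion` with `S = {D^(4r+1) * BB t t'}` (`t, t' ∈ TT r n`), `W = 4r`: `one_mem` (the factor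
`D^(4r+1) ≠ 0` does not change the span), `BB_rep`, `BB_small` (`card_Idx`, `2^(2r) = 4^r`). -/
theorem ineq_n (r : ℕ) (hr : 4 ≤ r) : ∃ C : ℝ, 1 ≤ C ∧ ∀ n : ℕ, 8 * 4 ^ r ≤ n + 1 →
    1 ≤ (C * HH r n) ^ (finrank ℚ (MZ (4 * r))) * (C * EE r n) := by
  obtain ⟨C, hC1, hC⟩ := criterion (4 * r)
  refine ⟨C, hC1, fun n hn => ?_⟩
  have hdd : (1 : ℝ) ≤ (dd (2 * n + 1) : ℝ) := by
    exact_mod_cast dd_pos (2 * n + 1)
  have hcard : Fintype.card (Idx (2 * r) n) = 4 ^ r * (n + 1) := by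
    rw [card_Idx, pow_mul]; norm_num
  have hK1 : 1 ≤ Real.exp (100 * r * ((n + 1 : ℕ) : ℝ)) := Real.one_le_exp (by positivity)
  have hc1 : (1 : ℝ) ≤ ((4 ^ r * (n + 1) : ℕ) : ℝ) := by
    exact_mod_cast Nat.one_le_iff_ne_zero.mpr (by positivity)
  have h4 : 4 * r = 2 * (2 * r) := by ring
  have hH : 1 ≤ HH r n := by
    unfold HH
    have h1 : (1 : ℝ) ≤ (((4 ^ r * (n + 1) : ℕ) : ℝ) *
        Real.exp (100 * r * ((n + 1 : ℕ) : ℝ))) ^ 2 :=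
      one_le_pow₀ (one_le_mul_of_one_le_of_one_le hc1 hK1)
    have h2 : (1 : ℝ) ≤ 2 ^ n := one_le_pow₀ (by norm_num)
    have h3 : (1 : ℝ) ≤ 4 ^ (2 * (2 * r)) := one_le_pow₀ (by norm_num)
    have h5 : (1 : ℝ) ≤ (dd (2 * n + 1) : ℝ) ^ (2 * (2 * r) + 1) := one_le_pow₀ hdd
    exact one_le_mul_of_one_le_of_one_le h1 (one_le_mul_of_one_le_of_one_le h2
      (one_le_mul_of_one_le_of_one_le h3 h5))
  have hE : 0 ≤ EE r n := by
    unfold EE; positivity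
  set D : ℝ := (dd (2 * n + 1) : ℝ) ^ (2 * (2 * r) + 1) with hD
  have hD0 : D ≠ 0 := by
    have : (0 : ℝ) < (dd (2 * n + 1) : ℝ) := by linarith
    positivity
  have hm : 1 ≤ 2 ^ r * (n + 1) := Nat.one_le_iff_ne_zero.mpr (by positivity)
  refine hC {y : ℝ | ∃ t ∈ TT r n, ∃ t' ∈ TT r n, y = D * BB t t'} (HH r n) (EE r n) hH hE
    ?_ ?_ ?_
  · rintro y ⟨t, ht, t', ht', rfl⟩
    have h := BB_rep (2 * r) n t t' ht.1 ht'.1 (Real.exp (100 * r * ((n + 1 : ℕ) : ℝ)))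
      ht.2.2 ht'.2.2 (Real.exp_pos _).le
    rw [hcard] at h
    rw [h4]
    exact h
  · rintro y ⟨t, ht, t', ht', rfl⟩
    have h := BB_small t t' (Real.exp (100 * r * ((n + 1 : ℕ) : ℝ)))
      ht.2.2 ht'.2.2 (Real.exp_pos _).le (2 ^ r * (n + 1)) hm ht.2.1 ht'.2.1
    rw [hcard] at h
    have hDp : 0 ≤ D := by positivity
    rw [abs_mul, abs_of_nonneg hDp]
    unfold EE
    exact mul_le_mul_of_nonneg_left h hDp
  · have h1 := one_mem r n hr hn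
    have hsub : Submodule.span ℚ {y : ℝ | ∃ t ∈ TT r n, ∃ t' ∈ TT r n, y = BB t t'} ≤
        Submodule.span ℚ {y : ℝ | ∃ t ∈ TT r n, ∃ t' ∈ TT r n, y = D * BB t t'} := by
      rw [Submodule.span_le]
      rintro y ⟨t, ht, t', ht', rfl⟩
      have hmem : D * BB t t' ∈
          Submodule.span ℚ {y : ℝ | ∃ t ∈ TT r n, ∃ t' ∈ TT r n, y = D * BB t t'} :=
        Submodule.subset_span ⟨t, ht, t', ht', rfl⟩
      have h2 := Submodule.smul_mem _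
        (((dd (2 * n + 1) : ℚ) ^ (2 * (2 * r) + 1))⁻¹) hmem
      have h3 : (((dd (2 * n + 1) : ℚ) ^ (2 * (2 * r) + 1))⁻¹) • (D * BB t t') = BB t t' := by
        rw [Rat.smul_def]
        push_cast
        rw [← hD, ← mul_assoc, inv_mul_cancel₀ hD0, one_mul]
      rw [h3] at h2
      exact h2
    exact hsub h1

end MZG
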