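import Pool.Agent.Lib.MP_e54452_nt.DG.GWa

/-!
# Row KEYa: the bilinear form and the vectors of bounded degree
-/

set_option autoImplicit false

namespace MZG

open Finset Module
open scoped ENNReal Nat Polynomial

theorem KEYa_add_left {s n : ℕ} (t t' u : Idx s n → ℚ) : BB (t + t') u = BB t u + BB t' u := by
  unfold BB
  rw [← Finset.sum_add_distrib]
  refine Finset.sum_congr rfl fun x _ => ?_
  rw [← Finset.sum_add_distrib]
  refine Finset.sum_congr rfl fun y _ => ?_
  rw [Pi.add_apply]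
  push_cast
  ring

theorem KEYa_smul_left {s n : ℕ} (q : ℚ) (t u : Idx s n → ℚ) : BB (q • t) u = q • BB t u := by
  unfold BB
  rw [Finset.smul_sum]
  refine Finset.sum_congr rfl fun x _ => ?_
  rw [Finset.smul_sum]
  refine Finset.sum_congr rfl fun y _ => ?_
  rw [Pi.smul_apply, smul_eq_mul, Rat.smul_def]
  push_cast
  ring

theorem KEYa_add_right {s n : ℕ} (t u u' : Idx s n → ℚ) : BB t (u + u') = BB t u + BB t u' := by
  unfold BB
  rw [← Finset.sum_add_distrib]
  refine Finset.sum_congr rfl fun x _ => ?_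
  rw [← Finset.sum_add_distrib]
  refine Finset.sum_congr rfl fun y _ => ?_
  rw [Pi.add_apply]
  push_cast
  ring

theorem KEYa_smul_right {s n : ℕ} (q : ℚ) (t u : Idx s n → ℚ) : BB t (q • u) = q • BB t u := by
  unfold BB
  rw [Finset.smul_sum]
  refine Finset.sum_congr rfl fun x _ => ?_
  rw [Finset.smul_sum]
  refine Finset.sum_congr rfl fun y _ => ?_
  rw [Pi.smul_apply, smul_eq_mul, Rat.smul_def]
  push_cast
  ring

/-- `BB` as a bilinear map composed with a functional -/
noncomputable def bform (s n : ℕ) (la : ℝ →ₗ[ℚ] ℚ) :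
    (Idx s n → ℚ) →ₗ[ℚ] (Idx s n → ℚ) →ₗ[ℚ] ℚ :=
  LinearMap.mk₂ ℚ (fun t t' => la (BB t t'))
    (fun t t' u => by rw [KEYa_add_left, map_add])
    (fun q t u => by rw [KEYa_smul_left, map_smul])
    (fun t u u' => by rw [KEYa_add_right, map_add])
    (fun q t u => by rw [KEYa_smul_right, map_smul])

/-- the vectors of degree at most `a` -/
def Va (s n a : ℕ) : Submodule ℚ (Idx s n → ℚ) where
  carrier := {t | ∀ x : Idx s n, a < x.2 → t x = 0}
  add_mem' := by
    intro t t' h h' x hx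
    simp [h x hx, h' x hx]
  zero_mem' := by
    intro x _
    rfl
  smul_mem' := by
    intro q t h x hx
    simp [h x hx]

theorem KEYa_mem (s n a : ℕ) (t : Idx s n → ℚ) :
    t ∈ Va s n a ↔ ∀ x : Idx s n, a < (x.2 : ℕ) → t x = 0 := Iff.rfl

/-- extension by zero -/
noncomputable def KEYa_ext (s n a : ℕ) (f : {x : Idx s n // (x.2 : ℕ) ≤ a} → ℚ) :
    Idx s n → ℚ := fun x => if h : (x.2 : ℕ) ≤ a then f ⟨x, h⟩ else 0

/-- restriction to the indices of degree at most `a` -/
noncomputable def KEYa_equiv (s n a : ℕ) :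
    Va s n a ≃ₗ[ℚ] ({x : Idx s n // (x.2 : ℕ) ≤ a} → ℚ) where
  toFun t := fun x => t.1 x.1
  map_add' := fun _ _ => rfl
  map_smul' := fun _ _ => rfl
  invFun f := ⟨KEYa_ext s n a f, by
    rw [KEYa_mem]
    intro x hx
    unfold KEYa_ext
    rw [dif_neg (by omega)]⟩
  left_inv := by
    intro t
    apply Subtype.ext
    funext x
    show KEYa_ext s n a (fun x => t.1 x.1) x = t.1 x
    unfold KEYa_ext
    by_cases h : (x.2 : ℕ) ≤ a
    · rw [dif_pos h]
    · rw [dif_neg h]
      exact ((KEYa_mem s n a t.1).mp t.2 x (by omega)).symm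
  right_inv := by
    intro f
    funext x
    show KEYa_ext s n a f x.1 = f x
    unfold KEYa_ext
    rw [dif_pos x.2]

/-- the indices of degree at most `a` -/
def KEYa_idx (s n a : ℕ) (ha : a ≤ n) :
    {x : Idx s n // (x.2 : ℕ) ≤ a} ≃ {w : List Bool // w ∈ GW s} × Fin (a + 1) where
  toFun x := (x.1.1, ⟨x.1.2, by have := x.2; omega⟩)
  invFun y := ⟨(y.1, ⟨y.2, by have := y.2.2; omega⟩), by
    show (y.2 : ℕ) ≤ a
    have := y.2.2
    omega⟩
  left_inv := by
    intro x
    rfl
  right_inv := by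
    intro y
    rfl

/-- for `a ≤ n` the space is isomorphic to `{x // x.2 ≤ a} → ℚ` with `2^s (a+1)` indices
(`card_GW`) -/
theorem finrank_Va (s n a : ℕ) (ha : a ≤ n) : finrank ℚ (Va s n a) = 2 ^ s * (a + 1) := by
  rw [LinearEquiv.finrank_eq (KEYa_equiv s n a), Module.finrank_fintype_fun_eq_card,
    Fintype.card_congr (KEYa_idx s n a ha), Fintype.card_prod, Fintype.card_fin,
    Fintype.card_coe, card_GW]

end MZG
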