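import Pool.Agent.Lib.MP_e54452_nt.DG.Defs3
import Pool.Agent.Lib.MP_e54452_nt.DG.E1b
import Pool.Agent.Lib.MP_e54452_nt.DG.E10a

/-!
# Row SXa: the numbers `sx i j u v = ∫ x^i (1-x)^j L_u(x) L_v(1-x)`
-/

set_option autoImplicit false

namespace MZG

open Finset
open scoped ENNReal Nat Polynomial

lemma Sx_zero (i : ℕ) (u v : List Bool) : Sx i 0 u v = Se i u v := by
  unfold Sx Se
  simp only [add_zero]

/-- `bt_symm` and `ENNReal.tsum_comm` -/
lemma Sx_symm (i j : ℕ) (u v : List Bool) : Sx i j u v = Sx j i v u := by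
  unfold Sx
  rw [ENNReal.tsum_comm]
  apply tsum_congr
  intro n
  apply tsum_congr
  intro m
  rw [bt_symm (m + i) (n + j), mul_comm (ce u m) (ce v n)]

/-- `bt_pascal` termwise, `ENNReal.tsum_add` -/
lemma Sx_step (i j : ℕ) (u v : List Bool) :
    Sx i j u v = Sx (i + 1) j u v + Sx i (j + 1) u v := by
  unfold Sx
  rw [← ENNReal.tsum_add]
  apply tsum_congr
  intro m
  rw [← ENNReal.tsum_add]
  apply tsum_congr
  intro n
  rw [bt_pascal (m + i) (n + j), mul_add]
  rfl

/-- induction on `j` by `Sx_step` (`Sx i (j+1) ≤ Sx i j`), `Sx_zero`, `Se_ne_top` -/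
lemma Sx_ne_top (i j : ℕ) (u v : List Bool) (hu : good u = true) (hv : good v = true) :
    Sx i j u v ≠ ∞ := by
  induction j with
  | zero => rw [Sx_zero]; exact Se_ne_top u v hu hv i
  | succ j ih =>
    intro h
    apply ih
    rw [Sx_step, h, add_top]

lemma sx_symm (i j : ℕ) (u v : List Bool) : sx i j u v = sx j i v u := by
  unfold sx
  rw [Sx_symm]

lemma sx_step (i j : ℕ) (u v : List Bool) (hu : good u = true) (hv : good v = true) :
    sx i j u v = sx (i + 1) j u v + sx i (j + 1) u v := by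
  unfold sx
  rw [Sx_step, ENNReal.toReal_add (Sx_ne_top _ _ u v hu hv) (Sx_ne_top _ _ u v hu hv)]

end MZG
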