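import Pool.Agent.Lib.MP_e54452_nt.DG.ERa
import Pool.Agent.Lib.MP_e54452_nt.DG.SXa
import Pool.Agent.Lib.MP_e54452_nt.DG.GWa

/-!
# Row RKa: rank lemma (input), and the change of variable `y = 1 - x`
-/

set_option autoImplicit false

namespace MZG

open Finset
open scoped ENNReal Nat Polynomial

/-- the functional `x^i ↦ a i` -/
noncomputable def RKa_F (a : ℕ → ℝ) (g : ℚ[X]) : ℝ := g.sum fun i t => (t : ℝ) * a i

theorem RKa_add (a : ℕ → ℝ) (f g : ℚ[X]) : RKa_F a (f + g) = RKa_F a f + RKa_F a g := by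
  unfold RKa_F
  refine Polynomial.sum_add_index f g _ (fun i => by simp) (fun i s t => ?_)
  push_cast
  ring

theorem RKa_monomial (a : ℕ → ℝ) (n : ℕ) (t : ℚ) :
    RKa_F a (Polynomial.monomial n t) = (t : ℝ) * a n := by
  unfold RKa_F
  exact Polynomial.sum_monomial_index t _ (by simp)

theorem RKa_C_mul (a : ℕ → ℝ) (s : ℚ) (g : ℚ[X]) :
    RKa_F a (Polynomial.C s * g) = (s : ℝ) * RKa_F a g := by
  induction g using Polynomial.induction_on' with
  | add p q hp hq => rw [mul_add, RKa_add, RKa_add, hp, hq]; ring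
  | monomial n t =>
    rw [Polynomial.C_mul_monomial, RKa_monomial, RKa_monomial]
    push_cast
    ring

theorem RKa_neg (a : ℕ → ℝ) (g : ℚ[X]) : RKa_F a (-g) = -RKa_F a g := by
  have h := RKa_C_mul a (-1) g
  have h2 : Polynomial.C (-1 : ℚ) * g = -g := by simp
  rw [h2] at h
  rw [h]
  push_cast
  ring

theorem RKa_sub (a : ℕ → ℝ) (f g : ℚ[X]) : RKa_F a (f - g) = RKa_F a f - RKa_F a g := by
  rw [sub_eq_add_neg, RKa_add, RKa_neg, ← sub_eq_add_neg]

theorem RKa_X_mul (a : ℕ → ℝ) (g : ℚ[X]) :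
    RKa_F a (Polynomial.X * g) = RKa_F (fun i => a (i + 1)) g := by
  induction g using Polynomial.induction_on' with
  | add p q hp hq => rw [mul_add, RKa_add, RKa_add, hp, hq]
  | monomial n t =>
    rw [Polynomial.X_mul_monomial, RKa_monomial, RKa_monomial]

theorem RKa_pow (u v : List Bool) (hu : good u = true) (hv : good v = true) (i : ℕ) :
    ∀ j : ℕ, RKa_F (fun k => sx 0 (k + j) u v) ((1 - Polynomial.X) ^ i) = sx i j u v := by
  induction i with
  | zero =>
    intro j
    have h : ((1 - Polynomial.X : ℚ[X]) ^ 0) = Polynomial.monomial 0 1 := by simp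
    rw [h, RKa_monomial]
    simp
  | succ i ih =>
    intro j
    have h : ((1 - Polynomial.X : ℚ[X]) ^ (i + 1)) =
        (1 - Polynomial.X) ^ i - Polynomial.X * (1 - Polynomial.X) ^ i := by ring
    rw [h, RKa_sub, RKa_X_mul, ih j]
    have h2 : (fun k => sx 0 (k + 1 + j) u v) = fun k => sx 0 (k + (j + 1)) u v := by
      funext k
      rw [show k + 1 + j = k + (j + 1) by ring]
    have h3 := ih (j + 1)
    rw [h2, h3]
    have h4 := sx_step i j u v hu hv
    linarith

/-- For a polynomial `f`, `∑ f_i sx i j u v = ∑ g_i sx 0 (i+j) u v` with `g = f.comp (1 - X)`.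
Define the ℚ-linear maps `Φ j f = f.sum fun i t => t * sx i j u v`,
`Ψ j g = g.sum fun i t => t * sx 0 (i+j) u v` (real valued); show
`Ψ j ((1-X)^i) = sx i j u v` by induction on `i`, for all `j`: `Ψ j ((1-X)^(i+1)) = Ψ j ((1-X)^i) -
Ψ j (X (1-X)^i) = Ψ j ((1-X)^i) - Ψ (j+1) ((1-X)^i) = sx i j - sx i (j+1) = sx (i+1) j` (`sx_step`);
then by linearity (`Polynomial.induction_on'` or `Polynomial.sum_def`). -/
theorem comp_sx (u v : List Bool) (hu : good u = true) (hv : good v = true) (f : ℚ[X]) (j : ℕ) :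
    (f.sum fun i t => (t : ℝ) * sx i j u v) =
      ((f.comp (1 - Polynomial.X)).sum fun i t => (t : ℝ) * sx 0 (i + j) u v) := by
  change RKa_F (fun i => sx i j u v) f =
    RKa_F (fun i => sx 0 (i + j) u v) (f.comp (1 - Polynomial.X))
  induction f using Polynomial.induction_on' with
  | add p q hp hq => rw [Polynomial.add_comp, RKa_add, RKa_add, hp, hq]
  | monomial n t =>
    rw [RKa_monomial, Polynomial.monomial_comp, RKa_C_mul, RKa_pow u v hu hv]

end MZG
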