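import Pool.Agent.Lib.MP_e54452_nt.DG.RK
import Pool.Agent.Lib.MP_e54452_nt.DG.RKa

/-!
# Row RKb: the form `la (BB t t')` has trivial left kernel in small degree
-/

set_option autoImplicit false

namespace MZG

open Finset
open scoped ENNReal Nat Polynomial

/-- the polynomial of a word -/
noncomputable def RKb_F {s n : ℕ} (t : Idx s n → ℚ) (w : List Bool) : ℚ[X] :=
  if h : w ∈ GW s then ∑ i : Fin (n + 1), Polynomial.monomial (i : ℕ) (t (⟨w, h⟩, i)) else 0

lemma RKb_coeff {s n : ℕ} (t : Idx s n → ℚ) (w : List Bool) (h : w ∈ GW s) (j : ℕ)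
    (hj : j < n + 1) : (RKb_F t w).coeff j = t (⟨w, h⟩, ⟨j, hj⟩) := by
  unfold RKb_F
  rw [dif_pos h, Polynomial.finsetSum_coeff]
  rw [Finset.sum_eq_single (⟨j, hj⟩ : Fin (n + 1))]
  · simp
  · intro b _ hb
    rw [Polynomial.coeff_monomial, if_neg]
    intro hc
    exact hb (Fin.ext hc)
  · intro hc
    exact absurd (Finset.mem_univ _) hc

lemma RKb_coeff' {s n : ℕ} (t : Idx s n → ℚ) (w : List Bool) (j : ℕ)
    (hj : ¬ j < n + 1) : (RKb_F t w).coeff j = 0 := by
  unfold RKb_F
  split_ifs with h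
  · rw [Polynomial.finsetSum_coeff]
    apply Finset.sum_eq_zero
    intro b _
    rw [Polynomial.coeff_monomial, if_neg]
    intro hc
    exact hj (hc ▸ b.2)
  · simp

lemma RKb_deg {s n : ℕ} (a : ℕ) (t : Idx s n → ℚ) (ha : ∀ x : Idx s n, a < x.2 → t x = 0)
    (w : List Bool) : (RKb_F t w).natDegree ≤ a := by
  rw [Polynomial.natDegree_le_iff_coeff_eq_zero]
  intro N hN
  by_cases h : w ∈ GW s
  · by_cases hj : N < n + 1
    · rw [RKb_coeff t w h N hj]
      exact ha _ hN
    · exact RKb_coeff' t w N hj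
  · unfold RKb_F
    rw [dif_neg h]; simp

lemma RKb_deg' {s n : ℕ} (t : Idx s n → ℚ) (w : List Bool) : (RKb_F t w).natDegree < n + 1 := by
  rw [Nat.lt_succ_iff, Polynomial.natDegree_le_iff_coeff_eq_zero]
  intro N hN
  exact RKb_coeff' t w N (by omega)

/-- linearity of the functional -/
lemma RKb_la (la : ℝ →ₗ[ℚ] ℚ) (p : ℚ[X]) (y : ℕ → ℝ) :
    la (p.sum fun i x => (x : ℝ) * y i) = p.sum fun i x => x * la (y i) := by
  rw [Polynomial.sum_def, Polynomial.sum_def, map_sum]
  apply Finset.sum_congr rfl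
  intro i _
  have : ((p.coeff i : ℚ) : ℝ) * y i = (p.coeff i) • y i := by rw [Rat.smul_def]
  rw [this, map_smul, smul_eq_mul]

/-- value of the form at a coordinate vector -/
lemma RKb_BB {s n : ℕ} (t : Idx s n → ℚ) (v : {w : List Bool // w ∈ GW s}) (j : Fin (n + 1)) :
    BB t (Pi.single (v, j) 1) = ∑ w : {w : List Bool // w ∈ GW s},
      (RKb_F t w.1).sum fun i x => (x : ℝ) * sx i j w.1 v.1 := by
  classical
  unfold BB
  have h1 : ∀ x : Idx s n, (∑ y : Idx s n, (t x : ℝ) *
      (((Pi.single (v, j) (1 : ℚ) : Idx s n → ℚ) y : ℚ) : ℝ) * sx x.2 y.2 x.1 y.1) =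
      (t x : ℝ) * sx x.2 j x.1 v.1 := by
    intro x
    rw [Finset.sum_eq_single (v, j)]
    · simp
    · intro y _ hy
      rw [Pi.single_eq_of_ne hy]
      simp
    · intro hc
      exact absurd (Finset.mem_univ _) hc
  rw [Finset.sum_congr rfl (fun x _ => h1 x), Fintype.sum_prod_type]
  apply Finset.sum_congr rfl
  intro w _
  rw [Polynomial.sum_over_range' _ (by intro i; simp) (n + 1) (RKb_deg' t w.1), Finset.sum_range]
  apply Finset.sum_congr rfl
  intro i _
  rw [RKb_coeff t w.1 w.2 i i.2]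

/-- Let `F w = ∑_{i ≤ n} t (w,i) X^i` for `w ∈ GW s` (degree `≤ a` by `ha`), `Q w = (F w).comp (1 - X)`
(a `Finsupp` supported in `GW s`; degree `≤ a`). For `v ∈ GW s`, `j ≤ n`, take `t'` = the coordinate
vector at `(v, j)`: `0 = la (BB t t') = la (∑_w ∑_i t (w,i) sx i j w v)
= la (∑_w ∑_i (Q w)_i sx 0 (i+j) w v)` (`comp_sx`) `= ∑_w ∑_i (Q w)_i muL la w v (i+j)`, since
`sx 0 k w v = sx k 0 v w = (Se k v w).toReal` (`sx_symm`, `Sx_zero`) and `la` is ℚ-linear.
`rank_lemma` with `mu = muL la` (`muL_rec`, `muL_nil`) gives `Q = 0`, hence `F w = 0`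
(`comp (1 - X)` is injective: apply it twice), hence `t = 0`. -/
theorem left_kernel (s n a : ℕ) (la : ℝ →ₗ[ℚ] ℚ) (hla : la 1 ≠ 0) (hn : a + 4 * 2 ^ s ≤ n)
    (t : Idx s n → ℚ) (ha : ∀ x : Idx s n, a < x.2 → t x = 0)
    (h : ∀ t' : Idx s n → ℚ, la (BB t t') = 0) : t = 0 := by
  classical
  let Q : List Bool →₀ ℚ[X] := Finsupp.onFinset (GW s)
    (fun w => (RKb_F t w).comp (1 - Polynomial.X)) (by
      intro w hw
      by_contra hc
      apply hw
      have : RKb_F t w = 0 := by unfold RKb_F; rw [dif_neg hc]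
      rw [this, Polynomial.zero_comp])
  have hQ0 : Q = 0 := by
    refine rank_lemma s (muL la) (by rw [muL_nil]; exact hla)
      (fun w v hw hv _ _ j => muL_rec la w v hw hv j) a n hn Q ?_ ?_ ?_
    · intro w hw
      exact (mem_GW s w).1 (Finsupp.support_onFinset_subset hw)
    · intro w
      change ((RKb_F t w).comp (1 - Polynomial.X)).natDegree ≤ a
      rw [Polynomial.natDegree_comp]
      have h1 : (1 - Polynomial.X : ℚ[X]).natDegree ≤ 1 := by
        refine (Polynomial.natDegree_sub_le _ _).trans ?_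
        simp
      calc (RKb_F t w).natDegree * (1 - Polynomial.X : ℚ[X]).natDegree
          ≤ (RKb_F t w).natDegree * 1 := Nat.mul_le_mul_left _ h1
        _ ≤ a := by rw [mul_one]; exact RKb_deg a t ha w
    · intro v hv hvs j hj
      have hvG : v ∈ GW s := (mem_GW s v).2 ⟨hv, hvs⟩
      have h1 := h (Pi.single (⟨v, hvG⟩, ⟨j, Nat.lt_succ_of_le hj⟩) 1)
      rw [RKb_BB, map_sum] at h1
      have h2 : ∀ w : {w : List Bool // w ∈ GW s},
          la ((RKb_F t w.1).sum fun i x => (x : ℝ) * sx i j w.1 v) =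
          ((RKb_F t w.1).comp (1 - Polynomial.X)).sum fun i x => x * muL la w.1 v (i + j) := by
        intro w
        have hw := (mem_GW s w.1).1 w.2
        rw [comp_sx w.1 v hw.1 hv, RKb_la]
        congr 1
        funext i x
        have h3 : sx 0 (i + j) w.1 v = (Se (i + j) v w.1).toReal := by
          rw [sx_symm]
          unfold sx
          rw [Sx_zero]
        rw [h3]
        rfl
      have h4 : (∑ w : {w : List Bool // w ∈ GW s},
          ((RKb_F t w.1).comp (1 - Polynomial.X)).sum fun i x => x * muL la w.1 v (i + j)) = 0 := by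
        rw [← h1]
        exact Finset.sum_congr rfl (fun w _ => (h2 w).symm)
      rw [Finsupp.onFinset_sum _ (by intro w; exact Polynomial.sum_zero_index _)]
      rw [← h4]
      exact (Finset.sum_coe_sort (GW s) (fun w =>
        ((RKb_F t w).comp (1 - Polynomial.X)).sum fun i x => x * muL la w v (i + j))).symm
  funext x
  obtain ⟨⟨w, hw⟩, i⟩ := x
  have h5 : (RKb_F t w).comp (1 - Polynomial.X) = 0 := by
    have := congrArg (fun q : List Bool →₀ ℚ[X] => q w) hQ0
    exact this
  have h6 : RKb_F t w = 0 := by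
    have h7 : ((RKb_F t w).comp (1 - Polynomial.X)).comp (1 - Polynomial.X) = RKb_F t w := by
      rw [Polynomial.comp_assoc]
      have : (1 - Polynomial.X : ℚ[X]).comp (1 - Polynomial.X) = Polynomial.X := by
        simp
      rw [this, Polynomial.comp_X]
    rw [← h7, h5, Polynomial.zero_comp]
  have h8 := RKb_coeff t w hw i i.2
  rw [h6, Polynomial.coeff_zero] at h8
  exact h8.symm

end MZG
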