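import Pool.Agent.Lib.MP_e54452_nt.DG.SId
import Pool.Agent.Lib.MP_e54452_nt.DG.RKb
import Pool.Agent.Lib.MP_e54452_nt.DG.LAa
import Pool.Agent.Lib.MP_e54452_nt.DG.KEYa

/-!
# Row KEYb: the number `1` is in the span of the small forms
-/

set_option autoImplicit false

namespace MZG

open Finset Module
open scoped ENNReal Nat Polynomial

/-- `form_ne_zero` with `V = Idx (2r) n → ℚ` (`finrank = card`), `β = bform`, `L = span (TT r n)`,
`c = 4^(r-1) (n+1)` (`codim_TT`), `Va (2r) n a` with `a = n - 4 * 4^r` (`left_kernel`, `2^(2r) = 4^r`);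
`2c ≤ 4^r (a+1)` since `a + 1 = ν - 4 * 4^r ≥ ν/2`, `ν = n + 1 ≥ 8 * 4^r`. Then `form_span`. -/
theorem exists_TT (r n : ℕ) (hr : 4 ≤ r) (hn : 8 * 4 ^ r ≤ n + 1) (la : ℝ →ₗ[ℚ] ℚ)
    (hla : la 1 ≠ 0) : ∃ t ∈ TT r n, ∃ t' ∈ TT r n, la (BB t t') ≠ 0 := by
  classical
  have h2 : (2 : ℕ) ^ (2 * r) = 4 ^ r := by
    rw [pow_mul]
    norm_num
  have h4 : (4 : ℕ) ^ r = 4 * 4 ^ (r - 1) := by
    rw [← pow_succ', Nat.sub_add_cancel (by omega)]
  have hcard : finrank ℚ (Idx (2 * r) n → ℚ) = Fintype.card (Idx (2 * r) n) :=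
    Module.finrank_fintype_fun_eq_card ℚ
  apply form_span (bform (2 * r) n la) (TT r n)
  apply form_ne_zero (bform (2 * r) n la) (Submodule.span ℚ (TT r n))
    (Va (2 * r) n (n - 4 * 4 ^ r)) (4 ^ (r - 1) * (n + 1))
  · rw [hcard]
    exact codim_TT r n hr
  · intro x hx hy
    refine left_kernel (2 * r) n (n - 4 * 4 ^ r) la hla ?_ x hx ?_
    · rw [h2]
      omega
    · intro t'
      exact hy t'
  · rw [finrank_Va (2 * r) n (n - 4 * 4 ^ r) (Nat.sub_le _ _), h2, h4]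
    rw [h4] at hn
    obtain ⟨a, ha⟩ : ∃ a, a = n - 4 * (4 * 4 ^ (r - 1)) := ⟨_, rfl⟩
    rw [← ha]
    have h5 : n + 1 ≤ 2 * (a + 1) := by omega
    calc 2 * (4 ^ (r - 1) * (n + 1)) ≤ 2 * (4 ^ (r - 1) * (2 * (a + 1))) := by gcongr
      _ = 4 * 4 ^ (r - 1) * (a + 1) := by ring

/-- If not, there is a ℚ-linear functional on `ℝ` that vanishes on the span but not at `1`
(`Submodule.exists_le_ker_of_notMem` or `Submodule.exists_dual_map_eq_bot_of_notMem`); contradiction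
with `exists_TT`. -/
theorem one_mem (r n : ℕ) (hr : 4 ≤ r) (hn : 8 * 4 ^ r ≤ n + 1) :
    (1 : ℝ) ∈ Submodule.span ℚ {y : ℝ | ∃ t ∈ TT r n, ∃ t' ∈ TT r n, y = BB t t'} := by
  by_contra hcon
  obtain ⟨la, hla, hker⟩ := Submodule.exists_le_ker_of_notMem hcon
  obtain ⟨t, ht, t', ht', hne⟩ := exists_TT r n hr hn la hla
  exact hne (hker (Submodule.subset_span ⟨t, ht, t', ht', rfl⟩))

end MZG
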