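import Pool.Agent.Lib.MP_e54452_nt.DG.Defs3
import Pool.Agent.Lib.MP_e54452_nt.DG.RkF

/-!
# The rank lemma (helper87, helper92), with the notation of the other files
-/

set_option autoImplicit false

namespace MZG

open Finset
open scoped ENNReal Nat Polynomial

/-- rank lemma -/
theorem rank_lemma (s : ℕ) (mu : List Bool → List Bool → ℕ → ℚ) (h0 : mu [] [] 0 ≠ 0)
    (hrec : ∀ w v, good w = true → good v = true → w.length ≤ s → v.length ≤ s → ∀ j : ℕ,
      ((j : ℚ) + 2) * mu w v (j + 1) - ((j : ℚ) + 1) * mu w v j = Vp mu w v j - Wp mu w v j)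
    (a n : ℕ) (hn : a + 4 * 2 ^ s ≤ n) (Q : List Bool →₀ ℚ[X])
    (hQ : ∀ w ∈ Q.support, good w = true ∧ w.length ≤ s) (hdeg : ∀ w, (Q w).natDegree ≤ a)
    (h : ∀ v, good v = true → v.length ≤ s → ∀ j ≤ n,
      (Q.sum fun w p => p.sum fun i t => t * mu w v (i + j)) = 0) : Q = 0 :=
  MPe54452.Exp.rank_words s mu h0 (Vp mu) (Wp mu) (fun _ _ => rfl) (fun _ _ _ => rfl)
    (fun _ _ _ => rfl) (fun _ _ => rfl) (fun _ _ _ => rfl) (fun _ _ _ => rfl) hrec a n hn Q hQ hdeg h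

end MZG
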