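import Mathlib

/-!
# The differential field of rational functions
-/

set_option autoImplicit false

open Polynomial Module

namespace MPe54452.Exp

/-- The field of rational functions. -/
abbrev KK : Type := FractionRing ℚ[X]

/-- the embedding of polynomials -/
noncomputable abbrev pe : ℚ[X] →+* KK := algebraMap ℚ[X] KK

noncomputable def rk1Hom : ℚ[X] →+* TrivSqZeroExt KK KK where
  toFun p := TrivSqZeroExt.inl (pe p) + TrivSqZeroExt.inr (pe (X * (1 - X) * derivative p))
  map_one' := by simp
  map_zero' := by simp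
  map_add' p q := by
    apply TrivSqZeroExt.ext
    · simp
    · simp only [TrivSqZeroExt.snd_add, TrivSqZeroExt.snd_inl, TrivSqZeroExt.snd_inr, map_add,
        mul_add, zero_add]
  map_mul' p q := by
    apply TrivSqZeroExt.ext
    · simp
    · simp only [TrivSqZeroExt.snd_add, TrivSqZeroExt.snd_inl, TrivSqZeroExt.snd_inr, zero_add,
        TrivSqZeroExt.snd_mul, TrivSqZeroExt.fst_add, TrivSqZeroExt.fst_inl,
        TrivSqZeroExt.fst_inr, add_zero, derivative_mul, map_mul, map_add, smul_eq_mul,
        MulOpposite.smul_eq_mul_unop, MulOpposite.unop_op]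
      ring

theorem exists_DK : ∃ D : KK →+ KK, (∀ f g, D (f * g) = D f * g + f * D g) ∧
    ∀ p : ℚ[X], D (pe p) = pe (X * (1 - X) * derivative p) := by
  have hu : ∀ y : nonZeroDivisors ℚ[X], IsUnit (rk1Hom y) := by
    intro y
    rw [TrivSqZeroExt.isUnit_iff_isUnit_fst]
    have h0 : (y : ℚ[X]) ≠ 0 := nonZeroDivisors.coe_ne_zero y
    have h1 : (rk1Hom (y : ℚ[X])).fst = pe (y : ℚ[X]) := by
      simp [rk1Hom]
    rw [h1]
    apply IsUnit.mk0
    intro h2
    apply h0
    exact (IsFractionRing.injective ℚ[X] KK) (by rw [map_zero]; exact h2)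
  set ψ : KK →+* TrivSqZeroExt KK KK := IsLocalization.lift hu with hψ
  have hψp : ∀ p : ℚ[X], ψ (pe p) = rk1Hom p := fun p => IsLocalization.lift_eq hu p
  have hfst : ∀ f : KK, (ψ f).fst = f := by
    have h3 : (TrivSqZeroExt.fstHom KK KK KK).toRingHom.comp ψ = RingHom.id KK := by
      apply IsLocalization.ringHom_ext (nonZeroDivisors ℚ[X])
      ext p
      · simp
      · simp [hψp, rk1Hom]
    intro f
    have h4 := congrArg (fun g : KK →+* KK => g f) h3
    simpa using h4
  refine ⟨⟨⟨fun f => (ψ f).snd, by simp⟩, fun f g => by simp⟩, ?_, ?_⟩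
  · intro f g
    show (ψ (f * g)).snd = (ψ f).snd * g + f * (ψ g).snd
    rw [map_mul, TrivSqZeroExt.snd_mul, hfst, hfst]
    simp only [smul_eq_mul, MulOpposite.smul_eq_mul_unop, MulOpposite.unop_op]
    ring
  · intro p
    show (ψ (pe p)).snd = _
    rw [hψp]
    simp [rk1Hom]

/-- The derivation `z(1-z)d/dz`. -/
noncomputable def DK : KK →+ KK := Classical.choose exists_DK

lemma DK_mul (f g : KK) : DK (f * g) = DK f * g + f * DK g :=
  (Classical.choose_spec exists_DK).1 f g

lemma DK_pe (p : ℚ[X]) : DK (pe p) = pe (X * (1 - X) * derivative p) :=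
  (Classical.choose_spec exists_DK).2 p

lemma rk2_pe_inj {p q : ℚ[X]} (h : pe p = pe q) : p = q :=
  IsFractionRing.injective ℚ[X] KK h

/-- every element of the function field is a reduced fraction -/
lemma rk2_frac (f : KK) : ∃ p q : ℚ[X], IsCoprime p q ∧ q ≠ 0 ∧ f * pe q = pe p := by
  refine ⟨IsFractionRing.num ℚ[X] f, (IsFractionRing.den ℚ[X] f : ℚ[X]), ?_, ?_, ?_⟩
  · exact (IsFractionRing.num_den_reduced ℚ[X] f).isCoprime
  · exact nonZeroDivisors.coe_ne_zero _
  · have h := IsFractionRing.mk'_num_den ℚ[X] f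
    have h2 := IsLocalization.mk'_spec KK (IsFractionRing.num ℚ[X] f) (IsFractionRing.den ℚ[X] f)
    rw [h] at h2
    exact h2

/-- the quotient rule -/
lemma rk2_quot (f : KK) (p q : ℚ[X]) (h : f * pe q = pe p) :
    DK f * pe (q ^ 2) = pe (X * (1 - X) * (q * derivative p - p * derivative q)) := by
  have h1 : DK f * pe q + f * pe (X * (1 - X) * derivative q) =
      pe (X * (1 - X) * derivative p) := by
    rw [← DK_pe q, ← DK_pe p, ← h, DK_mul]
  have h2 : DK f * pe (q ^ 2) = (pe (X * (1 - X) * derivative p)) * pe q -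
      (f * pe q) * pe (X * (1 - X) * derivative q) := by
    rw [← h1, map_pow]; ring
  rw [h2, h]
  simp only [← map_mul, ← map_sub]
  congr 1
  ring

lemma rk2_X1 : (X * (1 - X) : ℚ[X]) ≠ 0 := by
  apply mul_ne_zero X_ne_zero
  intro h
  have := congrArg (Polynomial.eval 0) h
  simp at this

theorem DK_eq_zero (f : KK) (h : DK f = 0) : ∃ c : ℚ, f = pe (C c) := by
  obtain ⟨p, q, hc, hq, hf⟩ := rk2_frac f
  have h1 := rk2_quot f p q hf
  rw [h, zero_mul] at h1
  have h2 : X * (1 - X) * (q * derivative p - p * derivative q) = 0 := by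
    apply rk2_pe_inj
    rw [← h1, map_zero]
  have h3 : q * derivative p = p * derivative q := by
    have := (mul_eq_zero.1 h2).resolve_left rk2_X1
    exact sub_eq_zero.1 this
  have h4 : q ∣ derivative q := by
    apply hc.symm.dvd_of_dvd_mul_left
    rw [← h3]
    exact dvd_mul_right _ _
  have h5 : derivative q = 0 := by
    by_contra hne
    have h6 := Polynomial.natDegree_le_of_dvd h4 hne
    by_cases h7 : q.natDegree = 0
    · apply hne
      rw [Polynomial.eq_C_of_natDegree_eq_zero h7, derivative_C]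
    · have := Polynomial.natDegree_derivative_lt h7
      omega
  have h8 : derivative p = 0 := by
    rw [h5, mul_zero] at h3
    exact (mul_eq_zero.1 h3).resolve_left hq
  have hqC := Polynomial.eq_C_of_natDegree_eq_zero
    (Polynomial.derivative_eq_zero.1 h5)
  have hpC := Polynomial.eq_C_of_natDegree_eq_zero
    (Polynomial.derivative_eq_zero.1 h8)
  set a := p.coeff 0 with ha
  set b := q.coeff 0 with hb
  have hb0 : b ≠ 0 := by
    intro h9
    apply hq
    rw [hqC, h9, C_0]
  refine ⟨a / b, ?_⟩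
  have h10 : pe q ≠ 0 := by
    intro h11
    apply hq
    apply rk2_pe_inj
    rw [h11, map_zero]
  apply mul_right_cancel₀ h10
  rw [hf, ← map_mul]
  congr 1
  rw [hpC, hqC, ← C_mul]
  congr 1
  field_simp

/-- the pole at 0 -/
lemma rk3_zero (p q : ℚ[X]) (hc : IsCoprime p q) (hq : q ≠ 0) (α β : ℚ)
    (h : X * (1 - X) * (q * derivative p - p * derivative q) =
      (C α * (1 - X) + C β * X) * q ^ 2) : α = 0 := by
  obtain ⟨q1, hq1, hnd⟩ := Polynomial.exists_eq_pow_rootMultiplicity_mul_and_not_dvd q hq 0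
  set b := Polynomial.rootMultiplicity 0 q with hb
  rw [C_0, sub_zero] at hq1 hnd
  have hq10 : q1.eval 0 ≠ 0 := by
    intro h0
    apply hnd
    rw [X_dvd_iff, coeff_zero_eq_eval_zero, h0]
  by_cases hb0 : b = 0
  · have h0 := congrArg (Polynomial.eval 0) h
    have h1 : q.eval 0 ≠ 0 := by
      rw [hq1, hb0, pow_zero, one_mul]; exact hq10
    simp at h0
    rcases h0 with h0 | h0
    · exact h0
    · exact absurd h0 h1
  · exfalso
    obtain ⟨b', hb'⟩ := Nat.exists_eq_succ_of_ne_zero hb0
    have hXq : X ∣ q := by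
      rw [hq1, hb', pow_succ]
      exact ⟨X ^ b' * q1, by ring⟩
    have hp0 : p.eval 0 ≠ 0 := by
      intro h0
      have h1 : X ∣ p := by
        rw [X_dvd_iff, coeff_zero_eq_eval_zero, h0]
      have h2 := hc.isUnit_of_dvd' h1 hXq
      exact not_isUnit_X h2
    have hder : X * derivative q = X ^ b * (C (b : ℚ) * q1 + X * derivative q1) := by
      rw [hq1, hb', derivative_mul, derivative_X_pow]
      simp only [Nat.succ_eq_add_one, Nat.add_sub_cancel]
      ring
    have h1 : X ^ b * ((1 - X) * (X * q1 * derivative p - p * (C (b : ℚ) * q1 + X * derivative q1)))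
        = X ^ b * ((C α * (1 - X) + C β * X) * X ^ b * q1 ^ 2) := by
      have e1 : X * (1 - X) * (q * derivative p - p * derivative q) =
        (1 - X) * (X * q * derivative p - p * (X * derivative q)) := by ring
      rw [e1, hder] at h
      have e2 : X * q * derivative p = X ^ b * (X * q1 * derivative p) := by
        rw [hq1]; ring
      rw [e2] at h
      have e3 : q ^ 2 = X ^ b * (X ^ b * q1 ^ 2) := by
        rw [hq1]; ring
      rw [e3] at h
      linear_combination h
    have h2 := mul_left_cancel₀ (pow_ne_zero b (X_ne_zero (R := ℚ))) h1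
    have h3 := congrArg (Polynomial.eval 0) h2
    simp [hb0] at h3
    rcases h3 with h3 | h3
    · exact hp0 h3
    · exact hq10 h3

theorem DK_noAnti (f : KK) (α β : ℚ) (h : DK f = pe (C α * (1 - X) + C β * X)) :
    α = 0 ∧ β = 0 := by
  obtain ⟨p, q, hc, hq, hf⟩ := rk2_frac f
  have h1 := rk2_quot f p q hf
  rw [h, ← map_mul] at h1
  have h2 := (rk2_pe_inj h1).symm
  refine ⟨rk3_zero p q hc hq α β h2, ?_⟩
  have h3 := congrArg (fun r : ℚ[X] => r.comp (1 - X)) h2
  have hq' : q.comp (1 - X) ≠ 0 := by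
    intro h0
    apply hq
    have h4 := congrArg (fun r : ℚ[X] => r.comp (1 - X)) h0
    simp only [comp_assoc, sub_comp, one_comp, X_comp, sub_sub_cancel, comp_X, zero_comp] at h4
    exact h4
  have hc' : IsCoprime (p.comp (1 - X)) (q.comp (1 - X)) := by
    obtain ⟨a, b, hab⟩ := hc
    refine ⟨a.comp (1 - X), b.comp (1 - X), ?_⟩
    rw [← mul_comp, ← mul_comp, ← add_comp, hab, one_comp]
  have h5 := rk3_zero (p.comp (1 - X)) (q.comp (1 - X)) hc' hq' (-β) (-α) (by
    simp only [mul_comp, sub_comp, add_comp, one_comp, X_comp, sub_sub_cancel, C_comp,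
      pow_comp] at h3
    simp only [derivative_comp, derivative_sub, derivative_one, derivative_X, zero_sub, C_neg]
    linear_combination (-1 : ℚ[X]) * h3)
  linarith

end MPe54452.Exp
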