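import Pool.Agent.Lib.MP_e54452_nt.DG.RkA

/-!
# Elimination lemma, cyclic subspaces, polynomial syzygies
-/

set_option autoImplicit false

open Polynomial Module

namespace MPe54452.Exp

/-- Finite rooted trees with edges labelled by `Bool`. -/
structure Tree (ι : Type) where
  par : ι → Option (Bool × ι)
  len : ι → ℕ
  root : ι
  par_root : par root = none
  len_root : len root = 0
  eq_root : ∀ w, par w = none → w = root
  inj : ∀ w w' x, par w = some x → par w' = some x → w = w'
  len_par : ∀ w a w', par w = some (a, w') → len w = len w' + 1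

variable {ι : Type} [Fintype ι] [DecidableEq ι]

/-- `(Gop T g c)_w = ∑_a g_a c_{aw}` -/
def Gop {R : Type} [CommRing R] (T : Tree ι) (g : Bool → R) (c : ι → R) (w : ι) : R :=
  ∑ u, (T.par u).elim 0 (fun x => if x.2 = w then g x.1 * c u else 0)

-- ROW rk-4 (elimination), helper55
theorem elimination_key (T : Tree ι) (g : Bool → KK)
    (hg : ∀ (f : KK) (α β : ℚ), DK f = pe (C α) * g false + pe (C β) * g true → α = 0 ∧ β = 0)
    (S : Submodule KK (ι → KK))
    (hT : ∀ c ∈ S, (fun w => DK (c w) + Gop T g c w) ∈ S)
    (c : ι → KK) (hc : c ∈ S) (w0 : ι) (hw0 : c w0 ≠ 0)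
    (hmax : ∀ w, T.len w0 < T.len w → c w = 0)
    (IH : ∀ c' ∈ S, c' ≠ 0 → (∀ w, T.len w0 < T.len w → c' w = 0) →
      (∀ w, T.len w = T.len w0 → c' w ≠ 0 → c w ≠ 0 ∧ w ≠ w0) →
      Pi.single T.root (1 : KK) ∈ S) :
    Pi.single T.root (1 : KK) ∈ S := by
  classical
  have DK1 : DK 1 = 0 := by
    have h := DK_pe 1
    simpa using h
  obtain ⟨c1, hc1⟩ : ∃ c1 : ι → KK, c1 = (c w0)⁻¹ • c := ⟨_, rfl⟩
  have hc1S : c1 ∈ S := by rw [hc1]; exact S.smul_mem _ hc
  have hc1v : ∀ w, c1 w = (c w0)⁻¹ * c w := by intro w; rw [hc1]; rfl
  have hone : c1 w0 = 1 := by rw [hc1v]; exact inv_mul_cancel₀ hw0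
  have hzero : ∀ w, c w = 0 → c1 w = 0 := by intro w hw; rw [hc1v, hw, mul_zero]
  have hG : ∀ w, T.len w0 ≤ T.len w → Gop T g c1 w = 0 := by
    intro w hw
    unfold Gop
    refine Finset.sum_eq_zero fun u _ => ?_
    rcases hu : T.par u with _ | ⟨a, x⟩
    · rfl
    · simp only [Option.elim_some]
      split_ifs with hx
      · have h1 := T.len_par u a x hu
        have h2 : x = w := hx
        subst h2
        rw [hzero u (hmax u (by omega)), mul_zero]
      · rfl
  by_cases htc : (fun w => DK (c1 w) + Gop T g c1 w) = 0
  · have htc' : ∀ w, DK (c1 w) + Gop T g c1 w = 0 := fun w => congrFun htc w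
    have hconst : ∀ w, T.len w = T.len w0 → ∃ k : ℚ, c1 w = pe (C k) := by
      intro w hw
      have h1 := htc' w
      rw [hG w hw.ge, add_zero] at h1
      exact DK_eq_zero _ h1
    rcases hp : T.par w0 with _ | ⟨a, w'⟩
    · have hr := T.eq_root w0 hp
      have hl : T.len w0 = 0 := by rw [hr]; exact T.len_root
      have : c1 = Pi.single T.root (1 : KK) := by
        funext w
        by_cases hw : w = T.root
        · rw [hw, Pi.single_eq_same, ← hr, hone]
        · rw [Pi.single_eq_of_ne hw]
          rcases hpw : T.par w with _ | ⟨b, x⟩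
          · exact absurd (T.eq_root w hpw) hw
          · have h1 := T.len_par w b x hpw
            exact hzero w (hmax w (by omega))
      rw [← this]; exact hc1S
    · exfalso
      have hlen := T.len_par w0 a w' hp
      choose! k hk using hconst
      have h1 := htc' w'
      have h2 : Gop T g c1 w' = pe (C (∑ u, if T.par u = some (false, w') then k u else 0)) * g false +
          pe (C (∑ u, if T.par u = some (true, w') then k u else 0)) * g true := by
        unfold Gop
        rw [map_sum, map_sum, map_sum, map_sum, Finset.sum_mul, Finset.sum_mul,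
          ← Finset.sum_add_distrib]
        refine Finset.sum_congr rfl fun u _ => ?_
        rcases hu : T.par u with _ | ⟨b, x⟩
        · simp
        · have h3 := T.len_par u b x hu
          by_cases hx : x = w'
          · subst hx
            have h4 := hk u (by omega)
            cases b <;> simp [h4, mul_comm]
          · simp [hx]
      have h3 : DK (-c1 w') = pe (C (∑ u, if T.par u = some (false, w') then k u else 0)) * g false +
          pe (C (∑ u, if T.par u = some (true, w') then k u else 0)) * g true := by
        rw [map_neg, ← h2]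
        exact neg_eq_of_add_eq_zero_right h1
      obtain ⟨hα, hβ⟩ := hg _ _ _ h3
      have hk0 : k w0 = 1 := by
        have h4 := hk w0 rfl
        rw [hone] at h4
        have h5 : pe (C (k w0)) = pe (C 1) := by rw [← h4]; simp
        have h6 := (IsFractionRing.injective ℚ[X] KK) h5
        exact C_injective h6
      have hsum : ∀ b, T.par w0 = some (b, w') →
          (∑ u, if T.par u = some (b, w') then k u else 0) = 1 := by
        intro b hb
        rw [Finset.sum_eq_single w0]
        · rw [if_pos hb, hk0]
        · intro u _ hu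
          rw [if_neg]
          intro h
          exact hu (T.inj u w0 _ h hb)
        · intro h; exact absurd (Finset.mem_univ _) h
      cases a
      · rw [hsum false hp] at hα; exact one_ne_zero hα
      · rw [hsum true hp] at hβ; exact one_ne_zero hβ
  · refine IH _ (hT c1 hc1S) htc ?_ ?_
    · intro w hw
      show DK (c1 w) + Gop T g c1 w = 0
      rw [hG w hw.le, hzero w (hmax w hw), map_zero, add_zero]
    · intro w hw hne
      have hne' : DK (c1 w) + Gop T g c1 w ≠ 0 := hne
      rw [hG w hw.ge, add_zero] at hne'
      constructor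
      · intro h
        apply hne'
        rw [hzero w h, map_zero]
      · intro h
        apply hne'
        rw [h, hone, DK1]

theorem elimination (T : Tree ι) (g : Bool → KK)
    (hg : ∀ (f : KK) (α β : ℚ), DK f = pe (C α) * g false + pe (C β) * g true → α = 0 ∧ β = 0)
    (S : Submodule KK (ι → KK)) (hS : S ≠ ⊥)
    (hT : ∀ c ∈ S, (fun w => DK (c w) + Gop T g c w) ∈ S) :
    Pi.single T.root (1 : KK) ∈ S := by
  classical
  have main : ∀ l k : ℕ, ∀ c ∈ S, c ≠ 0 → (∀ w, l < T.len w → c w = 0) →
      (Finset.univ.filter fun w => c w ≠ 0 ∧ T.len w = l).card ≤ k →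
      Pi.single T.root (1 : KK) ∈ S := by
    intro l
    induction l with
    | zero =>
      intro k
      induction k with
      | zero =>
        intro c hc hc0 hl hk
        exfalso
        apply hc0
        funext w
        by_contra hw
        have h0 : T.len w = 0 := by
          by_contra h
          exact hw (hl w (by omega))
        have h1 : w ∈ (Finset.univ.filter fun w => c w ≠ 0 ∧ T.len w = 0) := by
          simp only [Finset.mem_filter, Finset.mem_univ, true_and]
          exact ⟨hw, h0⟩
        have h2 := Finset.card_pos.2 ⟨w, h1⟩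
        omega
      | succ k ihk =>
        intro c hc hc0 hl hk
        obtain ⟨w0, hw0⟩ := Function.ne_iff.1 hc0
        have h0 : T.len w0 = 0 := by
          by_contra h
          exact hw0 (hl w0 (by omega))
        refine elimination_key T g hg S hT c hc w0 hw0 (by rw [h0]; exact hl) ?_
        intro c' hc' hc0' hl' hs'
        refine ihk c' hc' hc0' (by rw [h0] at hl'; exact hl') ?_
        have hsub : (Finset.univ.filter fun w => c' w ≠ 0 ∧ T.len w = 0) ⊂
            (Finset.univ.filter fun w => c w ≠ 0 ∧ T.len w = 0) := by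
          rw [Finset.ssubset_iff_of_subset]
          · refine ⟨w0, ?_, ?_⟩
            · simp only [Finset.mem_filter, Finset.mem_univ, true_and]
              exact ⟨hw0, h0⟩
            · simp only [Finset.mem_filter, Finset.mem_univ, true_and]
              rintro ⟨h1, -⟩
              exact (hs' w0 rfl h1).2 rfl
          · intro w hw
            simp only [Finset.mem_filter, Finset.mem_univ, true_and] at hw ⊢
            exact ⟨(hs' w (by rw [h0]; exact hw.2) hw.1).1, hw.2⟩
        have := Finset.card_lt_card hsub
        omega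
    | succ l ihl =>
      intro k
      induction k with
      | zero =>
        intro c hc hc0 hl hk
        refine ihl (Fintype.card ι) c hc hc0 ?_ (Finset.card_le_univ _)
        intro w hw
        by_contra h
        have h0 : T.len w = l + 1 := by
          by_contra h'
          exact h (hl w (by omega))
        have h1 : w ∈ (Finset.univ.filter fun w => c w ≠ 0 ∧ T.len w = l + 1) := by
          simp only [Finset.mem_filter, Finset.mem_univ, true_and]
          exact ⟨h, h0⟩
        have h2 := Finset.card_pos.2 ⟨w, h1⟩
        omega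
      | succ k ihk =>
        intro c hc hc0 hl hk
        by_cases hemp : ∃ w, c w ≠ 0 ∧ T.len w = l + 1
        · obtain ⟨w0, hw0, h0⟩ := hemp
          refine elimination_key T g hg S hT c hc w0 hw0 (by rw [h0]; exact hl) ?_
          intro c' hc' hc0' hl' hs'
          refine ihk c' hc' hc0' (by rw [h0] at hl'; exact hl') ?_
          have hsub : (Finset.univ.filter fun w => c' w ≠ 0 ∧ T.len w = l + 1) ⊂
              (Finset.univ.filter fun w => c w ≠ 0 ∧ T.len w = l + 1) := by
            rw [Finset.ssubset_iff_of_subset]
            · refine ⟨w0, ?_, ?_⟩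
              · simp only [Finset.mem_filter, Finset.mem_univ, true_and]
                exact ⟨hw0, h0⟩
              · simp only [Finset.mem_filter, Finset.mem_univ, true_and]
                rintro ⟨h1, -⟩
                exact (hs' w0 rfl h1).2 rfl
            · intro w hw
              simp only [Finset.mem_filter, Finset.mem_univ, true_and] at hw ⊢
              exact ⟨(hs' w (by rw [h0]; exact hw.2) hw.1).1, hw.2⟩
          have := Finset.card_lt_card hsub
          omega
        · refine ihl (Fintype.card ι) c hc hc0 ?_ (Finset.card_le_univ _)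
          intro w hw
          by_contra h
          apply hemp
          refine ⟨w, h, ?_⟩
          by_contra h'
          exact h (hl w (by omega))
  obtain ⟨c, hc, hc0⟩ := (Submodule.ne_bot_iff S).1 hS
  exact main (Finset.univ.sup T.len) (Fintype.card ι) c hc hc0 (by
    intro w hw
    have := Finset.le_sup (f := T.len) (Finset.mem_univ w)
    omega) (Finset.card_le_univ _)

theorem cyclic {V : Type} [AddCommGroup V] [Module KK V] [FiniteDimensional KK V] (t : V →+ V)
    (ht : ∀ (f : KK) (v : V), t (f • v) = f • t v - DK f • v) (R₀ : V) :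
    (∀ y ∈ Submodule.span KK (Set.range fun i : ℕ => t^[i] R₀),
      t y ∈ Submodule.span KK (Set.range fun i : ℕ => t^[i] R₀)) ∧
    LinearIndependent KK
      (fun i : Fin (finrank KK (Submodule.span KK (Set.range fun i : ℕ => t^[i] R₀))) =>
        t^[(i : ℕ)] R₀) := by
  classical
  have key : ∀ S : Set V, (∀ x ∈ S, t x ∈ Submodule.span KK S) →
      ∀ y ∈ Submodule.span KK S, t y ∈ Submodule.span KK S := by
    intro S hS y hy
    induction hy using Submodule.span_induction with
    | mem x hx => exact hS x hx
    | zero => rw [map_zero]; exact Submodule.zero_mem _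
    | add x y _ _ hx hy => rw [map_add]; exact Submodule.add_mem _ hx hy
    | smul a x hx' hx =>
      rw [ht]
      exact Submodule.sub_mem _ (Submodule.smul_mem _ _ hx) (Submodule.smul_mem _ _ hx')
  set v : ℕ → V := fun i => t^[i] R₀ with hv
  have hvs : ∀ i, t (v i) = v (i + 1) := fun i => by
    simp only [hv, Function.iterate_succ_apply']
  have h1 : ∀ y ∈ Submodule.span KK (Set.range v), t y ∈ Submodule.span KK (Set.range v) := by
    apply key
    rintro _ ⟨i, rfl⟩
    rw [hvs]
    exact Submodule.subset_span ⟨i + 1, rfl⟩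
  refine ⟨h1, ?_⟩
  -- existence of m
  have hex : ∃ m : ℕ, v m ∈ Submodule.span KK (Set.range fun i : Fin m => v i) := by
    by_contra hne
    push Not at hne
    have hli : ∀ m : ℕ, LinearIndependent KK (fun i : Fin m => v i) := by
      intro m
      induction m with
      | zero => exact linearIndependent_empty_type
      | succ m ih =>
        rw [linearIndependent_finSucc']
        refine ⟨?_, ?_⟩
        · exact ih
        · exact hne m
    have := (hli (finrank KK V + 1)).fintype_card_le_finrank
    simp at this
  obtain ⟨hm, hmin⟩ : (v (Nat.find hex) ∈ Submodule.span KK (Set.range fun i : Fin (Nat.find hex) => v i)) ∧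
      ∀ k < Nat.find hex, v k ∉ Submodule.span KK (Set.range fun i : Fin k => v i) :=
    ⟨Nat.find_spec hex, fun k hk => Nat.find_min hex hk⟩
  set m := Nat.find hex with hmdef
  have hli : ∀ k ≤ m, LinearIndependent KK (fun i : Fin k => v i) := by
    intro k
    induction k with
    | zero => intro _; exact linearIndependent_empty_type
    | succ k ih =>
      intro hk
      rw [linearIndependent_finSucc']
      exact ⟨ih (by omega), hmin k (by omega)⟩
  have hstab : ∀ y ∈ Submodule.span KK (Set.range fun i : Fin m => v i),
      t y ∈ Submodule.span KK (Set.range fun i : Fin m => v i) := by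
    apply key
    rintro _ ⟨i, rfl⟩
    show t (v i) ∈ _
    rw [hvs]
    rcases Nat.lt_or_ge (i.1 + 1) m with h | h
    · exact Submodule.subset_span ⟨⟨i.1 + 1, h⟩, rfl⟩
    · have : i.1 + 1 = m := by have := i.2; omega
      rw [this]; exact hm
  have hall : ∀ i, v i ∈ Submodule.span KK (Set.range fun i : Fin m => v i) := by
    intro i
    induction i with
    | zero =>
      rcases Nat.eq_zero_or_pos m with h | h
      · rw [h] at hm
        rw [h]; exact hm
      · exact Submodule.subset_span ⟨⟨0, h⟩, rfl⟩
    | succ i ih => rw [← hvs]; exact hstab _ ih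
  have hY : Submodule.span KK (Set.range v) = Submodule.span KK (Set.range fun i : Fin m => v i) := by
    apply le_antisymm
    · rw [Submodule.span_le]
      rintro _ ⟨i, rfl⟩
      exact hall i
    · apply Submodule.span_mono
      rintro _ ⟨i, rfl⟩
      exact ⟨i.1, rfl⟩
  have hfr : finrank KK (Submodule.span KK (Set.range v)) = m := by
    rw [hY, finrank_span_eq_card (hli m le_rfl), Fintype.card_fin]
  exact hli _ (le_of_eq hfr)

/-- auxiliary: polynomial with given coefficients -/
noncomputable def polOf (H : ℕ) (x : Fin (H + 1) → ℚ) : ℚ[X] :=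
  ∑ j : Fin (H + 1), C (x j) * X ^ (j : ℕ)

lemma polOf_add (H : ℕ) (x y : Fin (H + 1) → ℚ) : polOf H (x + y) = polOf H x + polOf H y := by
  simp only [polOf, Pi.add_apply, map_add, add_mul, Finset.sum_add_distrib]

lemma polOf_smul (H : ℕ) (a : ℚ) (x : Fin (H + 1) → ℚ) : polOf H (a • x) = C a * polOf H x := by
  simp only [polOf, Pi.smul_apply, smul_eq_mul, map_mul, mul_assoc, Finset.mul_sum]

lemma polOf_coeff (H : ℕ) (x : Fin (H + 1) → ℚ) (j : Fin (H + 1)) :
    (polOf H x).coeff (j : ℕ) = x j := by
  unfold polOf
  rw [Polynomial.finsetSum_coeff, Finset.sum_eq_single j]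
  · simp
  · intro k _ hk
    rw [Polynomial.coeff_C_mul, Polynomial.coeff_X_pow, if_neg, mul_zero]
    intro h
    exact hk (Fin.ext h.symm)
  · intro h
    exact absurd (Finset.mem_univ j) h

lemma polOf_natDegree (H : ℕ) (x : Fin (H + 1) → ℚ) : (polOf H x).natDegree ≤ H := by
  unfold polOf
  refine Polynomial.natDegree_sum_le_of_forall_le _ _ ?_
  intro j _
  refine (Polynomial.natDegree_C_mul_X_pow_le _ _).trans ?_
  have := j.2
  omega

/-- the ℚ-linear map of the dimension count -/
noncomputable def syzMap {β : Type} (A H r : ℕ) (Q : Fin r → β → ℚ[X]) :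
    (Fin r × Fin (H + 1) → ℚ) →ₗ[ℚ] (β × Fin (A + H + 1) → ℚ) where
  toFun x := fun y => (∑ i, polOf H (fun j => x (i, j)) * Q i y.1).coeff (y.2 : ℕ)
  map_add' x x' := by
    funext y
    have h1 : ∀ i, polOf H (fun j => (x + x') (i, j)) =
        polOf H (fun j => x (i, j)) + polOf H (fun j => x' (i, j)) := by
      intro i
      exact polOf_add H (fun j => x (i, j)) (fun j => x' (i, j))
    show (∑ i, polOf H (fun j => (x + x') (i, j)) * Q i y.1).coeff (y.2 : ℕ) =
      (∑ i, polOf H (fun j => x (i, j)) * Q i y.1).coeff (y.2 : ℕ) +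
        (∑ i, polOf H (fun j => x' (i, j)) * Q i y.1).coeff (y.2 : ℕ)
    rw [← Polynomial.coeff_add, ← Finset.sum_add_distrib]
    refine congrArg (fun q : ℚ[X] => q.coeff (y.2 : ℕ)) (Finset.sum_congr rfl fun i _ => ?_)
    rw [h1 i, add_mul]
  map_smul' a x := by
    funext y
    have h1 : ∀ i, polOf H (fun j => (a • x) (i, j)) = C a * polOf H (fun j => x (i, j)) := by
      intro i
      exact polOf_smul H a (fun j => x (i, j))
    show (∑ i, polOf H (fun j => (a • x) (i, j)) * Q i y.1).coeff (y.2 : ℕ) =
      a * (∑ i, polOf H (fun j => x (i, j)) * Q i y.1).coeff (y.2 : ℕ)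
    rw [← Polynomial.coeff_C_mul, Finset.mul_sum]
    refine congrArg (fun q : ℚ[X] => q.coeff (y.2 : ℕ)) (Finset.sum_congr rfl fun i _ => ?_)
    rw [h1 i, mul_assoc]

/-- finitely many coordinates separate the points of a subspace -/
lemma exists_coords {ι : Type} [Fintype ι] (S : Submodule KK (ι → KK)) :
    ∃ (β : Type) (_ : Fintype β) (e : β → ι), Fintype.card β ≤ finrank KK S ∧
      ∀ c ∈ S, (∀ b, c (e b) = 0) → c = 0 := by
  classical
  let f : ι → Module.Dual KK S := fun w => (LinearMap.proj w : (ι → KK) →ₗ[KK] KK).comp S.subtype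
  obtain ⟨b, hb, hspan, hli⟩ := exists_linearIndependent KK (Set.range f)
  have hfin : Finite b := hli.finite
  haveI : Fintype b := Fintype.ofFinite b
  choose e he using fun φ : b => hb φ.2
  refine ⟨b, inferInstance, e, ?_, ?_⟩
  · have h1 := hli.fintype_card_le_finrank
    rwa [Subspace.dual_finrank_eq] at h1
  · intro c hc h0
    funext w
    have hw : f w ∈ Submodule.span KK b := by
      rw [hspan]
      exact Submodule.subset_span ⟨w, rfl⟩
    have key : ∀ φ ∈ Submodule.span KK b, φ (⟨c, hc⟩ : S) = 0 := by
      intro φ hφ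
      induction hφ using Submodule.span_induction with
      | mem φ hφ =>
        have h2 := he ⟨φ, hφ⟩
        have h3 := h0 ⟨φ, hφ⟩
        have h4 : φ = f (e ⟨φ, hφ⟩) := h2.symm
        rw [h4]
        exact h3
      | zero => simp
      | add φ ψ _ _ h1 h2 => rw [LinearMap.add_apply, h1, h2, add_zero]
      | smul a φ _ h1 => rw [LinearMap.smul_apply, h1, smul_zero]
    exact key _ hw

/-- ROW rk-6. -/
theorem syzygy (S : Submodule KK (ι → KK)) (A H r : ℕ) (P : Fin r → ι → ℚ[X])
    (hdeg : ∀ i w, (P i w).natDegree ≤ A) (hS : ∀ i, (fun w => pe (P i w)) ∈ S)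
    (hcount : finrank KK S * (A + H + 1) < r * (H + 1)) :
    ∃ h : Fin r → ℚ[X], h ≠ 0 ∧ (∀ i, (h i).natDegree ≤ H) ∧ ∀ w, ∑ i, h i * P i w = 0 := by
  classical
  obtain ⟨β, _, e, hcard, hsep⟩ := exists_coords S
  have hker : LinearMap.ker (syzMap A H r (fun i (b : β) => P i (e b))) ≠ ⊥ := by
    apply LinearMap.ker_ne_bot_of_finrank_lt
    rw [Module.finrank_fintype_fun_eq_card, Module.finrank_fintype_fun_eq_card,
      Fintype.card_prod, Fintype.card_prod, Fintype.card_fin, Fintype.card_fin, Fintype.card_fin]
    exact lt_of_le_of_lt (Nat.mul_le_mul_right _ hcard) hcount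
  obtain ⟨x, hx, hx0⟩ := (Submodule.ne_bot_iff _).1 hker
  refine ⟨fun i => polOf H (fun j => x (i, j)), ?_, fun i => polOf_natDegree _ _, ?_⟩
  · intro h
    apply hx0
    funext y
    have h1 := congrFun h y.1
    have h2 := polOf_coeff H (fun j => x (y.1, j)) y.2
    have h3 : polOf H (fun j => x (y.1, j)) = 0 := h1
    rw [h3, Polynomial.coeff_zero] at h2
    exact h2.symm
  · have hz : ∀ b, ∑ i, polOf H (fun j => x (i, j)) * P i (e b) = 0 := by
      intro b
      ext k
      rw [Polynomial.coeff_zero]
      by_cases hk : k < A + H + 1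
      · have h1 := congrFun (LinearMap.mem_ker.1 hx) (b, ⟨k, hk⟩)
        exact h1
      · apply Polynomial.coeff_eq_zero_of_natDegree_lt
        refine lt_of_le_of_lt (Polynomial.natDegree_sum_le_of_forall_le (n := A + H) _ _ ?_)
          (by omega)
        intro i _
        refine Polynomial.natDegree_mul_le.trans ?_
        have h1 := polOf_natDegree H (fun j => x (i, j))
        have h2 := hdeg i (e b)
        omega
    have hmem : (fun w => pe (∑ i, polOf H (fun j => x (i, j)) * P i w)) ∈ S := by
      have h1 : (fun w => pe (∑ i, polOf H (fun j => x (i, j)) * P i w)) =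
          ∑ i, pe (polOf H (fun j => x (i, j))) • (fun w => pe (P i w)) := by
        funext w
        rw [Finset.sum_apply, map_sum]
        refine Finset.sum_congr rfl fun i _ => ?_
        rw [map_mul, Pi.smul_apply, smul_eq_mul]
      rw [h1]
      exact Submodule.sum_mem _ fun i _ => Submodule.smul_mem _ _ (hS i)
    have h0 := hsep _ hmem (fun b => by
      show pe (∑ i, polOf H (fun j => x (i, j)) * P i (e b)) = 0
      rw [hz b, map_zero])
    intro w
    have h1 := congrFun h0 w
    have h2 : pe (∑ i, polOf H (fun j => x (i, j)) * P i w) = 0 := h1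
    exact (map_eq_zero_iff pe (IsFractionRing.injective ℚ[X] KK)).1 h2

end MPe54452.Exp
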