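import Pool.Agent.Lib.MP_e54452_nt.DG.RkC

/-!
# The semilinear connection on pairs
-/

set_option autoImplicit false

open Polynomial Module

namespace MPe54452.Exp

variable {ι : Type} [Fintype ι] [DecidableEq ι]

/-- The underlying function of the semilinear connection on pairs. -/
noncomputable def NabFun (T : Tree ι) (l : ι → ι → ℚ[X] →ₗ[ℚ] ℚ) (R : (ι → KK) × (ι → KK)) :
    (ι → KK) × (ι → KK) :=
  (fun w => -DK (R.1 w) + Gop T (fun b => pe (gam b)) R.1 w,
    fun v => -DK (R.2 v) + (T.par v).elim 0 (fun x => pe (gb x.1) * R.2 x.2) -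
      ∑ u, pe (C (kap T l u v)) * R.1 u)

-- PART 1
theorem rk9_Gop_add {R : Type} [CommRing R] (T : Tree ι) (g : Bool → R) (c d : ι → R) (w : ι) :
    Gop T g (c + d) w = Gop T g c w + Gop T g d w := by
  unfold Gop
  rw [← Finset.sum_add_distrib]
  refine Finset.sum_congr rfl fun u _ => ?_
  cases T.par u with
  | none => simp
  | some x =>
    simp only [Option.elim_some]
    split_ifs
    · rw [Pi.add_apply, mul_add]
    · rw [add_zero]

theorem rk9_Gop_smul {R : Type} [CommRing R] (T : Tree ι) (g : Bool → R) (f : R) (c : ι → R)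
    (w : ι) : Gop T g (f • c) w = f * Gop T g c w := by
  unfold Gop
  rw [Finset.mul_sum]
  refine Finset.sum_congr rfl fun u _ => ?_
  cases T.par u with
  | none => simp
  | some x =>
    simp only [Option.elim_some]
    split_ifs
    · rw [Pi.smul_apply, smul_eq_mul]; ring
    · rw [mul_zero]

theorem rk9_Gop_neg {R : Type} [CommRing R] (T : Tree ι) (g : Bool → R) (c : ι → R)
    (w : ι) : Gop T (fun b => -g b) c w = -Gop T g c w := by
  unfold Gop
  rw [← Finset.sum_neg_distrib]
  refine Finset.sum_congr rfl fun u _ => ?_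
  cases T.par u with
  | none => simp
  | some x =>
    simp only [Option.elim_some]
    split_ifs
    · ring
    · rw [neg_zero]

/-- ROW rk-9 (with the next three). -/
theorem NabFun_add (T : Tree ι) (l : ι → ι → ℚ[X] →ₗ[ℚ] ℚ) (R S : (ι → KK) × (ι → KK)) :
    NabFun T l (R + S) = NabFun T l R + NabFun T l S := by
  refine Prod.ext ?_ ?_
  · funext w
    change -DK ((R.1 + S.1) w) + Gop T (fun b => pe (gam b)) (R.1 + S.1) w =
      (-DK (R.1 w) + Gop T (fun b => pe (gam b)) R.1 w) +
        (-DK (S.1 w) + Gop T (fun b => pe (gam b)) S.1 w)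
    rw [rk9_Gop_add, Pi.add_apply, map_add]
    ring
  · funext v
    change -DK ((R.2 + S.2) v) + (T.par v).elim 0 (fun x => pe (gb x.1) * (R.2 + S.2) x.2) -
      ∑ u, pe (C (kap T l u v)) * (R.1 + S.1) u =
      (-DK (R.2 v) + (T.par v).elim 0 (fun x => pe (gb x.1) * R.2 x.2) -
        ∑ u, pe (C (kap T l u v)) * R.1 u) +
      (-DK (S.2 v) + (T.par v).elim 0 (fun x => pe (gb x.1) * S.2 x.2) -
        ∑ u, pe (C (kap T l u v)) * S.1 u)
    rw [Pi.add_apply, map_add]
    have h1 : (T.par v).elim 0 (fun x => pe (gb x.1) * (R.2 + S.2) x.2) =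
        (T.par v).elim 0 (fun x => pe (gb x.1) * R.2 x.2) +
        (T.par v).elim 0 (fun x => pe (gb x.1) * S.2 x.2) := by
      cases T.par v with
      | none => simp
      | some x => simp only [Option.elim_some, Pi.add_apply, mul_add]
    have h2 : ∑ u, pe (C (kap T l u v)) * (R.1 + S.1) u =
        ∑ u, pe (C (kap T l u v)) * R.1 u + ∑ u, pe (C (kap T l u v)) * S.1 u := by
      rw [← Finset.sum_add_distrib]
      exact Finset.sum_congr rfl fun u _ => by rw [Pi.add_apply, mul_add]
    rw [h1, h2]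
    ring

/-- The semilinear connection on pairs. -/
noncomputable def Nab (T : Tree ι) (l : ι → ι → ℚ[X] →ₗ[ℚ] ℚ) :
    ((ι → KK) × (ι → KK)) →+ ((ι → KK) × (ι → KK)) :=
  AddMonoidHom.mk' (NabFun T l) (NabFun_add T l)



-- PART 2 (after the definition of Nab)
/-- ROW rk-9. -/
theorem Nab_smul (T : Tree ι) (l : ι → ι → ℚ[X] →ₗ[ℚ] ℚ) (f : KK) (R : (ι → KK) × (ι → KK)) :
    Nab T l (f • R) = f • Nab T l R - DK f • R := by
  refine Prod.ext ?_ ?_
  · funext w
    change -DK (f * R.1 w) + Gop T (fun b => pe (gam b)) (f • R.1) w =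
      f * (-DK (R.1 w) + Gop T (fun b => pe (gam b)) R.1 w) - DK f * R.1 w
    rw [rk9_Gop_smul, DK_mul]
    ring
  · funext v
    change -DK (f * R.2 v) + (T.par v).elim 0 (fun x => pe (gb x.1) * (f • R.2) x.2) -
      ∑ u, pe (C (kap T l u v)) * (f • R.1) u =
      f * (-DK (R.2 v) + (T.par v).elim 0 (fun x => pe (gb x.1) * R.2 x.2) -
        ∑ u, pe (C (kap T l u v)) * R.1 u) - DK f * R.2 v
    have h1 : (T.par v).elim 0 (fun x => pe (gb x.1) * (f • R.2) x.2) =
        f * (T.par v).elim 0 (fun x => pe (gb x.1) * R.2 x.2) := by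
      cases T.par v with
      | none => simp
      | some x => simp only [Option.elim_some, Pi.smul_apply, smul_eq_mul]; ring
    have h2 : ∑ u, pe (C (kap T l u v)) * (f • R.1) u =
        f * ∑ u, pe (C (kap T l u v)) * R.1 u := by
      rw [Finset.mul_sum]
      exact Finset.sum_congr rfl fun u _ => by rw [Pi.smul_apply, smul_eq_mul]; ring
    rw [h1, h2, DK_mul]
    ring

theorem rk9_DK_one : DK 1 = 0 := by
  have h := DK_pe 1
  rw [map_one, derivative_one, mul_zero, map_zero] at h
  exact h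

theorem rk9_Gop_root {R : Type} [CommRing R] (T : Tree ι) (g : Bool → R) (w : ι) :
    Gop T g (Pi.single T.root 1) w = 0 := by
  unfold Gop
  refine Finset.sum_eq_zero fun u _ => ?_
  by_cases hu : u = T.root
  · rw [hu, T.par_root]; rfl
  · rw [Pi.single_eq_of_ne hu]
    cases T.par u with
    | none => rfl
    | some x => simp

theorem rk9_Gop_zero {R : Type} [CommRing R] (T : Tree ι) (g : Bool → R) (w : ι) :
    Gop T g (0 : ι → R) w = 0 := by
  unfold Gop
  refine Finset.sum_eq_zero fun u _ => ?_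
  cases T.par u with
  | none => rfl
  | some x => simp

/-- the orthogonal of a submodule of `ι → KK` -/
noncomputable def rk9perp (Z : Submodule KK (ι → KK)) : Submodule KK (ι → KK) where
  carrier := {c | ∀ A ∈ Z, ∑ v, c v * A v = 0}
  add_mem' := by
    intro c d hc hd A hA
    simp only [Pi.add_apply, add_mul, Finset.sum_add_distrib, hc A hA, hd A hA, add_zero]
  zero_mem' := by
    intro A _
    simp
  smul_mem' := by
    intro f c hc A hA
    simp only [Pi.smul_apply, smul_eq_mul, mul_assoc, ← Finset.mul_sum, hc A hA, mul_zero]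

omit [DecidableEq ι] in
theorem rk9_mem_perp (Z : Submodule KK (ι → KK)) (c : ι → KK) :
    c ∈ rk9perp Z ↔ ∀ A ∈ Z, ∑ v, c v * A v = 0 := Iff.rfl

theorem rk9_adj (T : Tree ι) (g : Bool → KK) (c A : ι → KK) :
    ∑ w, Gop T g c w * A w = ∑ v, c v * (T.par v).elim 0 (fun x => g x.1 * A x.2) := by
  unfold Gop
  simp only [Finset.sum_mul]
  rw [Finset.sum_comm]
  refine Finset.sum_congr rfl fun u _ => ?_
  cases T.par u with
  | none => simp
  | some x =>
    simp only [Option.elim_some, ite_mul, zero_mul]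
    rw [Finset.sum_ite_eq]
    simp only [Finset.mem_univ, if_true]
    ring

theorem rk9_perp_ne (Z : Submodule KK (ι → KK)) (hZ : Z ≠ ⊤) : rk9perp Z ≠ ⊥ := by
  obtain ⟨φ, hφ, hker⟩ := Submodule.exists_le_ker_of_lt_top Z (lt_top_iff_ne_top.2 hZ)
  have hexp : ∀ A : ι → KK, φ A = ∑ v, φ (Pi.single v 1) * A v := by
    intro A
    conv_lhs => rw [pi_eq_sum_univ' A]
    rw [map_sum]
    refine Finset.sum_congr rfl fun v _ => ?_
    rw [map_smul, smul_eq_mul, mul_comm]
  intro h0
  have hc : (fun v => φ (Pi.single v 1)) ∈ rk9perp Z := by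
    intro A hA
    rw [← hexp]
    exact hker hA
  rw [h0, Submodule.mem_bot] at hc
  apply hφ
  refine LinearMap.ext fun A => ?_
  rw [hexp, LinearMap.zero_apply]
  refine Finset.sum_eq_zero fun v _ => ?_
  rw [show φ (Pi.single v 1) = 0 from congrFun hc v, zero_mul]

theorem rk9_perp_stable (T : Tree ι) (g : Bool → KK) (Z : Submodule KK (ι → KK))
    (hst : ∀ A ∈ Z, (fun v => -DK (A v) + (T.par v).elim 0 (fun x => g x.1 * A x.2)) ∈ Z)
    (c : ι → KK) (hc : c ∈ rk9perp Z) : (fun w => DK (c w) + Gop T g c w) ∈ rk9perp Z := by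
  intro A hA
  have h1 := hc A hA
  have h2 := hc _ (hst A hA)
  have h3 : ∑ v, (DK (c v) * A v + c v * DK (A v)) = 0 := by
    have := congrArg DK h1
    rw [map_sum, map_zero] at this
    rw [← this]
    exact Finset.sum_congr rfl fun v _ => (DK_mul _ _).symm
  have h4 : ∑ v, (DK (c v) + Gop T g c v) * A v =
      ∑ v, (DK (c v) * A v + c v * DK (A v)) +
      ∑ v, c v * (-DK (A v) + (T.par v).elim 0 (fun x => g x.1 * A x.2)) := by
    have e1 : ∑ v, (DK (c v) + Gop T g c v) * A v =
        ∑ v, DK (c v) * A v + ∑ v, Gop T g c v * A v := by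
      rw [← Finset.sum_add_distrib]
      exact Finset.sum_congr rfl fun v _ => by ring
    rw [e1, rk9_adj, ← Finset.sum_add_distrib, ← Finset.sum_add_distrib]
    exact Finset.sum_congr rfl fun v _ => by ring
  change ∑ v, (DK (c v) + Gop T g c v) * A v = 0
  rw [h4, h3, h2, add_zero]

/-- ROW rk-9. Let Y₁ = projection of Y to the first components (Submodule.map). Y₁ ≠ ⊥ and it is stable under
c ↦ DK c + Gop T (-γ) c (minus the first component of Nab), so `elimination` with g = fun b => -pe (gam b)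
(hg from DK_noAnti: DK f = -α z - β(1-z) = pe (C (-β) * (1-X) + C (-α) * X)) gives (e_root, A*) ∈ Y for some A*.
Nab (e_root, A*) = (0, A1) ∈ Y: the first component vanishes since DK 0 = DK 1 = 0 and T.par root = none;
A1 root = -DK (A* root) - pe (C (kap root root)) = 1 - DK (A* root), as kap root root = -l root root 1 = -1;
A1 root ≠ 0 by DK_noAnti (1 = C 1 * (1-X) + C 1 * X). ZZ = {A | (0,A) ∈ Y} is a submodule, A1 ∈ ZZ, stable under
A ↦ (v ↦ -DK (A v) + (par v).elim 0 (pe (gb a) * A v')) (Nab of (0,A)). If ZZ ≠ ⊤ there is a nonzero linear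
functional vanishing on ZZ (`Submodule.exists_dual_map_eq_bot_of_lt_top` or `Submodule.exists_le_ker_of_lt_top`),
i.e. nonzero c with ∑ c v * A v = 0 for A ∈ ZZ. S = {c | ∀ A ∈ ZZ, ∑ v, c v * A v = 0} is stable under
c ↦ DK c + Gop T γ̄ c : apply DK to ∑ c_v A_v = 0 and use ∑ c_v (-DK A_v + [γ̄ A_v']) = 0 and
∑_v c_v (par v).elim 0 (γ̄_a A_v') = ∑_w (Gop T γ̄ c w) A_w. So `elimination` with g = fun b => pe (gb b) gives
e_root ∈ S, A1 root = 0: contradiction. -/
theorem zz_top (T : Tree ι) (l : ι → ι → ℚ[X] →ₗ[ℚ] ℚ) (hN : l T.root T.root 1 = 1)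
    (Y : Submodule KK ((ι → KK) × (ι → KK))) (hY : ∀ y ∈ Y, Nab T l y ∈ Y)
    (hne : ∃ y ∈ Y, y.1 ≠ 0) (A : ι → KK) : ((0, A) : (ι → KK) × (ι → KK)) ∈ Y := by
  have hC : ∀ r : ℚ, pe (C r) = pe (C r) := fun _ => rfl
  -- step A
  have hA : (Pi.single T.root 1 : ι → KK) ∈ Submodule.map (LinearMap.fst KK (ι → KK) (ι → KK)) Y := by
    refine elimination T (fun b => -pe (gam b)) ?_ _ ?_ ?_
    · intro f α β hf
      have h1 : DK f = pe (C (-β) * (1 - X) + C (-α) * X) := by
        rw [hf]
        simp only [gam, if_true, map_add, map_mul, map_neg, map_sub, map_one, Bool.false_eq_true,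
          if_false]
        ring
      have h2 := DK_noAnti f _ _ h1
      exact ⟨by linarith [h2.2], by linarith [h2.1]⟩
    · obtain ⟨y, hy, hy1⟩ := hne
      intro h0
      have : y.1 ∈ Submodule.map (LinearMap.fst KK (ι → KK) (ι → KK)) Y := ⟨y, hy, rfl⟩
      rw [h0, Submodule.mem_bot] at this
      exact hy1 this
    · rintro c ⟨y, hy, rfl⟩
      refine ⟨-Nab T l y, Submodule.neg_mem _ (hY y hy), ?_⟩
      funext w
      change -(-DK (y.1 w) + Gop T (fun b => pe (gam b)) y.1 w) =
        DK (y.1 w) + Gop T (fun b => -pe (gam b)) y.1 w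
      rw [rk9_Gop_neg]
      ring
  obtain ⟨y, hy, hy1⟩ := hA
  have hy1' : y.1 = Pi.single T.root 1 := hy1
  -- step B
  have hB1 : (Nab T l y).1 = 0 := by
    funext w
    change -DK (y.1 w) + Gop T (fun b => pe (gam b)) y.1 w = 0
    rw [hy1', rk9_Gop_root, add_zero]
    by_cases hw : w = T.root
    · rw [hw, Pi.single_eq_same, rk9_DK_one, neg_zero]
    · rw [Pi.single_eq_of_ne hw, map_zero, neg_zero]
  have hB2 : (Nab T l y).2 T.root = -DK (y.2 T.root) + 1 := by
    change -DK (y.2 T.root) + (T.par T.root).elim 0 (fun x => pe (gb x.1) * y.2 x.2) -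
      ∑ u, pe (C (kap T l u T.root)) * y.1 u = -DK (y.2 T.root) + 1
    rw [hy1', Finset.sum_eq_single T.root]
    · rw [Pi.single_eq_same, mul_one]
      have hk : kap T l T.root T.root = -1 := by
        unfold kap
        rw [T.par_root, hN]
        simp
      rw [hk, T.par_root]
      simp only [Option.elim_none, map_neg, map_one]
      ring
    · intro u _ hu
      rw [Pi.single_eq_of_ne hu, mul_zero]
    · intro h; exact absurd (Finset.mem_univ _) h
  have hB3 : (Nab T l y).2 T.root ≠ 0 := by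
    rw [hB2]
    intro h0
    have h1 : DK (y.2 T.root) = pe (C 1 * (1 - X) + C 1 * X) := by
      have h2 : DK (y.2 T.root) = 1 := by linear_combination -h0
      rw [h2, ← map_one pe]
      congr 1
      rw [map_one]
      ring
    exact one_ne_zero (DK_noAnti _ _ _ h1).1
  have hZmem : ∀ B : ι → KK, B ∈ Submodule.comap (LinearMap.inr KK (ι → KK) (ι → KK)) Y ↔
      ((0, B) : (ι → KK) × (ι → KK)) ∈ Y := fun B => Iff.rfl
  have hB4 : (Nab T l y).2 ∈ Submodule.comap (LinearMap.inr KK (ι → KK) (ι → KK)) Y := by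
    rw [hZmem, ← hB1]
    exact hY y hy
  have hst : ∀ B ∈ Submodule.comap (LinearMap.inr KK (ι → KK) (ι → KK)) Y,
      (fun v => -DK (B v) + (T.par v).elim 0 (fun x => pe (gb x.1) * B x.2)) ∈
        Submodule.comap (LinearMap.inr KK (ι → KK) (ι → KK)) Y := by
    intro B hB
    rw [hZmem] at hB ⊢
    have h1 := hY _ hB
    have h2 : Nab T l ((0, B) : (ι → KK) × (ι → KK)) =
        (0, fun v => -DK (B v) + (T.par v).elim 0 (fun x => pe (gb x.1) * B x.2)) := by
      refine Prod.ext ?_ ?_
      · funext w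
        change -DK 0 + Gop T (fun b => pe (gam b)) 0 w = 0
        rw [rk9_Gop_zero, map_zero, neg_zero, add_zero]
      · funext v
        change -DK (B v) + (T.par v).elim 0 (fun x => pe (gb x.1) * B x.2) -
          ∑ u, pe (C (kap T l u v)) * (0 : ι → KK) u =
          -DK (B v) + (T.par v).elim 0 (fun x => pe (gb x.1) * B x.2)
        simp
    rw [h2] at h1
    exact h1
  by_contra hcon
  have hZ : Submodule.comap (LinearMap.inr KK (ι → KK) (ι → KK)) Y ≠ ⊤ := by
    intro htop
    apply hcon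
    rw [← hZmem, htop]
    exact Submodule.mem_top
  have hfin : (Pi.single T.root 1 : ι → KK) ∈
      rk9perp (Submodule.comap (LinearMap.inr KK (ι → KK) (ι → KK)) Y) := by
    refine elimination T (fun b => pe (gb b)) ?_ _ (rk9_perp_ne _ hZ) ?_
    · intro f α β hf
      refine DK_noAnti f α β ?_
      rw [hf]
      simp only [gb, if_true, map_add, map_mul, map_sub, map_one, Bool.false_eq_true, if_false]
    · exact rk9_perp_stable T (fun b => pe (gb b)) _ hst
  have h5 := hfin _ hB4
  rw [Finset.sum_eq_single T.root] at h5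
  · rw [Pi.single_eq_same, one_mul] at h5
    exact hB3 h5
  · intro u _ hu
    rw [Pi.single_eq_of_ne hu, zero_mul]
  · intro h; exact absurd (Finset.mem_univ _) h

end MPe54452.Exp
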