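import Pool.Agent.Lib.MP_e54452_nt.DG.Defs3

/-!
# Row SIa: `lcm (1..k) ≤ e^{6k}`
-/

set_option autoImplicit false

namespace MZG

open Finset
open scoped ENNReal Nat Polynomial

/-- `dd k = ∏_{p ≤ k} p^{⌊log_p k⌋}`, `log (dd k) = ψ(k)` (Chebyshev's function;
`Chebyshev.psi`, look for the relation with `lcm`; bound: `Chebyshev.psi_le_const_mul_self`).
Alternative elementary proof: `dd k ∣ ∏_{p ≤ k} p^{log_p k}` and each prime power is `≤ k`:
`dd k ≤ k^{π(√k)} * primorial k ≤ k^{√k} 4^k ≤ e^{6k}` (`primorial_le_4_pow`), since primes `p > √k`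
occur to the power `1`; `√k log k ≤ 2k` (`log k ≤ 2 √k`). -/
theorem dd_le (k : ℕ) : (dd k : ℝ) ≤ Real.exp (6 * k) := by
  have h1 : Chebyshev.psi (k : ℝ) = Real.log (dd k) := Chebyshev.psi_eq_log_lcmUpto k
  have h2 := Chebyshev.psi_le_const_mul_self (x := (k : ℝ)) (Nat.cast_nonneg k)
  have hpos : (0 : ℝ) < (dd k : ℝ) := by
    have : 0 < Nat.lcmUpto k := Nat.lcmUpto_pos k
    exact_mod_cast this
  have hlog4 : Real.log 4 ≤ 2 := by
    have : Real.log 4 = 2 * Real.log 2 := by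
      rw [show (4 : ℝ) = 2 ^ 2 by norm_num, Real.log_pow]
      norm_num
    rw [this]
    have := Real.log_two_lt_d9
    linarith
  have h3 : Real.log (dd k : ℝ) ≤ 6 * k := by
    rw [← h1]
    refine h2.trans ?_
    apply mul_le_mul_of_nonneg_right _ (Nat.cast_nonneg k)
    linarith
  exact (Real.log_le_iff_le_exp hpos).mp h3

end MZG
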