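import Mathlib

/-!
# Row SIb: numerical bound for Siegel's lemma
-/

set_option autoImplicit false

namespace MZG

/-- The exponent is `2^r/(4^(r-1) - 2^r) = 1/(2^(r-2) - 1) ≤ 8/2^r` (as `8 ≤ 2^r`), the base is `≥ 1`.
`(8/2^r) (log (4^(r-1) ν) + 6 * 2^r ν * 2r) ≤ (8/16)(r log 4 + ν) + 96 r ν ≤ 100 r ν`
(`log ν ≤ ν`, `log 4 ≤ 2`). -/
theorem siegel_num (r ν : ℕ) (hr : 4 ≤ r) (hν : 1 ≤ ν) :
    (((4 ^ (r - 1) * ν : ℕ) : ℝ) * Real.exp (6 * (2 ^ r * ν : ℕ)) ^ (2 * r)) ^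
      (((2 ^ r * ν : ℕ) : ℝ) / (((4 ^ (r - 1) * ν : ℕ) : ℝ) - ((2 ^ r * ν : ℕ) : ℝ))) ≤
    Real.exp (100 * r * (ν : ℝ)) := by
  obtain ⟨q, rfl⟩ : ∃ q, r = q + 4 := ⟨r - 4, by omega⟩
  have hνR : (1 : ℝ) ≤ (ν : ℝ) := by exact_mod_cast hν
  have h2q : (1 : ℝ) ≤ 2 ^ q := one_le_pow₀ (by norm_num)
  set Y : ℝ := 2 ^ q with hY
  have h4 : ((4 ^ (q + 4 - 1) * ν : ℕ) : ℝ) = 64 * Y ^ 2 * ν := by
    have : q + 4 - 1 = q + 3 := by omega
    rw [this]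
    push_cast
    rw [hY, ← pow_mul, pow_add, show (4 : ℝ) ^ q = 2 ^ (q * 2) by
      rw [show (4 : ℝ) = 2 ^ 2 by norm_num, ← pow_mul, mul_comm]]
    ring
  have h2 : ((2 ^ (q + 4) * ν : ℕ) : ℝ) = 16 * Y * ν := by
    push_cast
    rw [hY, pow_add]
    ring
  rw [h4, h2]
  -- exponent
  have hden : (0 : ℝ) < 64 * Y ^ 2 * ν - 16 * Y * ν := by nlinarith [mul_pos (show (0:ℝ) < Y by linarith) (show (0:ℝ) < ν by linarith)]
  have he : (16 * Y * ν) / (64 * Y ^ 2 * ν - 16 * Y * ν) ≤ 1 / (2 * Y) := by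
    rw [div_le_div_iff₀ hden (by linarith)]
    nlinarith [mul_pos (show (0:ℝ) < Y by linarith) (show (0:ℝ) < ν by linarith), mul_nonneg (mul_nonneg (show (0:ℝ) ≤ Y by linarith) (show (0:ℝ) ≤ ν by linarith)) (show (0:ℝ) ≤ Y - 1 by linarith)]
  -- base
  have hexp1 : (2 : ℝ) ≤ Real.exp 1 := by
    have := Real.add_one_le_exp (1 : ℝ)
    linarith
  have hexp2 : (4 : ℝ) ≤ Real.exp 2 := by
    have : Real.exp 2 = Real.exp 1 * Real.exp 1 := by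
      rw [← Real.exp_add]; norm_num
    rw [this]
    nlinarith
  have hpow : (64 * Y ^ 2 : ℝ) ≤ Real.exp (2 * (q + 3)) := by
    have h1 : (64 * Y ^ 2 : ℝ) = 4 ^ (q + 3) := by
      rw [hY, ← pow_mul, pow_add, show (4 : ℝ) ^ q = 2 ^ (q * 2) by
        rw [show (4 : ℝ) = 2 ^ 2 by norm_num, ← pow_mul, mul_comm]]
      ring
    have h3 : Real.exp (2 * (q + 3)) = Real.exp 2 ^ (q + 3) := by
      rw [← Real.exp_nat_mul]
      congr 1
      push_cast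
      ring
    rw [h1, h3]
    exact pow_le_pow_left₀ (by norm_num) hexp2 _
  have hνe : (ν : ℝ) ≤ Real.exp ν := by
    have := Real.add_one_le_exp (ν : ℝ)
    linarith
  have hbase : 64 * Y ^ 2 * ν * Real.exp (6 * (16 * Y * ν)) ^ (2 * (q + 4)) ≤
      Real.exp (2 * (q + 3) + ν + (2 * (q + 4)) * (6 * (16 * Y * ν))) := by
    have h5 : Real.exp (6 * (16 * Y * ν)) ^ (2 * (q + 4)) =
        Real.exp ((2 * (q + 4)) * (6 * (16 * Y * ν))) := by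
      rw [← Real.exp_nat_mul]
      congr 1
      push_cast
      ring
    rw [h5, Real.exp_add, Real.exp_add]
    have : 64 * Y ^ 2 * ν ≤ Real.exp (2 * (q + 3)) * Real.exp ν :=
      mul_le_mul hpow hνe (by linarith) (Real.exp_pos _).le
    exact mul_le_mul_of_nonneg_right this (Real.exp_pos _).le
  have hb0 : 0 ≤ 64 * Y ^ 2 * ν * Real.exp (6 * (16 * Y * ν)) ^ (2 * (q + 4)) := by positivity
  have he0 : 0 ≤ (16 * Y * ν) / (64 * Y ^ 2 * ν - 16 * Y * ν) :=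
    div_nonneg (by positivity) hden.le
  refine (Real.rpow_le_rpow hb0 hbase he0).trans ?_
  rw [← Real.exp_mul]
  apply Real.exp_le_exp.mpr
  have hL : (0 : ℝ) ≤ 2 * (q + 3) + ν + (2 * (q + 4)) * (6 * (16 * Y * ν)) := by positivity
  refine (mul_le_mul_of_nonneg_left he hL).trans ?_
  rw [mul_one_div, div_le_iff₀ (by linarith)]
  push_cast
  have hq0 : (0 : ℝ) ≤ q := Nat.cast_nonneg q
  have hYν : (1 : ℝ) ≤ Y * ν := by nlinarith
  have hq4 : (0 : ℝ) ≤ (q : ℝ) + 4 := by linarith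
  nlinarith [mul_nonneg hq0 (show (0:ℝ) ≤ Y * ν - 1 by linarith), mul_nonneg hq0 (show (0:ℝ) ≤ Y * ν by linarith), mul_nonneg (show (0:ℝ) ≤ (ν:ℝ) by linarith) (show (0:ℝ) ≤ Y - 1 by linarith)]

end MZG
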