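import Pool.Agent.Lib.MP_e54452_nt.DG.SIa
import Pool.Agent.Lib.MP_e54452_nt.DG.SIb
import Pool.Agent.Lib.MP_e54452_nt.DG.GWa
import Pool.Agent.Lib.MP_e54452_nt.DG.C1a

/-!
# Row SIc: Siegel's lemma on a set of coordinates
-/

set_option autoImplicit false

namespace MZG

open Finset
open scoped ENNReal Nat Polynomial

lemma SIc_dvd (m j : ℕ) (h1 : 1 ≤ j) (h2 : j ≤ m) : j ∣ dd m := by
  have : (id j) ∣ (Finset.Icc 1 m).lcm id := Finset.dvd_lcm (Finset.mem_Icc.2 ⟨h1, h2⟩)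
  exact this

lemma SIc_pos (m : ℕ) : 0 < dd m := by
  apply Nat.pos_of_ne_zero
  intro h
  have h1 : (Finset.Icc 1 m).lcm id = 0 := h
  rw [Finset.lcm_eq_zero_iff] at h1
  obtain ⟨x, hx, hx0⟩ := h1
  rw [Finset.mem_Icc] at hx
  simp only [id] at hx0
  omega

lemma SIc_cc_nonneg (w : List Bool) (i k : ℕ) : 0 ≤ cc w i k := by
  unfold cc
  split_ifs
  · exact c_nonneg _ _
  · exact le_refl _

lemma SIc_cc_le_one (w : List Bool) (i k : ℕ) : cc w i k ≤ 1 := by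
  unfold cc
  split_ifs
  · exact c_le_one _ _
  · exact zero_le_one

lemma SIc_cc_int (w : List Bool) (s m : ℕ) (hw : w.length ≤ s) (i k : ℕ) (hk : k ≤ m) :
    ∃ t : ℤ, (dd m : ℚ) ^ s * cc w i k = t := by
  unfold cc
  split_ifs with h
  · obtain ⟨t, ht⟩ := c_int w m (dd m) (fun j h1 h2 => SIc_dvd m j h1 h2) (k - i) (by omega)
    refine ⟨(dd m : ℤ) ^ (s - w.length) * t, ?_⟩
    have h1 : (dd m : ℚ) ^ s = (dd m : ℚ) ^ (s - w.length) * (dd m : ℚ) ^ w.length := by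
      rw [← pow_add]
      congr 1
      omega
    rw [h1, mul_assoc, ht]
    push_cast
    ring
  · exact ⟨0, by simp⟩

/-- Siegel's lemma `Int.Matrix.exists_ne_zero_int_vec_norm_le` for the integer matrix with rows
`k : Fin m`, `m = 2^r (n+1)`, columns `x : J` (as a subtype, `card J = 4^(r-1) (n+1) > m`, since
`4^(r-1) ≥ 4 * 2^r`... `r ≥ 4`), entries `D^(2r) * cc x.1 x.2 k`, `D = dd m`: integers by
`c_int` (with `K = m`, `|w| ≤ 2r` by `mem_GW`), of absolute value at most `D^(2r)`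
(`c_nonneg`, `c_le_one`) `≤ exp (6 m)^(2r)` (`dd_le`). So `max 1 ‖A‖ ≤ exp (6 m)^(2r)`, the bound is
`siegel_num` with `ν = n + 1`. Extend the integer vector by zero outside `J`. -/
theorem small_on (r n : ℕ) (hr : 4 ≤ r) (J : Finset (Idx (2 * r) n))
    (hJ : J.card = 4 ^ (r - 1) * (n + 1)) :
    ∃ t ∈ TT r n, t ≠ 0 ∧ ∀ x, x ∉ J → t x = 0 := by
  classical
  set m : ℕ := 2 ^ r * (n + 1) with hm
  set D : ℕ := dd m with hD
  have hD0 : 0 < D := SIc_pos m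
  have hint : ∀ (k : Fin m) (x : J), ∃ t : ℤ,
      (D : ℚ) ^ (2 * r) * cc x.1.1 x.1.2 (k : ℕ) = t := by
    intro k x
    exact SIc_cc_int x.1.1 (2 * r) m ((mem_GW _ _).1 x.1.1.2).2 x.1.2 k k.2.le
  choose A hA using hint
  have hJc : Fintype.card J = 4 ^ (r - 1) * (n + 1) := by
    rw [Fintype.card_coe, hJ]
  have hlt : Fintype.card (Fin m) < Fintype.card J := by
    rw [Fintype.card_fin, hJc, hm]
    apply Nat.mul_lt_mul_of_pos_right _ (Nat.succ_pos n)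
    have : (4 : ℕ) ^ (r - 1) = 2 ^ (2 * (r - 1)) := by rw [pow_mul]; norm_num
    rw [this]
    apply Nat.pow_lt_pow_right (by norm_num)
    omega
  have hmpos : 0 < m := by rw [hm]; positivity
  have hpos : 0 < Fintype.card (Fin m) := by rw [Fintype.card_fin]; exact hmpos
  let A' : Matrix (Fin m) J ℤ := A
  obtain ⟨t, ht0, hAt, hnorm⟩ := Int.Matrix.exists_ne_zero_int_vec_norm_le A' hlt hpos
  let _ : SeminormedAddCommGroup (Matrix (Fin m) J ℤ) := Matrix.seminormedAddCommGroup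
  have hEpos : (0 : ℝ) ≤ Real.exp (6 * (m : ℕ)) ^ (2 * r) := by positivity
  have hE1 : (1 : ℝ) ≤ Real.exp (6 * (m : ℕ)) ^ (2 * r) := by
    apply one_le_pow₀
    apply Real.one_le_exp
    positivity
  have hnA : ‖A'‖ ≤ Real.exp (6 * (m : ℕ)) ^ (2 * r) := by
    rw [Matrix.norm_le_iff hEpos]
    intro k x
    rw [Int.norm_eq_abs]
    have h1 : ((A' k x : ℤ) : ℝ) = (D : ℝ) ^ (2 * r) * ((cc x.1.1 x.1.2 (k : ℕ) : ℚ) : ℝ) := by
      have := hA k x
      have h2 : ((A k x : ℤ) : ℚ) = (D : ℚ) ^ (2 * r) * cc x.1.1 x.1.2 (k : ℕ) := this.symm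
      have h3 : (((A k x : ℤ) : ℚ) : ℝ) =
          (((D : ℚ) ^ (2 * r) * cc x.1.1 x.1.2 (k : ℕ) : ℚ) : ℝ) := by rw [h2]
      push_cast at h3
      exact h3
    have hc0 : (0 : ℝ) ≤ ((cc x.1.1 x.1.2 (k : ℕ) : ℚ) : ℝ) := by
      exact_mod_cast SIc_cc_nonneg _ _ _
    have hc1 : ((cc x.1.1 x.1.2 (k : ℕ) : ℚ) : ℝ) ≤ 1 := by
      exact_mod_cast SIc_cc_le_one _ _ _
    rw [h1, abs_of_nonneg (by positivity)]
    calc (D : ℝ) ^ (2 * r) * ((cc x.1.1 x.1.2 (k : ℕ) : ℚ) : ℝ) ≤ (D : ℝ) ^ (2 * r) * 1 := by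
          apply mul_le_mul_of_nonneg_left hc1 (by positivity)
      _ = (D : ℝ) ^ (2 * r) := mul_one _
      _ ≤ Real.exp (6 * (m : ℕ)) ^ (2 * r) := by
          apply pow_le_pow_left₀ (Nat.cast_nonneg _) (dd_le m)
  have hbound : ‖t‖ ≤ Real.exp (100 * r * ((n + 1 : ℕ) : ℝ)) := by
    refine hnorm.trans ?_
    have h1 := siegel_num r (n + 1) hr (Nat.succ_le_succ (Nat.zero_le n))
    refine le_trans ?_ h1
    rw [Fintype.card_fin, hJc, ← hm]
    apply Real.rpow_le_rpow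
    · positivity
    · apply mul_le_mul_of_nonneg_left (max_le hE1 hnA) (Nat.cast_nonneg _)
    · apply div_nonneg (Nat.cast_nonneg _)
      rw [Fintype.card_fin, hJc] at hlt
      have : ((m : ℕ) : ℝ) ≤ ((4 ^ (r - 1) * (n + 1) : ℕ) : ℝ) := by exact_mod_cast hlt.le
      linarith
  set T : Idx (2 * r) n → ℚ := fun x => if h : x ∈ J then ((t ⟨x, h⟩ : ℤ) : ℚ) else 0 with hT
  have hTout : ∀ x, x ∉ J → T x = 0 := by
    intro x hx
    simp only [hT]
    rw [dif_neg hx]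
  have hTin : ∀ x : J, T x.1 = ((t x : ℤ) : ℚ) := by
    intro x
    simp only [hT]
    rw [dif_pos x.2]
  refine ⟨T, ⟨?_, ?_, ?_⟩, ?_, hTout⟩
  · intro x
    by_cases hx : x ∈ J
    · exact ⟨t ⟨x, hx⟩, hTin ⟨x, hx⟩⟩
    · exact ⟨0, by rw [hTout x hx]; simp⟩
  · intro k hk
    have h1 : cu T k = ∑ x : J, T x.1 * cc x.1.1 x.1.2 k := by
      unfold cu
      rw [← Finset.sum_subset (Finset.subset_univ J)
        (fun x _ hx => by rw [hTout x hx, zero_mul])]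
      exact (Finset.sum_coe_sort J (fun x => T x * cc x.1 x.2 k)).symm
    have h2 := congrFun hAt ⟨k, hk⟩
    rw [Matrix.mulVec, Pi.zero_apply] at h2
    have h3 : (D : ℚ) ^ (2 * r) * cu T k = 0 := by
      rw [h1, Finset.mul_sum]
      have h4 : ((dotProduct (A' ⟨k, hk⟩) t : ℤ) : ℚ) = 0 := by
        have : dotProduct (A' ⟨k, hk⟩) t = 0 := h2
        rw [this]; simp
      rw [← h4, dotProduct]
      push_cast
      apply Finset.sum_congr rfl
      intro x _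
      have h5 := hA ⟨k, hk⟩ x
      have h6 : ((A' ⟨k, hk⟩ x : ℤ) : ℚ) = (D : ℚ) ^ (2 * r) * cc x.1.1 x.1.2 k := h5.symm
      rw [h6, hTin x]
      ring
    rcases mul_eq_zero.1 h3 with h7 | h7
    · exfalso
      have : (D : ℚ) ≠ 0 := by exact_mod_cast hD0.ne'
      exact pow_ne_zero _ this h7
    · exact h7
  · intro x
    by_cases hx : x ∈ J
    · have h1 := hTin ⟨x, hx⟩
      have h2 : (T x : ℝ) = ((t ⟨x, hx⟩ : ℤ) : ℝ) := by
        have : T x = ((t ⟨x, hx⟩ : ℤ) : ℚ) := h1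
        rw [this]; push_cast; rfl
      rw [h2, ← Int.norm_eq_abs]
      exact (norm_le_pi_norm t ⟨x, hx⟩).trans hbound
    · rw [hTout x hx]
      simp only [Rat.cast_zero, abs_zero]
      exact (Real.exp_pos _).le
  · intro h0
    apply ht0
    ext x
    have h1 := hTin x
    rw [h0] at h1
    have h2 : ((t x : ℤ) : ℚ) = 0 := h1.symm
    exact_mod_cast h2

end MZG
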