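import Pool.Agent.Lib.MP_e54452_nt.DG.LAb
import Pool.Agent.Lib.MP_e54452_nt.DG.SIc

/-!
# Row SId: the span of the small auxiliary functions has small codimension
-/

set_option autoImplicit false

namespace MZG

open Finset Module
open scoped ENNReal Nat Polynomial

/-- Otherwise `finrank L + c ≤ card (Idx (2r) n) = 4^r (n+1)` (`card_Idx`), `L = span (TT r n)`,
`c = 4^(r-1) (n+1)`. `coord_compl` gives `J`, `small_on` gives a nonzero `t ∈ TT r n` supported in `J`:
contradiction. -/
theorem codim_TT (r n : ℕ) (hr : 4 ≤ r) :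
    Fintype.card (Idx (2 * r) n) <
      finrank ℚ (Submodule.span ℚ (TT r n)) + 4 ^ (r - 1) * (n + 1) := by
  classical
  by_contra hcon
  push Not at hcon
  obtain ⟨J, hJ, hJ2⟩ := coord_compl (Submodule.span ℚ (TT r n)) _ hcon
  obtain ⟨t, ht, ht0, htJ⟩ := small_on r n hr J hJ
  exact ht0 (hJ2 t (Submodule.subset_span ht) htJ)

end MZG
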