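import Pool.Agent.Lib.MP_e54452_nt.DG.E1b

/-!
# Row SZa: size of the tail of the double series
-/

set_option autoImplicit false

namespace MZG

open Finset
open scoped ENNReal Nat Polynomial

/-- `bt p p = p!² / (2p+1)! = 1 / ((2p+1) centralBinom p) ≤ 4^{-p}`
(`Nat.four_pow_le_two_mul_add_one_mul_central_binom`-like; `Nat.centralBinom`,
`Nat.four_pow_lt_mul_centralBinom`; or induction: `bt (p+1) (p+1) / bt p p = (p+1)²/((2p+2)(2p+3)) ≤ 1/4`). -/
lemma bt_diag (p : ℕ) : bt p p ≤ ENNReal.ofReal ((1 / 4) ^ p) := by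
  unfold bt
  apply ENNReal.ofReal_le_ofReal
  induction p with
  | zero => simp
  | succ p ih =>
    have hf : ((p + 1 + (p + 1) + 1)! : ℝ) =
        (2 * (p : ℝ) + 3) * ((2 * (p : ℝ) + 2) * ((p + p + 1)! : ℝ)) := by
      have h1 : p + 1 + (p + 1) + 1 = (p + p + 1 + 1) + 1 := by omega
      rw [h1, Nat.factorial_succ, Nat.factorial_succ]
      push_cast
      ring
    have hq : ((p + 1)! : ℝ) = ((p : ℝ) + 1) * (p ! : ℝ) := by
      rw [Nat.factorial_succ]
      push_cast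
      ring
    have hpos : (0 : ℝ) < ((p + p + 1)! : ℝ) := by exact_mod_cast Nat.factorial_pos _
    rw [hf, hq]
    have hne : ((p + p + 1)! : ℝ) ≠ 0 := hpos.ne'
    have e : ((p : ℝ) + 1) * (p ! : ℝ) * (((p : ℝ) + 1) * (p ! : ℝ)) /
        ((2 * (p : ℝ) + 3) * ((2 * (p : ℝ) + 2) * ((p + p + 1)! : ℝ))) =
        ((p : ℝ) + 1) / (2 * (2 * (p : ℝ) + 3)) * ((p ! : ℝ) * (p ! : ℝ) / ((p + p + 1)! : ℝ)) := by
      field_simp
    rw [e, pow_succ, mul_comm ((1 / 4 : ℝ) ^ p) (1 / 4)]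
    apply mul_le_mul _ ih (by positivity) (by norm_num)
    rw [div_le_div_iff₀ (by positivity) (by norm_num)]
    linarith [(Nat.cast_nonneg p : (0 : ℝ) ≤ p)]

/-- `m = p + 1`: `∑' k, bt (p + 1 + k) (p + 1 + l) = bt (p + 1) (p + l)` (`bt_tele`), and
`∑' l, bt (p + 1) (p + l) = bt p p` (`bt_tele'`); exchange the sums (`ENNReal.tsum_comm`). -/
lemma tsum_bt_tail (p : ℕ) : ∑' k, ∑' l, bt (p + 1 + k) (p + 1 + l) = bt p p := by
  rw [ENNReal.tsum_comm]
  have h : ∀ l, ∑' k, bt (p + 1 + k) (p + 1 + l) = bt (p + 1) (p + l) := by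
    intro l
    have := bt_tele (p + 1) (p + l)
    rw [← this]
    apply tsum_congr
    intro k
    congr 1
    omega
  rw [tsum_congr h]
  exact bt_tele' p p

end MZG
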